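import Pool.Agent.Lib.MP_9dc83d_nt.Sub.NoSeq

/-!
The `S`-part of the concatenated integers, for all large `n`.
-/

set_option autoImplicit false

section

namespace Pool.Agent.Lib.MP_9dc83d_nt

open Filter Topology Finset

theorem factorial_le_conc (b n : ℕ) (hb : 2 ≤ b) (hn : 1 ≤ n) : n.factorial ≤ conc b n := by
  induction n, hn using Nat.le_induction with
  | base => rw [conc_succ]; simp
  | succ n hn ih =>
    rw [conc_succ, Nat.factorial_succ, mul_comm]
    have h1 : n + 1 < b ^ (Nat.digits b (n + 1)).length := Nat.lt_base_pow_length_digits (by omega)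
    have h2 : n.factorial * (n + 1) ≤ conc b n * b ^ (Nat.digits b (n + 1)).length :=
      Nat.mul_le_mul ih h1.le
    omega

theorem log_conc_ge {b D n : ℕ} (hb : 2 ≤ b) (hD : 3 ≤ D) (hn : b ^ D ≤ n) :
    Real.log b / 4 * (((D + 1) * b ^ D : ℕ) : ℝ) ≤ Real.log (conc b n) := by
  have hbR : (2 : ℝ) ≤ b := by exact_mod_cast hb
  have hb0 : (0 : ℝ) < b := by linarith
  have hlb : (0.69 : ℝ) ≤ Real.log b :=
    (by linarith [Real.log_two_gt_d9] : (0.69 : ℝ) ≤ Real.log 2).trans
      (Real.log_le_log (by norm_num) hbR)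
  have hDR : (3 : ℝ) ≤ D := by exact_mod_cast hD
  have hbD : 1 ≤ b ^ D := Nat.one_le_pow _ _ (by omega)
  have hn1 : 1 ≤ n := hbD.trans hn
  have hnR : ((b : ℝ)) ^ D ≤ n := by exact_mod_cast hn
  have hN0 : (0 : ℝ) < (b : ℝ) ^ D := by positivity
  have hn0 : (0 : ℝ) < n := by linarith
  have h1 : Real.log (n.factorial : ℝ) ≤ Real.log (conc b n) := by
    apply Real.log_le_log (by exact_mod_cast Nat.factorial_pos n)
    exact_mod_cast factorial_le_conc b n hb hn1
  have h2 : (n : ℝ) * (Real.log n - 1) ≤ Real.log (n.factorial : ℝ) := by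
    have h3 := Real.pow_div_factorial_le_exp (n : ℝ) hn0.le n
    have hf : (0 : ℝ) < n.factorial := by exact_mod_cast Nat.factorial_pos n
    have h4 := Real.log_le_log (by positivity) h3
    rw [Real.log_div (by positivity) hf.ne', Real.log_pow, Real.log_exp] at h4
    linarith
  have h3 : (D : ℝ) * Real.log b ≤ Real.log n := by
    rw [← Real.log_pow]
    exact Real.log_le_log hN0 hnR
  have h4 : (D : ℝ) * Real.log b - 1 ≤ Real.log n - 1 := by linarith
  have h5 : 0 ≤ (D : ℝ) * Real.log b - 1 := by nlinarith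
  have h6 : (b : ℝ) ^ D * ((D : ℝ) * Real.log b - 1) ≤ n * (Real.log n - 1) :=
    mul_le_mul hnR h4 h5 hn0.le
  have h7 : Real.log b / 4 * ((D : ℝ) + 1) ≤ (D : ℝ) * Real.log b - 1 := by nlinarith
  have h8 : (b : ℝ) ^ D * (Real.log b / 4 * ((D : ℝ) + 1)) ≤
      (b : ℝ) ^ D * ((D : ℝ) * Real.log b - 1) := mul_le_mul_of_nonneg_left h7 hN0.le
  push_cast
  calc Real.log b / 4 * (((D : ℝ) + 1) * (b : ℝ) ^ D) =
        (b : ℝ) ^ D * (Real.log b / 4 * ((D : ℝ) + 1)) := by ring
    _ ≤ _ := h8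
    _ ≤ _ := h6
    _ ≤ _ := h2
    _ ≤ _ := h1

/-- one prime -/
theorem one_prime_all {b : ℕ} (hb : 2 ≤ b) {ℓ : ℕ} (hℓ : ℓ.Prime) {ε : ℝ} (hε : 0 < ε) :
    ∀ᶠ n in atTop, (ℓ : ℝ) ^ (padicValNat ℓ (conc b n)) ≤ (conc b n : ℝ) ^ ε := by
  by_contra hcon
  rw [not_eventually] at hcon
  obtain ⟨φ, hφ, hφP⟩ := extraction_of_frequently_atTop
    (hcon.and_eventually (eventually_ge_atTop (b ^ 3)))
  have hb1 : (1 : ℝ) < b := by exact_mod_cast (by omega : 1 < b)
  have hlb : 0 < Real.log b := Real.log_pos hb1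
  have hφ1 : ∀ m, 1 ≤ φ m := fun m => (Nat.one_le_pow _ _ (by omega)).trans (hφP m).2
  have hpow : ∀ m, b ^ (Nat.log b (φ m)) ≤ φ m := fun m =>
    Nat.pow_log_le_self b (by have := hφ1 m; omega)
  have hlt : ∀ m, φ m < b ^ (Nat.log b (φ m) + 1) := fun m => Nat.lt_pow_succ_log_self (by omega) _
  have hone : ∀ m, 1 ≤ b ^ (Nat.log b (φ m)) := fun m => Nat.one_le_pow _ _ (by omega)
  have heq : ∀ m, b ^ (Nat.log b (φ m)) - 1 + (φ m + 1 - b ^ (Nat.log b (φ m))) = φ m := by
    intro m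
    have h1 := hpow m
    have h2 := hone m
    omega
  refine Sb.no_seq hb hℓ (fun m => Nat.log b (φ m)) (fun m => φ m + 1 - b ^ (Nat.log b (φ m)))
    ?_ ?_ ?_ (θ := ε * (Real.log b / 4)) (by positivity) ?_
  · rw [tendsto_atTop]
    intro N
    filter_upwards [hφ.tendsto_atTop.eventually_ge_atTop (b ^ N)] with m hm
    exact Nat.le_log_of_pow_le (by omega) hm
  · intro m
    have h1 := hpow m
    omega
  · intro m
    have h1 := hlt m
    have h2 : b ^ (Nat.log b (φ m) + 1) =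
        (b - 1) * b ^ (Nat.log b (φ m)) + b ^ (Nat.log b (φ m)) := by
      rw [pow_succ]
      obtain ⟨c, rfl⟩ : ∃ c, b = c + 1 := ⟨b - 1, by omega⟩
      simp only [Nat.add_sub_cancel]
      ring
    omega
  · intro m
    rw [heq m]
    have h1 := (hφP m).1
    rw [not_le] at h1
    have hD3 : 3 ≤ Nat.log b (φ m) := Nat.le_log_of_pow_le (by omega) (hφP m).2
    have h2 := log_conc_ge hb hD3 (hpow m)
    have hc1 : (0 : ℝ) < (conc b (φ m) : ℝ) := by
      have h3 := le_conc b (φ m) hb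
      have h4 := hφ1 m
      exact_mod_cast (by omega : 0 < conc b (φ m))
    have h3 : Real.exp (ε * (Real.log b / 4) *
        (((Nat.log b (φ m) + 1) * b ^ (Nat.log b (φ m)) : ℕ) : ℝ)) ≤ (conc b (φ m) : ℝ) ^ ε := by
      rw [Real.rpow_def_of_pos hc1]
      apply Real.exp_le_exp.2
      rw [mul_assoc, mul_comm (Real.log (conc b (φ m)))]
      exact mul_le_mul_of_nonneg_left h2 hε.le
    rw [neg_mul, Real.exp_neg]
    exact inv_anti₀ (Real.exp_pos _) (h3.trans h1.le)

/-- the `S`-part of the concatenated integers -/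
theorem spart_all {b : ℕ} (hb : 2 ≤ b) (S : Finset ℕ) (hS : ∀ q ∈ S, q.Prime) {ε : ℝ} (hε : 0 < ε) :
    ∀ᶠ n in atTop, ((∏ q ∈ S, q ^ (conc b n).factorization q : ℕ) : ℝ) ≤ (conc b n : ℝ) ^ ε := by
  have hcard : (0 : ℝ) < S.card + 1 := by positivity
  have h1 : ∀ᶠ n in atTop, ∀ q ∈ S, (q : ℝ) ^ (padicValNat q (conc b n)) ≤
      (conc b n : ℝ) ^ (ε / (S.card + 1)) := by
    rw [Filter.eventually_all_finset]
    intro q hq
    exact one_prime_all hb (hS q hq) (by positivity)
  filter_upwards [h1, eventually_ge_atTop 1] with n hn hn1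
  have hc1 : (1 : ℝ) ≤ (conc b n : ℝ) := by
    have h3 := le_conc b n hb
    exact_mod_cast (by omega : 1 ≤ conc b n)
  push_cast
  calc ∏ q ∈ S, (q : ℝ) ^ (conc b n).factorization q ≤
        ∏ _q ∈ S, (conc b n : ℝ) ^ (ε / (S.card + 1)) := by
        refine Finset.prod_le_prod (fun q _ => by positivity) fun q hq => ?_
        rw [Nat.factorization_def _ (hS q hq)]
        exact hn q hq
    _ = (conc b n : ℝ) ^ (ε / (S.card + 1) * S.card) := by
        rw [Finset.prod_const, Real.rpow_mul (by linarith), Real.rpow_natCast]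
    _ ≤ (conc b n : ℝ) ^ ε := by
        refine Real.rpow_le_rpow_of_exponent_le hc1 ?_
        rw [div_mul_eq_mul_div, div_le_iff₀ hcard]
        nlinarith

/-- the largest prime factor tends to infinity -/
theorem large_prime {b : ℕ} (hb : 2 ≤ b) (y : ℕ) :
    ∀ᶠ n in atTop, ∃ q, q.Prime ∧ y < q ∧ q ∣ conc b n := by
  have h1 := spart_all hb ((Finset.range (y + 1)).filter Nat.Prime)
    (fun q hq => (Finset.mem_filter.1 hq).2) (ε := 1 / 2) (by norm_num)
  filter_upwards [h1, eventually_ge_atTop 2] with n hn hn1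
  by_contra hcon
  push Not at hcon
  have hc1 : 2 ≤ conc b n := hn1.trans (le_conc b n hb)
  have hsub : (conc b n).primeFactors ⊆ (Finset.range (y + 1)).filter Nat.Prime := by
    intro q hq
    rw [Nat.mem_primeFactors] at hq
    rw [Finset.mem_filter, Finset.mem_range]
    refine ⟨?_, hq.1⟩
    by_contra h2
    exact hcon q hq.1 (by omega) hq.2.1
  have h2 : ∏ q ∈ (Finset.range (y + 1)).filter Nat.Prime, q ^ (conc b n).factorization q =
      conc b n := by
    rw [← Finset.prod_subset hsub]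
    · conv_rhs => rw [← Nat.prod_factorization_pow_eq_self (by omega : conc b n ≠ 0)]
      rw [Finsupp.prod, Nat.support_factorization]
    · intro q _ hq
      rw [← Nat.support_factorization, Finsupp.notMem_support_iff] at hq
      rw [hq, pow_zero]
  rw [h2] at hn
  have hc2 : (1 : ℝ) < (conc b n : ℝ) := by exact_mod_cast (by omega : 1 < conc b n)
  have h3 : (conc b n : ℝ) ^ (1 / 2 : ℝ) < (conc b n : ℝ) ^ (1 : ℝ) :=
    Real.rpow_lt_rpow_of_exponent_lt hc2 (by norm_num)
  rw [Real.rpow_one] at h3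
  linarith

end Pool.Agent.Lib.MP_9dc83d_nt

end
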