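import Pool.Agent.Lib.MP_9dc83d_nt.Seq

/-!
The expansion of the concatenated integers over several blocks of equal digit length.
-/

set_option autoImplicit false

open Finset

namespace Pool.Agent.Lib.MP_9dc83d_nt

/-- the constant term of the block of the integers with `D + 1` digits -/
def vq (b D : ℕ) : ℚ :=
  (((b : ℚ) ^ (D + 1) - 1) * ((b : ℚ) ^ D - 1) + (b : ℚ) ^ (D + 1)) / ((b : ℚ) ^ (D + 1) - 1) ^ 2

/-- the last term of the block of the integers with `D + 1` digits, after `h` integers -/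
def wq (b D h : ℕ) : ℚ :=
  (((b : ℚ) ^ (D + 1) - 1) * (h : ℚ) + (((b : ℚ) ^ (D + 1) - 1) * ((b : ℚ) ^ D - 1) +
    (b : ℚ) ^ (D + 1))) / ((b : ℚ) ^ (D + 1) - 1) ^ 2

/-- the number of digits of the `i` blocks before the block of the integers with `D + 1` digits -/
def GG (b D i : ℕ) : ℕ := ∑ j ∈ range i, (D - j) * ((b - 1) * b ^ (D - j - 1))

/-- the integer in front of the highest power -/
def AA (b D : ℕ) : ℤ :=
  (((b : ℤ) ^ (D + 1) - 1) ^ 2 * (conc b (b ^ D - 1) : ℤ) +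
        ((b : ℤ) ^ (D + 1) - 1) * ((b : ℤ) ^ D - 1) + (b : ℤ) ^ (D + 1))

theorem q_pos (b D : ℕ) (hb : 2 ≤ b) : (0 : ℚ) < (b : ℚ) ^ (D + 1) - 1 := by
  have h1 : (1 : ℚ) < b := by exact_mod_cast (by omega : 1 < b)
  have h2 : (1 : ℚ) < (b : ℚ) ^ (D + 1) := one_lt_pow₀ h1 (by omega)
  linarith

theorem closedQ (b D : ℕ) (hb : 2 ≤ b) (h : ℕ) (hh : h ≤ (b - 1) * b ^ D) :
    (conc b (b ^ D - 1 + h) : ℚ) =
      ((conc b (b ^ D - 1) : ℚ) + vq b D) * (b : ℚ) ^ ((D + 1) * h) - wq b D h := by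
  have h1 := congrArg (fun z : ℤ => (z : ℚ)) (closed b D hb h hh)
  push_cast at h1
  have hq := q_pos b D hb
  have hne : ((b : ℚ) ^ (D + 1) - 1) ^ 2 ≠ 0 := by positivity
  rw [pow_mul]
  unfold vq wq
  field_simp
  linarith

theorem AA_eq (b D : ℕ) (hb : 2 ≤ b) :
    (conc b (b ^ D - 1) : ℚ) + vq b D = (((b : ℚ) ^ (D + 1) - 1) ^ 2)⁻¹ * (AA b D : ℚ) := by
  have hq := q_pos b D hb
  have hne : ((b : ℚ) ^ (D + 1) - 1) ^ 2 ≠ 0 := by positivity
  unfold vq AA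
  push_cast
  field_simp
  ring

theorem full_block (b D : ℕ) (hb : 2 ≤ b) : b ^ D - 1 + (b - 1) * b ^ D = b ^ (D + 1) - 1 := by
  have hbd : 1 ≤ b ^ D := Nat.one_le_pow _ _ (by omega)
  have e1 : b ^ (D + 1) = (b - 1) * b ^ D + b ^ D := by
    rw [pow_succ]
    obtain ⟨c, rfl⟩ : ∃ c, b = c + 1 := ⟨b - 1, by omega⟩
    simp only [Nat.add_sub_cancel]
    ring
  omega

/-- the expansion over `k + 1` blocks -/
theorem expansion (b D : ℕ) (hb : 2 ≤ b) (h : ℕ) (hh : h ≤ (b - 1) * b ^ D) (k : ℕ) (hk : k ≤ D) :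
    (conc b (b ^ D - 1 + h) : ℚ) =
      ((conc b (b ^ (D - k) - 1) : ℚ) + vq b (D - k)) * (b : ℚ) ^ ((D + 1) * h + GG b D k) +
      ∑ i ∈ range k, (vq b (D - i) - wq b (D - i - 1) ((b - 1) * b ^ (D - i - 1))) *
        (b : ℚ) ^ ((D + 1) * h + GG b D i) - wq b D h := by
  induction k with
  | zero =>
    rw [closedQ b D hb h hh]
    simp [GG]
  | succ k ih =>
    have ih' := ih (by omega)
    have e1 : D - k = (D - k - 1) + 1 := by omega
    have e2 : D - (k + 1) = D - k - 1 := by omega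
    have e3 : (conc b (b ^ (D - k) - 1) : ℚ) = ((conc b (b ^ (D - k - 1) - 1) : ℚ) +
        vq b (D - k - 1)) * (b : ℚ) ^ ((D - k) * ((b - 1) * b ^ (D - k - 1))) -
        wq b (D - k - 1) ((b - 1) * b ^ (D - k - 1)) := by
      have h1 := closedQ b (D - k - 1) hb ((b - 1) * b ^ (D - k - 1)) le_rfl
      rw [full_block b (D - k - 1) hb, ← e1] at h1
      exact h1
    have e4 : GG b D (k + 1) = GG b D k + (D - k) * ((b - 1) * b ^ (D - k - 1)) := by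
      unfold GG
      rw [sum_range_succ]
    rw [ih', sum_range_succ, e2, e4, e3, ← add_assoc ((D + 1) * h) (GG b D k),
      pow_add (b : ℚ) ((D + 1) * h + GG b D k)]
    ring

theorem conc_lt (b len : ℕ) (hb : 2 ≤ b) (n : ℕ) (hn : n < b ^ len) :
    conc b n < b ^ (len * n) := by
  induction n with
  | zero =>
    rw [conc_zero, mul_zero, pow_zero]
    exact one_pos
  | succ n ih =>
    have ih' := ih (by omega)
    rw [conc_succ]
    have h1 : (Nat.digits b (n + 1)).length ≤ len :=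
      (Nat.digits_length_le_iff (b := b) (k := len) (by omega) (n + 1)).2 hn
    have h2 : n + 1 < b ^ (Nat.digits b (n + 1)).length :=
      Nat.lt_base_pow_length_digits (by omega)
    calc conc b n * b ^ (Nat.digits b (n + 1)).length + (n + 1) <
        conc b n * b ^ (Nat.digits b (n + 1)).length + b ^ (Nat.digits b (n + 1)).length := by omega
      _ = (conc b n + 1) * b ^ (Nat.digits b (n + 1)).length := by ring
      _ ≤ b ^ (len * n) * b ^ len :=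
          Nat.mul_le_mul ih' (Nat.pow_le_pow_right (by omega) h1)
      _ = b ^ (len * (n + 1)) := by rw [← pow_add]; ring_nf

theorem AA_pos (b D : ℕ) (hb : 2 ≤ b) : 0 < AA b D := by
  have h1 : (1 : ℤ) < b := by exact_mod_cast (by omega : 1 < b)
  have h2 : (1 : ℤ) < (b : ℤ) ^ (D + 1) := one_lt_pow₀ h1 (by omega)
  have h3 : (1 : ℤ) ≤ (b : ℤ) ^ D := one_le_pow₀ h1.le
  unfold AA
  have h4 : (0 : ℤ) ≤ ((b : ℤ) ^ (D + 1) - 1) ^ 2 * (conc b (b ^ D - 1) : ℤ) := by positivity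
  have h5 : (0 : ℤ) ≤ ((b : ℤ) ^ (D + 1) - 1) * ((b : ℤ) ^ D - 1) :=
    mul_nonneg (by linarith) (by linarith)
  linarith

theorem AA_le (b D : ℕ) (hb : 2 ≤ b) :
    AA b D ≤ (b : ℤ) ^ (2 * (D + 1) + D * b ^ D) := by
  have h1 : (1 : ℤ) < b := by exact_mod_cast (by omega : 1 < b)
  have hbd : 1 ≤ b ^ D := Nat.one_le_pow _ _ (by omega)
  have h2 : (1 : ℤ) < (b : ℤ) ^ (D + 1) := one_lt_pow₀ h1 (by omega)
  have h3 : (1 : ℤ) ≤ (b : ℤ) ^ D := one_le_pow₀ h1.le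
  have h3' : (b : ℤ) ^ D ≤ (b : ℤ) ^ (D + 1) := pow_le_pow_right₀ h1.le (by omega)
  have h4 : conc b (b ^ D - 1) + 1 ≤ b ^ (D * b ^ D) := by
    have h5 := conc_lt b D hb (b ^ D - 1) (by omega)
    have h6 : b ^ (D * (b ^ D - 1)) ≤ b ^ (D * b ^ D) :=
      Nat.pow_le_pow_right (by omega) (Nat.mul_le_mul_left _ (Nat.sub_le _ _))
    omega
  have h5 : (conc b (b ^ D - 1) : ℤ) + 1 ≤ (b : ℤ) ^ (D * b ^ D) := by exact_mod_cast h4
  have hT : (0 : ℤ) ≤ (conc b (b ^ D - 1) : ℤ) := by positivity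
  have h6 : (b : ℤ) ^ (2 * (D + 1) + D * b ^ D) = ((b : ℤ) ^ (D + 1)) ^ 2 * (b : ℤ) ^ (D * b ^ D) := by
    rw [pow_add, ← pow_mul, mul_comm (D + 1) 2]
  rw [h6]
  unfold AA
  generalize (b : ℤ) ^ (D * b ^ D) = Y at *
  generalize (b : ℤ) ^ (D + 1) = q at *
  generalize (b : ℤ) ^ D = m at *
  generalize (conc b (b ^ D - 1) : ℤ) = T at *
  have h7 : (q - 1) ^ 2 * T ≤ q ^ 2 * T := mul_le_mul_of_nonneg_right (by nlinarith) hT
  have h8 : (q - 1) * (m - 1) + q ≤ q ^ 2 := by nlinarith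
  have h9 : q ^ 2 * (T + 1) ≤ q ^ 2 * Y := mul_le_mul_of_nonneg_left h5 (by positivity)
  linarith

theorem wq_pos (b D h : ℕ) (hb : 2 ≤ b) : 0 < wq b D h := by
  have hq := q_pos b D hb
  have h1 : (1 : ℚ) < b := by exact_mod_cast (by omega : 1 < b)
  have h3 : (1 : ℚ) ≤ (b : ℚ) ^ D := one_le_pow₀ h1.le
  unfold wq
  apply div_pos _ (by positivity)
  have h4 : (0 : ℚ) ≤ ((b : ℚ) ^ (D + 1) - 1) * (h : ℚ) := by positivity
  have h5 : (0 : ℚ) ≤ ((b : ℚ) ^ (D + 1) - 1) * ((b : ℚ) ^ D - 1) :=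
    mul_nonneg hq.le (by linarith)
  linarith

theorem vq_le_one (b D : ℕ) (hb : 2 ≤ b) (hD : 1 ≤ D) : vq b D ≤ 1 := by
  have hq := q_pos b D hb
  have h1 : (2 : ℚ) ≤ b := by exact_mod_cast hb
  have h3 : (2 : ℚ) ≤ (b : ℚ) ^ D := by
    calc (2 : ℚ) ≤ (b : ℚ) ^ 1 := by rw [pow_one]; exact h1
      _ ≤ (b : ℚ) ^ D := pow_le_pow_right₀ (by linarith) hD
  have h4 : 2 * (b : ℚ) ^ D ≤ (b : ℚ) ^ (D + 1) := by
    rw [pow_succ, mul_comm]
    exact mul_le_mul_of_nonneg_left h1 (by positivity)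
  unfold vq
  rw [div_le_one (by positivity)]
  generalize (b : ℚ) ^ (D + 1) = q at *
  generalize (b : ℚ) ^ D = m at *
  nlinarith

theorem one_lt_wq (b D : ℕ) (hb : 2 ≤ b) : 1 < wq b D ((b - 1) * b ^ D) := by
  have hq := q_pos b D hb
  have h1 : (2 : ℚ) ≤ b := by exact_mod_cast hb
  have e1 : (((b - 1) * b ^ D : ℕ) : ℚ) = (b : ℚ) ^ (D + 1) - (b : ℚ) ^ D := by
    push_cast [Nat.cast_sub (by omega : 1 ≤ b)]
    ring
  unfold wq
  rw [e1, one_lt_div (by positivity)]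
  generalize (b : ℚ) ^ (D + 1) = q at *
  generalize (b : ℚ) ^ D = m at *
  nlinarith

end Pool.Agent.Lib.MP_9dc83d_nt
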