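import Pool.Agent.Lib.MP_9dc83d_nt.Sub.Core
import Pool.Agent.Lib.MP_9dc83d_nt.Sub.Expansion

/-!
The `p`-adic size of the concatenated integers, by the subspace theorem.
-/

set_option autoImplicit false

section

namespace Pool.Agent.Lib.MP_9dc83d_nt.Sb

open Filter Topology Finset Pool.Agent.Lib.MP_d0d59f_nt.Auto Pool.Agent.Lib.MP_d0d59f_nt.Lin

variable {s : ℕ} (p : Fin s → Nat.Primes) {L : ℕ → ℕ} {hL : Tendsto L atTop atTop}

/-- `core` for a sum indexed by natural numbers -/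
theorem core' (hL : Tendsto L atTop atTop) (hp : Function.Injective p) {b : ℕ} (hb : 2 ≤ b) {K : ℕ}
    (hbR : b ∣ RR p ^ K) (t0 : Fin s) (k : ℕ) (F : ℕ → ℕ → ℕ)
    (hF : ∀ i, i ≤ k → ∃ C : ℝ, ∀ᶠ m in (hyperfilter ℕ : Filter ℕ), (F i m : ℝ) ≤ C * L m)
    {δ : ℝ} (hδ : 0 < δ) (hsep : ∀ i, i < k → ∀ᶠ m in (hyperfilter ℕ : Filter ℕ),
      (F i m : ℝ) + δ * L m ≤ F (i + 1) m)
    (A x : ℕ → ℤ) {η θ : ℝ} (hηθ : η < θ)
    (hA0 : ∀ᶠ m in (hyperfilter ℕ : Filter ℕ), A m ≠ 0)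
    (hA : ∀ᶠ m in (hyperfilter ℕ : Filter ℕ), |(A m : ℝ)| ≤ Real.exp (η * L m))
    (c : ℕ → ℕ → ℚ) (hc : ∀ i, i ≤ k → ((c i : ℕ → ℚ) : QU) ∈ smallField L hL)
    (hrel : ∀ᶠ m in (hyperfilter ℕ : Filter ℕ), (x m : ℚ) =
      c k m * ((A m : ℚ) * (b : ℚ) ^ (F k m)) + ∑ i ∈ range k, c i m * (b : ℚ) ^ (F i m))
    (hF0 : ∀ m, F 0 m = 0) (hc0 : ∀ᶠ m in (hyperfilter ℕ : Filter ℕ), c 0 m ≠ 0)
    (hx : ∀ᶠ m in (hyperfilter ℕ : Filter ℕ),
      absv p t0.succ (x m : ℚ) ≤ Real.exp (-θ * L m)) : False := by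
  have hsep' : ∀ j, j ≤ k → ∀ i, i < j → ∀ᶠ m in (hyperfilter ℕ : Filter ℕ),
      (F i m : ℝ) + δ * L m ≤ F j m := by
    intro j
    induction j with
    | zero => exact fun _ i hi => absurd hi (Nat.not_lt_zero i)
    | succ j ih =>
      intro hj i hi
      rcases Nat.lt_succ_iff_lt_or_eq.1 hi with h | h
      · filter_upwards [ih (by omega) i h, hsep j (by omega)] with m h1 h2
        have h3 : (0 : ℝ) ≤ δ * L m := by positivity
        linarith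
      · subst h
        exact hsep i (by omega)
  refine core (L := L) (hL := hL) p hp hb hbR t0 (k := k) (fun i => F i)
    (fun i => hF i (by omega)) hδ (fun i j hij => hsep' j (by omega) i hij) A x hηθ hA0 hA
    (fun i => c i) (fun i => hc i (by omega)) ?_ 0 ?_ ?_ hx
  · filter_upwards [hrel] with m hm
    rw [hm, Fin.sum_univ_castSucc, add_comm, Finset.sum_range]
    congr 1
    · refine Finset.sum_congr rfl fun i _ => ?_
      have h1 : (Fin.castSucc i) ≠ Fin.last k := (Fin.castSucc_lt_last i).ne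
      rw [if_neg h1, one_mul]
      rfl
    · rw [if_pos rfl]
      rfl
  · exact hc0
  · filter_upwards with m
    have h1 : F ((0 : Fin (k + 1)) : ℕ) m = 0 := hF0 m
    change absv p t0.succ ((b : ℚ) ^ (F ((0 : Fin (k + 1)) : ℕ) m)) = 1
    rw [h1, pow_zero, map_one]

/-! ### small germs -/

/-- `f` has height `exp (o (L))` -/
def Sm (L : ℕ → ℕ) (hL : Tendsto L atTop atTop) (f : ℕ → ℚ) : Prop := (f : QU) ∈ smallField L hL

theorem Sm.add {f g : ℕ → ℚ} (hf : Sm L hL f) (hg : Sm L hL g) : Sm L hL (fun m => f m + g m) := by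
  have h := (smallField L hL).add_mem hf hg
  rw [← Germ.coe_add] at h
  exact h

theorem Sm.mul {f g : ℕ → ℚ} (hf : Sm L hL f) (hg : Sm L hL g) : Sm L hL (fun m => f m * g m) := by
  have h := (smallField L hL).mul_mem hf hg
  rw [← Germ.coe_mul] at h
  exact h

theorem Sm.sub {f g : ℕ → ℚ} (hf : Sm L hL f) (hg : Sm L hL g) : Sm L hL (fun m => f m - g m) := by
  have h := (smallField L hL).sub_mem hf hg
  rw [← Germ.coe_sub] at h
  exact h

theorem Sm.inv {f : ℕ → ℚ} (hf : Sm L hL f) : Sm L hL (fun m => (f m)⁻¹) := by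
  have h := (smallField L hL).inv_mem hf
  rw [← Germ.coe_inv] at h
  exact h

theorem Sm.const (c : ℚ) : Sm L hL (fun _ => c) := by
  refine ⟨fun _ => c, rfl, fun ε hε => ?_⟩
  obtain ⟨N, hN⟩ := pow_unbounded_of_one_lt (ht c : ℝ) (by linarith : (1 : ℝ) < 1 + ε)
  filter_upwards [ah_L L hL N] with m hm
  exact hN.le.trans (pow_le_pow_right₀ (by linarith) hm)

theorem Sm.vq {b : ℕ} {E : ℕ → ℕ} (h : Sm L hL (fun m => (b : ℚ) ^ E m)) :
    Sm L hL (fun m => vq b (E m)) := by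
  have hb : Sm L hL (fun _ => (b : ℚ)) := Sm.const _
  have h1 : Sm L hL (fun _ => (1 : ℚ)) := Sm.const _
  have hq := ((hb.mul h).sub h1)
  have h2 := (((hq.mul (h.sub h1)).add (hb.mul h)).mul (hq.mul hq).inv)
  have e : (fun m => Pool.Agent.Lib.MP_9dc83d_nt.vq b (E m)) = fun m =>
      (((b : ℚ) * (b : ℚ) ^ E m - 1) * ((b : ℚ) ^ E m - 1) + (b : ℚ) * (b : ℚ) ^ E m) *
        (((b : ℚ) * (b : ℚ) ^ E m - 1) * ((b : ℚ) * (b : ℚ) ^ E m - 1))⁻¹ := by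
    funext m
    unfold Pool.Agent.Lib.MP_9dc83d_nt.vq
    rw [pow_succ, div_eq_mul_inv]
    ring
  rw [e]
  exact h2

theorem Sm.wq {b : ℕ} {E h : ℕ → ℕ} (hE : Sm L hL (fun m => (b : ℚ) ^ E m))
    (hh : Sm L hL (fun m => (h m : ℚ))) : Sm L hL (fun m => wq b (E m) (h m)) := by
  have hb : Sm L hL (fun _ => (b : ℚ)) := Sm.const _
  have h1 : Sm L hL (fun _ => (1 : ℚ)) := Sm.const _
  have hq := ((hb.mul hE).sub h1)
  have h2 := ((hq.mul hh).add ((hq.mul (hE.sub h1)).add (hb.mul hE))).mul (hq.mul hq).inv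
  have e : (fun m => Pool.Agent.Lib.MP_9dc83d_nt.wq b (E m) (h m)) = fun m =>
      (((b : ℚ) * (b : ℚ) ^ E m - 1) * (h m : ℚ) +
        (((b : ℚ) * (b : ℚ) ^ E m - 1) * ((b : ℚ) ^ E m - 1) + (b : ℚ) * (b : ℚ) ^ E m)) *
        (((b : ℚ) * (b : ℚ) ^ E m - 1) * ((b : ℚ) * (b : ℚ) ^ E m - 1))⁻¹ := by
    funext m
    unfold Pool.Agent.Lib.MP_9dc83d_nt.wq
    rw [pow_succ, div_eq_mul_inv]
    ring
  rw [e]
  exact h2

theorem ht_nat (N : ℕ) : ht (N : ℚ) = max N 1 := by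
  simp [ht]

theorem Sm.of_le {b : ℕ} (hb : 2 ≤ b) {D : ℕ → ℕ} (hD : Tendsto D atTop atTop)
    {hL : Tendsto (fun m => (D m + 1) * b ^ D m) atTop atTop} {f : ℕ → ℚ} {B : ℝ} (hB : 0 ≤ B)
    (h : ∀ᶠ m in (hyperfilter ℕ : Filter ℕ), (ht (f m) : ℝ) ≤ B ^ (D m + 1)) :
    Sm (fun m => (D m + 1) * b ^ D m) hL f := by
  refine ⟨f, rfl, fun ε hε => ?_⟩
  obtain ⟨N, hN⟩ := pow_unbounded_of_one_lt B (by linarith : (1 : ℝ) < 1 + ε)
  have hDN : ∀ᶠ m in (hyperfilter ℕ : Filter ℕ), N ≤ D m :=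
    (hD.eventually_ge_atTop N).filter_mono Nat.hyperfilter_le_atTop
  filter_upwards [h, hDN] with m h1 h2
  refine h1.trans ?_
  have h3 : N ≤ b ^ D m := h2.trans (Nat.lt_pow_self (by omega)).le
  have h4 : B ≤ (1 + ε) ^ (b ^ D m) := hN.le.trans (pow_le_pow_right₀ (by linarith) h3)
  calc B ^ (D m + 1) ≤ ((1 + ε) ^ (b ^ D m)) ^ (D m + 1) := pow_le_pow_left₀ hB h4 _
    _ = (1 + ε) ^ ((D m + 1) * b ^ D m) := by rw [← pow_mul, mul_comm]

/-! ### the numbers of digits of the blocks -/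

theorem GG_zero (b D : ℕ) : GG b D 0 = 0 := by simp [GG]

theorem GG_succ (b D i : ℕ) :
    GG b D (i + 1) = GG b D i + (D - i) * ((b - 1) * b ^ (D - i - 1)) := by
  unfold GG
  rw [sum_range_succ]

theorem GG_le (b D i : ℕ) (hb : 2 ≤ b) : GG b D i ≤ i * b * ((D + 1) * b ^ D) := by
  induction i with
  | zero => simp [GG]
  | succ i ih =>
    rw [GG_succ]
    have h1 : (D - i) * ((b - 1) * b ^ (D - i - 1)) ≤ (D + 1) * (b * b ^ D) := by
      refine Nat.mul_le_mul (by omega) (Nat.mul_le_mul (by omega) ?_)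
      exact Nat.pow_le_pow_right (by omega) (by omega)
    calc GG b D i + (D - i) * ((b - 1) * b ^ (D - i - 1)) ≤
        i * b * ((D + 1) * b ^ D) + (D + 1) * (b * b ^ D) := by omega
      _ = (i + 1) * b * ((D + 1) * b ^ D) := by ring

theorem GG_step (b D i k : ℕ) (hb : 2 ≤ b) (hik : i < k) (hD : 2 * k + 1 ≤ D) :
    (GG b D i : ℝ) + (1 / 2 * ((b : ℝ)⁻¹) ^ (k + 1)) * (((D + 1) * b ^ D : ℕ) : ℝ) ≤
      (GG b D (i + 1) : ℝ) := by
  have hb1 : (1 : ℝ) ≤ b := by exact_mod_cast (by omega : 1 ≤ b)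
  have hb0 : (0 : ℝ) < b := by linarith
  rw [GG_succ]
  push_cast
  have h1 : (b : ℝ) ^ D * ((b : ℝ)⁻¹) ^ (k + 1) ≤ (b : ℝ) ^ (D - i - 1) := by
    have e : (b : ℝ) ^ D = (b : ℝ) ^ (D - i - 1) * (b : ℝ) ^ (i + 1) := by
      rw [← pow_add]
      congr 1
      omega
    rw [e, mul_assoc]
    have h2 : (b : ℝ) ^ (i + 1) * ((b : ℝ)⁻¹) ^ (k + 1) ≤ 1 := by
      rw [inv_pow, ← div_eq_mul_inv, div_le_one (by positivity)]
      exact pow_le_pow_right₀ hb1 (by omega)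
    calc _ ≤ (b : ℝ) ^ (D - i - 1) * 1 := mul_le_mul_of_nonneg_left h2 (by positivity)
      _ = _ := mul_one _
  have h2 : ((D : ℝ) + 1) / 2 ≤ ((D - i : ℕ) : ℝ) := by
    have h3 : D + 1 ≤ 2 * (D - i) := by omega
    have h4 : ((D : ℝ) + 1) ≤ 2 * ((D - i : ℕ) : ℝ) := by exact_mod_cast h3
    linarith
  have h3 : (1 : ℝ) ≤ ((b - 1 : ℕ) : ℝ) := by exact_mod_cast (by omega : 1 ≤ b - 1)
  have h5 : ((D : ℝ) + 1) / 2 * (1 * ((b : ℝ) ^ D * ((b : ℝ)⁻¹) ^ (k + 1))) ≤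
      ((D - i : ℕ) : ℝ) * (((b - 1 : ℕ) : ℝ) * (b : ℝ) ^ (D - i - 1)) := by
    refine mul_le_mul h2 (mul_le_mul h3 h1 (by positivity) (by positivity)) (by positivity)
      (by positivity)
  linarith

end Pool.Agent.Lib.MP_9dc83d_nt.Sb

end
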