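import Pool.Agent.Lib.MP_9dc83d_nt.Sub.Places
import Pool.Agent.Lib.MP_9dc83d_nt.Sub.OrthSystems
import Pool.Agent.Lib.MP_d0d59f_nt.Sub.Heights

/-!
The setting for germs of sequences of rational numbers, for the places infinity and `p 0, ..., p (s-1)`
(adapted from `Pool.Agent.Lib.MP_d0d59f_nt.Sub.Germs`).
-/

section

namespace Pool.Agent.Lib.MP_9dc83d_nt.Sb

open Filter Topology Pool.Agent.Lib.MP_d0d59f_nt.Auto Pool.Agent.Lib.MP_d0d59f_nt.Lin

attribute [local instance] sqAlg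

variable {s : ℕ} (p : Fin s → Nat.Primes) {L : ℕ → ℕ} {hL : Tendsto L atTop atTop}

/-- the limits of `|f m|_v ^ (1 / L m)` -/
noncomputable def wv (L : ℕ → ℕ) (hL : Tendsto L atTop atTop) (v : Fin (s + 1)) :
    AbsoluteValue (bigField L hL) ℝ :=
  (exists_absLim (hL := hL) (absv p v) (htBound_absv p v)).choose

theorem wv_nonarch (v : Fin (s + 1)) (a b : bigField L hL) :
    wv p L hL v (a + b) ≤ max (wv p L hL v a) (wv p L hL v b) :=
  (exists_absLim (hL := hL) (absv p v) (htBound_absv p v)).choose_spec.1 a b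

theorem wv_lim (v : Fin (s + 1)) : IsLimAbs (absv p v) (wv p L hL v) :=
  (exists_absLim (hL := hL) (absv p v) (htBound_absv p v)).choose_spec.2

/-- the germs of sequences in `ZS p` -/
def OS (L : ℕ → ℕ) (hL : Tendsto L atTop atTop) : Subring (bigField L hL) where
  carrier := {z | ∃ f : ℕ → ℚ, (∀ m, f m ∈ ZS p) ∧ (f : QU) = (z : QU)}
  mul_mem' := by
    rintro a b ⟨f, hf, hf'⟩ ⟨g, hg, hg'⟩
    refine ⟨f * g, fun m => (ZS p).mul_mem (hf m) (hg m), ?_⟩
    rw [Subfield.coe_mul, ← hf', ← hg', ← Germ.coe_mul]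
  one_mem' := ⟨fun _ => 1, fun m => (ZS p).one_mem, rfl⟩
  add_mem' := by
    rintro a b ⟨f, hf, hf'⟩ ⟨g, hg, hg'⟩
    refine ⟨f + g, fun m => (ZS p).add_mem (hf m) (hg m), ?_⟩
    rw [Subfield.coe_add, ← hf', ← hg', ← Germ.coe_add]
  zero_mem' := ⟨fun _ => 0, fun m => (ZS p).zero_mem, rfl⟩
  neg_mem' := by
    rintro a ⟨f, hf, hf'⟩
    refine ⟨-f, fun m => (ZS p).neg_mem (hf m), ?_⟩
    rw [Subfield.coe_neg, ← hf', ← Germ.coe_neg]

/-- a germ of powers of a fixed integer with exponents `O (L)` -/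
theorem zpow_mem_big (c : ℕ) (hc : 1 ≤ c) (a : ℕ → ℤ)
    (ha : ∃ C : ℝ, ∀ᶠ m in (hyperfilter ℕ : Filter ℕ), |(a m : ℝ)| ≤ C * L m) :
    (((fun m => (c : ℚ) ^ a m) : ℕ → ℚ) : QU) ∈ bigField L hL := by
  obtain ⟨C, hC⟩ := ha
  refine ⟨_, rfl, (c : ℝ) ^ C, ?_⟩
  filter_upwards [hC] with m hm
  have h1 := lga_ht_zpow c hc (a m)
  have h2 : (ht ((c : ℚ) ^ a m) : ℝ) ≤ (c : ℝ) ^ (a m).natAbs := by exact_mod_cast h1
  refine h2.trans ?_
  have hc1 : (1 : ℝ) ≤ c := by exact_mod_cast hc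
  have hc0 : (0 : ℝ) < c := by linarith
  rw [← Real.rpow_natCast, ← Real.rpow_natCast, ← Real.rpow_mul hc0.le, Nat.cast_natAbs, Int.cast_abs]
  exact Real.rpow_le_rpow_of_exponent_le hc1 hm

/-- the germ of `p i ^ ⌊c L⌋` -/
noncomputable def germP (L : ℕ → ℕ) (hL : Tendsto L atTop atTop) (i : Fin s) (c : ℝ) :
    bigField L hL :=
  ⟨(((fun m => ((p i : ℕ) : ℚ) ^ ⌊c * L m⌋) : ℕ → ℚ) : QU),
    zpow_mem_big (p i : ℕ) (p i).2.one_lt.le _ (monA_bound hL (tendsto_floor hL c))⟩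

theorem germP_ne (i : Fin s) (c : ℝ) : germP p L hL i c ≠ 0 := by
  intro h
  have h1 := sq_germ_zero (congrArg Subtype.val h)
  obtain ⟨m, hm⟩ := h1.exists
  exact zpow_ne_zero _ (by exact_mod_cast (p i).2.ne_zero) hm

theorem germP_mem (i : Fin s) (c : ℝ) : germP p L hL i c ∈ OS p L hL :=
  ⟨_, fun _ => zpow_mem_ZS p i _, rfl⟩

theorem germP_inv_mem (i : Fin s) (c : ℝ) : (germP p L hL i c)⁻¹ ∈ OS p L hL := by
  refine ⟨fun m => ((p i : ℕ) : ℚ) ^ (-⌊c * L m⌋), fun _ => zpow_mem_ZS p i _, ?_⟩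
  rw [Subfield.coe_inv]
  change _ = ((((fun m => ((p i : ℕ) : ℚ) ^ ⌊c * L m⌋) : ℕ → ℚ) : QU))⁻¹
  rw [← Germ.coe_inv]
  congr 1
  funext m
  rw [Pi.inv_apply, zpow_neg]

/-- limits of powers -/
theorem tendsto_zpow_rpow (hL : Tendsto L atTop atTop) (b : ℝ) (hb : 0 < b) (c : ℝ) :
    Tendsto (fun m => (b ^ ⌊c * L m⌋) ^ ((1 : ℝ) / L m)) (hyperfilter ℕ)
      (𝓝 (Real.exp (c * Real.log b))) := by
  have h1 : Tendsto (fun m => Real.exp (((⌊c * L m⌋ : ℤ) : ℝ) / L m * Real.log b)) (hyperfilter ℕ)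
      (𝓝 (Real.exp (c * Real.log b))) :=
    (Real.continuous_exp.tendsto _).comp ((tendsto_floor hL c).mul_const _)
  refine h1.congr fun m => ?_
  rw [← Real.rpow_intCast, ← Real.rpow_mul hb.le, Real.rpow_def_of_pos hb]
  congr 1
  ring

theorem wv_germP_zero (i : Fin s) (c : ℝ) :
    wv p L hL 0 (germP p L hL i c) = Real.exp (c * Real.log ((p i : ℕ) : ℝ)) := by
  have hp0 : (0 : ℝ) < ((p i : ℕ) : ℝ) := by exact_mod_cast (p i).2.pos
  refine sq_val_eq (wv_lim p 0) (f := fun m => ((p i : ℕ) : ℚ) ^ ⌊c * L m⌋) rfl ?_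
  refine (tendsto_zpow_rpow hL _ hp0 c).congr fun m => ?_
  rw [absv_zero_eq]
  congr 1
  push_cast
  rw [abs_of_pos (by positivity)]

theorem wv_germP_self (i : Fin s) (c : ℝ) :
    wv p L hL i.succ (germP p L hL i c) = Real.exp (-(c * Real.log ((p i : ℕ) : ℝ))) := by
  have hp0 : (0 : ℝ) < ((p i : ℕ) : ℝ) := by exact_mod_cast (p i).2.pos
  refine sq_val_eq (wv_lim p i.succ) (f := fun m => ((p i : ℕ) : ℚ) ^ ⌊c * L m⌋) rfl ?_
  have h1 := tendsto_zpow_rpow hL (((p i : ℕ) : ℝ)⁻¹) (inv_pos.2 hp0) c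
  rw [Real.log_inv, mul_neg] at h1
  refine h1.congr fun m => ?_
  rw [absv_self_zpow, inv_zpow, zpow_neg]

theorem wv_germP_other (hp : Function.Injective p) {i j : Fin s} (hij : j ≠ i) (c : ℝ) :
    wv p L hL j.succ (germP p L hL i c) = 1 := by
  refine sq_val_eq (wv_lim p j.succ) (f := fun m => ((p i : ℕ) : ℚ) ^ ⌊c * L m⌋) rfl ?_
  refine (tendsto_const_nhds (x := (1 : ℝ))).congr fun m => ?_
  rw [absv_other_zpow p hp hij, Real.one_rpow]

theorem setting_sqO_mem {z : bigField L hL} (hz : z ∈ sqO L hL) : z ∈ OS p L hL := by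
  obtain ⟨f, hf⟩ := hz
  exact ⟨fun m => (f m : ℚ), fun m => int_mem_ZS p _, hf⟩

/-- the setting -/
theorem setting_germ (hp : Function.Injective p) :
    Setting (smallField L hL) (OS p L hL) (wv p L hL) where
  nonarch := wv_nonarch p
  const := fun v c hc => sq_const (htBound_absv p v) (wv_lim p v) c hc
  prod := by
    intro z hz hz0
    obtain ⟨f, hf, hfz⟩ := hz
    have h1 : Tendsto (fun m => ∏ v, (absv p v (f m)) ^ ((1 : ℝ) / L m)) (hyperfilter ℕ)
        (𝓝 (∏ v, wv p L hL v z)) := tendsto_finsetProd _ fun v _ => wv_lim p v f z hfz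
    refine ge_of_tendsto h1 ?_
    have hne : ∀ᶠ m in (hyperfilter ℕ : Filter ℕ), f m ≠ 0 := by
      apply sq_germ_ne_zero
      rw [hfz]
      exact fun h => hz0 (Subtype.ext h)
    filter_upwards [hne] with m hm
    rw [Real.finsetProd_rpow _ _ fun v _ => AbsoluteValue.nonneg _ _]
    exact Real.one_le_rpow (prod_absv p hp (f m) (hf m) hm) (by positivity)
  unit := by
    intro t ht
    have hl : ∀ i : Fin s, Real.log ((p i : ℕ) : ℝ) ≠ 0 := fun i =>
      (Real.log_pos (by exact_mod_cast (p i).2.one_lt)).ne'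
    refine ⟨∏ i : Fin s, germP p L hL i (-(t i.succ) / Real.log ((p i : ℕ) : ℝ)),
      Subring.prod_mem _ fun i _ => germP_mem p i _,
      Finset.prod_ne_zero_iff.2 fun i _ => germP_ne p i _, ?_, ?_⟩
    · rw [← Finset.prod_inv_distrib]
      exact Subring.prod_mem _ fun i _ => germP_inv_mem p i _
    · intro v
      rw [map_prod]
      refine Fin.cases ?_ (fun j => ?_) v
      · have h1 : ∀ i : Fin s, wv p L hL 0 (germP p L hL i (-(t i.succ) / Real.log ((p i : ℕ) : ℝ))) =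
            Real.exp (-(t i.succ)) := by
          intro i
          rw [wv_germP_zero, div_mul_cancel₀ _ (hl i)]
        rw [Finset.prod_congr rfl fun i _ => h1 i, ← Real.exp_sum, Finset.sum_neg_distrib]
        rw [Fin.sum_univ_succ] at ht
        congr 1
        linarith
      · rw [Finset.prod_eq_single j]
        · rw [wv_germP_self, div_mul_cancel₀ _ (hl j), neg_neg]
        · intro i _ hi
          exact wv_germP_other p hp hi.symm _
        · intro h
          exact absurd (Finset.mem_univ j) h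
  frac := by
    intro z
    obtain ⟨D, hD, h0, hDz⟩ := sq_frac z
    exact ⟨D, setting_sqO_mem p hD, h0, setting_sqO_mem p hDz⟩

end Pool.Agent.Lib.MP_9dc83d_nt.Sb

end

section

namespace Pool.Agent.Lib.MP_9dc83d_nt.Sb

open Filter Topology Pool.Agent.Lib.MP_d0d59f_nt.Auto Pool.Agent.Lib.MP_d0d59f_nt.Lin

attribute [local instance] sqAlg

variable {s : ℕ} (p : Fin s → Nat.Primes) {L : ℕ → ℕ} {hL : Tendsto L atTop atTop}

/-- `f` represents the germ `z` -/
def Rep (f : ℕ → ℚ) (z : bigField L hL) : Prop := (f : QU) = (z : QU)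

theorem exists_rep (z : bigField L hL) : ∃ f : ℕ → ℚ, Rep f z := by
  obtain ⟨f, hf, -⟩ := z.2
  exact ⟨f, hf⟩

/-- a representative of a constant has height `exp (o (L))` -/
theorem exists_rep_small (c : smallField L hL) : ∃ f : ℕ → ℚ,
    Rep f (algebraMap (smallField L hL) (bigField L hL) c) ∧
      ∀ ε : ℝ, 0 < ε → ∀ᶠ m in (hyperfilter ℕ : Filter ℕ), (ht (f m) : ℝ) ≤ (1 + ε) ^ L m := by
  obtain ⟨f, hf, hε⟩ := c.2
  exact ⟨f, hf, hε⟩

theorem exists_rep_OS (z : bigField L hL) (hz : z ∈ OS p L hL) : ∃ f : ℕ → ℚ, (∀ m, f m ∈ ZS p) ∧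
    Rep f z := by
  obtain ⟨f, hf, hf'⟩ := hz
  exact ⟨f, hf, hf'⟩

theorem Rep.add {f g : ℕ → ℚ} {y z : bigField L hL} (h : Rep f y) (h' : Rep g z) :
    Rep (fun m => f m + g m) (y + z) := by
  unfold Rep at *
  rw [Subfield.coe_add, ← h, ← h', ← Germ.coe_add]
  rfl

theorem Rep.mul {f g : ℕ → ℚ} {y z : bigField L hL} (h : Rep f y) (h' : Rep g z) :
    Rep (fun m => f m * g m) (y * z) := by
  unfold Rep at *
  rw [Subfield.coe_mul, ← h, ← h', ← Germ.coe_mul]
  rfl

theorem germToolsA_zero : Rep (fun _ => 0) (0 : bigField L hL) := rfl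

theorem germToolsA_one : Rep (fun _ => 1) (1 : bigField L hL) := rfl

theorem germToolsA_neg {f : ℕ → ℚ} {y : bigField L hL} (h : Rep f y) :
    Rep (fun m => -f m) (-y) := by
  unfold Rep at *
  rw [Subfield.coe_neg, ← h, ← Germ.coe_neg]
  rfl

theorem Rep.sum {ι : Type} (s : Finset ι) {f : ι → ℕ → ℚ} {z : ι → bigField L hL}
    (h : ∀ i ∈ s, Rep (f i) (z i)) : Rep (fun m => ∑ i ∈ s, f i m) (∑ i ∈ s, z i) := by
  classical
  induction s using Finset.induction_on with
  | empty => simpa using germToolsA_zero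
  | insert a s ha ih =>
    have h1 := Rep.add (h a (Finset.mem_insert_self a s))
      (ih fun i hi => h i (Finset.mem_insert_of_mem hi))
    rw [Finset.sum_insert ha]
    simp only [Finset.sum_insert ha]
    exact h1

theorem germToolsA_prod {ι : Type} (s : Finset ι) {f : ι → ℕ → ℚ} {z : ι → bigField L hL}
    (h : ∀ i ∈ s, Rep (f i) (z i)) : Rep (fun m => ∏ i ∈ s, f i m) (∏ i ∈ s, z i) := by
  classical
  induction s using Finset.induction_on with
  | empty => simpa using germToolsA_one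
  | insert a s ha ih =>
    have h1 := Rep.mul (h a (Finset.mem_insert_self a s))
      (ih fun i hi => h i (Finset.mem_insert_of_mem hi))
    rw [Finset.prod_insert ha]
    simp only [Finset.prod_insert ha]
    exact h1

/-- `Matrix.det_apply`, `Rep.sum`, products by induction -/
theorem Rep.det {ι : Type} [Fintype ι] [DecidableEq ι] {f : ℕ → Matrix ι ι ℚ}
    {B : Matrix ι ι (bigField L hL)} (h : ∀ i j, Rep (fun m => f m i j) (B i j)) :
    Rep (fun m => (f m).det) B.det := by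
  simp only [Matrix.det_apply]
  refine Rep.sum _ fun σ _ => ?_
  have h1 := germToolsA_prod Finset.univ (fun i _ => h (σ i) i)
  rcases Int.units_eq_one_or (Equiv.Perm.sign σ) with hs | hs
  · simp only [hs, one_smul]
    exact h1
  · simp only [hs, Units.neg_smul, one_smul]
    exact germToolsA_neg h1

end Pool.Agent.Lib.MP_9dc83d_nt.Sb

end

section

namespace Pool.Agent.Lib.MP_9dc83d_nt.Sb

open Filter Topology Pool.Agent.Lib.MP_d0d59f_nt.Auto Pool.Agent.Lib.MP_d0d59f_nt.Lin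

attribute [local instance] sqAlg

variable {s : ℕ} (p : Fin s → Nat.Primes) {L : ℕ → ℕ} {hL : Tendsto L atTop atTop}

/-- two representatives of the same element agree eventually; in particular
`f m = 0` eventually iff `z = 0`, `f m ≠ 0` eventually iff `z ≠ 0` -/
theorem Rep.eventually_eq {f g : ℕ → ℚ} {z : bigField L hL} (h : Rep f z) (h' : Rep g z) :
    ∀ᶠ m in (hyperfilter ℕ : Filter ℕ), f m = g m := by
  have h1 : (f : QU) = (g : QU) := Eq.trans h (Eq.symm h')
  exact Germ.coe_eq.1 h1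

theorem Rep.eventually_ne {f : ℕ → ℚ} {z : bigField L hL} (h : Rep f z) (hz : z ≠ 0) :
    ∀ᶠ m in (hyperfilter ℕ : Filter ℕ), f m ≠ 0 := by
  apply sq_germ_ne_zero
  intro h0
  apply hz
  apply Subtype.ext
  exact Eq.trans (Eq.symm h) h0

theorem Rep.eventually_zero {f : ℕ → ℚ} (h : Rep f (0 : bigField L hL)) :
    ∀ᶠ m in (hyperfilter ℕ : Filter ℕ), f m = 0 := by
  apply sq_germ_zero
  exact Eq.trans h rfl

/-- If `z` is not in the image of `smallField` then the heights are at least `(1 + η) ^ L` for some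
`η > 0` (ultrafilter). -/
theorem Rep.ht_ge {f : ℕ → ℚ} {z : bigField L hL} (h : Rep f z)
    (hz : ∀ c : smallField L hL, algebraMap (smallField L hL) (bigField L hL) c ≠ z) :
    ∃ η : ℝ, 0 < η ∧ ∀ᶠ m in (hyperfilter ℕ : Filter ℕ), (1 + η) ^ L m ≤ (ht (f m) : ℝ) := by
  by_contra hcon
  push Not at hcon
  have hmem : (f : QU) ∈ smallField L hL := by
    refine ⟨f, rfl, fun ε hε => ?_⟩
    filter_upwards [hcon ε hε] with m hm
    exact hm.le
  apply hz ⟨(f : QU), hmem⟩
  apply Subtype.ext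
  exact h

/-- If `|f m|_v ≤ exp (r m * L m)` eventually and `r → s` along the ultrafilter then
`wv v z ≤ exp s`. -/
theorem Rep.wv_le {f : ℕ → ℚ} {z : bigField L hL} (h : Rep f z) (v : Fin (s + 1)) {r : ℕ → ℝ} {s : ℝ}
    (hr : Tendsto r (hyperfilter ℕ) (𝓝 s))
    (hle : ∀ᶠ m in (hyperfilter ℕ : Filter ℕ), absv p v (f m) ≤ Real.exp (r m * L m)) :
    wv p L hL v z ≤ Real.exp s := by
  have h1 := wv_lim p (hL := hL) v f z h
  have h2 : Tendsto (fun m => Real.exp (r m)) (hyperfilter ℕ) (𝓝 (Real.exp s)) :=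
    (Real.continuous_exp.tendsto s).comp hr
  refine le_of_tendsto_of_tendsto h1 h2 ?_
  filter_upwards [hle, sq_L_pos hL] with m hm hLm
  have hLm' : (L m : ℝ) ≠ 0 := by exact_mod_cast hLm.ne'
  calc absv p v (f m) ^ ((1 : ℝ) / L m) ≤ (Real.exp (r m * L m)) ^ ((1 : ℝ) / L m) :=
        Real.rpow_le_rpow ((absv p v).nonneg _) hm (by positivity)
    _ = Real.exp (r m) := by
        rw [← Real.exp_mul]
        congr 1
        field_simp

/-- If `wv v z ≤ exp s` then `|f m|_v ≤ exp ((s + ε) * L m)` eventually, for every `ε > 0`. -/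
theorem Rep.absv_le {f : ℕ → ℚ} {z : bigField L hL} (h : Rep f z) (v : Fin (s + 1)) {s : ℝ}
    (hz : wv p L hL v z ≤ Real.exp s) {ε : ℝ} (hε : 0 < ε) :
    ∀ᶠ m in (hyperfilter ℕ : Filter ℕ), absv p v (f m) ≤ Real.exp ((s + ε) * L m) := by
  have h1 := wv_lim p (hL := hL) v f z h
  have h2 : wv p L hL v z < Real.exp (s + ε) :=
    lt_of_le_of_lt hz (Real.exp_lt_exp.2 (by linarith))
  filter_upwards [h1.eventually_lt_const h2, sq_L_pos hL] with m hm hLm
  have h3 : (absv p v (f m) ^ ((1 : ℝ) / L m)) ^ L m = absv p v (f m) := by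
    rw [one_div]
    exact Real.rpow_inv_natCast_pow ((absv p v).nonneg _) hLm.ne'
  have h4 : (absv p v (f m) ^ ((1 : ℝ) / L m)) ^ L m ≤ (Real.exp (s + ε)) ^ L m :=
    pow_le_pow_left₀ (Real.rpow_nonneg ((absv p v).nonneg _) _) hm.le _
  rw [h3, ← Real.exp_nat_mul] at h4
  rw [mul_comm]
  exact h4

/-- the germ of a sequence in `ZS p` whose absolute values are at most `exp (C L)` -/
theorem exists_germ_ZS (hp : Function.Injective p) {f : ℕ → ℚ} (hf : ∀ m, f m ∈ ZS p) {C : ℝ}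
    (hC : ∀ᶠ m in (hyperfilter ℕ : Filter ℕ), ∀ v, absv p v (f m) ≤ Real.exp (C * L m)) :
    ∃ z : bigField L hL, z ∈ OS p L hL ∧ Rep f z := by
  have hmem : (f : QU) ∈ bigField L hL := by
    refine ⟨f, rfl, Real.exp |C| ^ (s + 1), ?_⟩
    filter_upwards [hC] with m hm
    have h1 : ∀ v, max 1 (absv p v (f m)) ≤ Real.exp |C| ^ L m := by
      intro v
      rw [← Real.exp_nat_mul]
      refine max_le (Real.one_le_exp (by positivity)) ((hm v).trans ?_)
      apply Real.exp_le_exp.2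
      rw [mul_comm]
      exact mul_le_mul_of_nonneg_left (le_abs_self C) (Nat.cast_nonneg _)
    have h0 : ∀ v, 0 ≤ max 1 (absv p v (f m)) := fun v => le_trans zero_le_one (le_max_left _ _)
    calc (ht (f m) : ℝ) ≤ ∏ v, max 1 (absv p v (f m)) := ht_le_of_ZS p hp (f m) (hf m)
      _ ≤ ∏ _v : Fin (s + 1), Real.exp |C| ^ L m :=
          Finset.prod_le_prod (fun v _ => h0 v) fun v _ => h1 v
      _ = (Real.exp |C| ^ (s + 1)) ^ L m := by
          rw [Finset.prod_const, Finset.card_univ, Fintype.card_fin, ← pow_mul, ← pow_mul, mul_comm]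
  exact ⟨⟨(f : QU), hmem⟩, ⟨f, hf, rfl⟩, rfl⟩

/-- a bounded real sequence has a limit along the ultrafilter -/
theorem exists_lim_of_bdd {r : ℕ → ℝ} {C : ℝ}
    (h : ∀ᶠ m in (hyperfilter ℕ : Filter ℕ), |r m| ≤ C) :
    ∃ s : ℝ, Tendsto r (hyperfilter ℕ) (𝓝 s) := by
  have hmem : Set.Icc (-C) C ∈ Ultrafilter.map r (hyperfilter ℕ) := by
    rw [Ultrafilter.mem_map]
    filter_upwards [h] with m hm
    exact abs_le.1 hm
  obtain ⟨x, hx, hlim⟩ := isCompact_Icc.ultrafilter_le_nhds' _ hmem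
  exact ⟨x, hlim⟩

end Pool.Agent.Lib.MP_9dc83d_nt.Sb

end

section

namespace Pool.Agent.Lib.MP_9dc83d_nt.Sb

open Filter Topology Pool.Agent.Lib.MP_d0d59f_nt.Auto Pool.Agent.Lib.MP_d0d59f_nt.Lin

attribute [local instance] sqAlg

variable {s : ℕ} (p : Fin s → Nat.Primes) {L : ℕ → ℕ} {hL : Tendsto L atTop atTop}

/-- Take representatives `f` of the entries of `A` and `g` of the entries of `A⁻¹`
(`exists_rep_small`, `choose`). The entries of the product of the matrices `f m * g m` represent those of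
`A * A⁻¹ = 1`, so `f m * g m = 1` for almost all `m` (`Rep.sum`, `Rep.mul`, `Rep.eventually_eq`), and then
`(f m)⁻¹ = g m` (`Matrix.inv_eq_right_inv`) and `det (f m) ≠ 0`. -/
theorem exists_rep_matrix {ι : Type} [Fintype ι] [DecidableEq ι]
    (A : Matrix ι ι (smallField L hL)) (hA : A.det ≠ 0) : ∃ f : ℕ → Matrix ι ι ℚ,
      (∀ i j, Rep (fun m => f m i j) (algebraMap (smallField L hL) (bigField L hL) (A i j))) ∧
      (∀ i j, Rep (fun m => (f m)⁻¹ i j) (algebraMap (smallField L hL) (bigField L hL) (A⁻¹ i j))) ∧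
      (∀ᶠ m in (hyperfilter ℕ : Filter ℕ), (f m).det ≠ 0) ∧
      ∀ ε : ℝ, 0 < ε → ∀ᶠ m in (hyperfilter ℕ : Filter ℕ), ∀ i j,
        (ht (f m i j) : ℝ) ≤ (1 + ε) ^ L m ∧ (ht ((f m)⁻¹ i j) : ℝ) ≤ (1 + ε) ^ L m := by
  classical
  choose f hf hfε using fun i j => exists_rep_small (A i j)
  choose g hg hgε using fun i j => exists_rep_small (A⁻¹ i j)
  have hA' : IsUnit A.det := isUnit_iff_ne_zero.2 hA
  have hone : Rep (fun _ => (1 : ℚ)) (1 : bigField L hL) := rfl
  have hzero : Rep (fun _ => (0 : ℚ)) (0 : bigField L hL) := rfl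
  have hprod : ∀ i j, ∀ᶠ m in (hyperfilter ℕ : Filter ℕ),
      (Matrix.of (fun i j => f i j m) * Matrix.of (fun i j => g i j m)) i j =
        (1 : Matrix ι ι ℚ) i j := by
    intro i j
    have h1 : Rep (fun m => ∑ k, f i k m * g k j m)
        (∑ k, algebraMap (smallField L hL) (bigField L hL) (A i k) *
          algebraMap (smallField L hL) (bigField L hL) (A⁻¹ k j)) :=
      Rep.sum Finset.univ (fun k _ => (hf i k).mul (hg k j))
    have h2 : (∑ k, algebraMap (smallField L hL) (bigField L hL) (A i k) *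
          algebraMap (smallField L hL) (bigField L hL) (A⁻¹ k j)) =
        algebraMap (smallField L hL) (bigField L hL) ((1 : Matrix ι ι (smallField L hL)) i j) := by
      rw [← Matrix.mul_nonsing_inv A hA', Matrix.mul_apply, map_sum]
      exact Finset.sum_congr rfl (fun k _ => (map_mul _ _ _).symm)
    rw [h2] at h1
    have h3 : Rep (fun _ => (1 : Matrix ι ι ℚ) i j)
        (algebraMap (smallField L hL) (bigField L hL)
          ((1 : Matrix ι ι (smallField L hL)) i j)) := by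
      by_cases hij : i = j
      · subst hij
        rw [Matrix.one_apply_eq, Matrix.one_apply_eq, map_one]
        exact hone
      · rw [Matrix.one_apply_ne hij, Matrix.one_apply_ne hij, map_zero]
        exact hzero
    filter_upwards [h1.eventually_eq h3] with m hm
    rw [Matrix.mul_apply]
    exact hm
  have hprod' : ∀ᶠ m in (hyperfilter ℕ : Filter ℕ),
      Matrix.of (fun i j => f i j m) * Matrix.of (fun i j => g i j m) = (1 : Matrix ι ι ℚ) := by
    have h4 : ∀ᶠ m in (hyperfilter ℕ : Filter ℕ), ∀ i j,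
        (Matrix.of (fun i j => f i j m) * Matrix.of (fun i j => g i j m)) i j =
          (1 : Matrix ι ι ℚ) i j :=
      Filter.eventually_all.2 (fun i => Filter.eventually_all.2 (fun j => hprod i j))
    filter_upwards [h4] with m hm
    ext i j
    exact hm i j
  have hinv : ∀ᶠ m in (hyperfilter ℕ : Filter ℕ),
      (Matrix.of (fun i j => f i j m))⁻¹ = (Matrix.of (fun i j => g i j m) : Matrix ι ι ℚ) := by
    filter_upwards [hprod'] with m hm
    exact Matrix.inv_eq_right_inv hm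
  refine ⟨fun m => Matrix.of (fun i j => f i j m), fun i j => hf i j, ?_, ?_, ?_⟩
  · intro i j
    have h5 : (fun m => (Matrix.of (fun i j => f i j m) : Matrix ι ι ℚ)⁻¹ i j)
        =ᶠ[(hyperfilter ℕ : Filter ℕ)] g i j := by
      filter_upwards [hinv] with m hm
      rw [hm]
      rfl
    have h6 := Filter.Germ.coe_eq.2 h5
    exact h6.trans (hg i j)
  · filter_upwards [hprod'] with m hm hdet
    have h7 := congrArg Matrix.det hm
    rw [Matrix.det_mul, hdet, zero_mul, Matrix.det_one] at h7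
    exact zero_ne_one h7
  · intro ε hε
    have h8 : ∀ᶠ m in (hyperfilter ℕ : Filter ℕ), ∀ i j, (ht (f i j m) : ℝ) ≤ (1 + ε) ^ L m :=
      Filter.eventually_all.2 (fun i => Filter.eventually_all.2 (fun j => hfε i j ε hε))
    have h9 : ∀ᶠ m in (hyperfilter ℕ : Filter ℕ), ∀ i j, (ht (g i j m) : ℝ) ≤ (1 + ε) ^ L m :=
      Filter.eventually_all.2 (fun i => Filter.eventually_all.2 (fun j => hgε i j ε hε))
    filter_upwards [h8, h9, hinv] with m hm1 hm2 hm3 i j
    refine ⟨hm1 i j, ?_⟩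
    rw [hm3]
    exact hm2 i j

end Pool.Agent.Lib.MP_9dc83d_nt.Sb

end
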