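import Pool.Agent.Lib.MP_d0d59f_nt.Sub.AuxPoly
import Pool.Agent.Lib.MP_9dc83d_nt.Sub.Germs

/-!
The auxiliary polynomial for an arbitrary number of places.
-/

section

namespace Pool.Agent.Lib.MP_9dc83d_nt.Sb

open Pool.Agent.Lib.MP_d0d59f_nt.Sb

private theorem Count_sym {ι : Type} [Fintype ι] [DecidableEq ι] (m : ℕ) (i i' : ι) :
    ∑ g ∈ Finset.piAntidiag (Finset.univ : Finset ι) m, (g i : ℝ) =
      ∑ g ∈ Finset.piAntidiag (Finset.univ : Finset ι) m, (g i' : ℝ) := by
  refine Finset.sum_bij' (fun g _ => fun x => g (Equiv.swap i i' x))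
    (fun g _ => fun x => g (Equiv.swap i i' x)) ?_ ?_ ?_ ?_ ?_
  · intro g hg
    rw [Finset.mem_piAntidiag] at hg ⊢
    refine ⟨?_, fun _ _ => Finset.mem_univ _⟩
    rw [← hg.1]
    exact Equiv.sum_comp (Equiv.swap i i') g
  · intro g hg
    rw [Finset.mem_piAntidiag] at hg ⊢
    refine ⟨?_, fun _ _ => Finset.mem_univ _⟩
    rw [← hg.1]
    exact Equiv.sum_comp (Equiv.swap i i') g
  · intro g _
    funext x
    simp
  · intro g _
    funext x
    simp
  · intro g _
    simp

private theorem Count_mean {ι : Type} [Fintype ι] [DecidableEq ι] [Nonempty ι] (m : ℕ) (hm : 0 < m)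
    (i : ι) :
    ∑ g ∈ Finset.piAntidiag (Finset.univ : Finset ι) m,
      ((g i : ℝ) / m - 1 / (Fintype.card ι : ℝ)) = 0 := by
  have hn : (0 : ℝ) < Fintype.card ι := by exact_mod_cast Fintype.card_pos
  have hm' : (0 : ℝ) < m := by exact_mod_cast hm
  have h1 : (Fintype.card ι : ℝ) * ∑ g ∈ Finset.piAntidiag (Finset.univ : Finset ι) m, (g i : ℝ) =
      (m : ℝ) * (Finset.piAntidiag (Finset.univ : Finset ι) m).card := by
    have h2 : ∑ i' : ι, ∑ g ∈ Finset.piAntidiag (Finset.univ : Finset ι) m, (g i' : ℝ) =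
        (Fintype.card ι : ℝ) * ∑ g ∈ Finset.piAntidiag (Finset.univ : Finset ι) m, (g i : ℝ) := by
      rw [Finset.sum_congr rfl (fun i' _ => Count_sym m i' i), Finset.sum_const, Finset.card_univ,
        nsmul_eq_mul]
    rw [← h2, Finset.sum_comm]
    have h3 : ∀ g ∈ Finset.piAntidiag (Finset.univ : Finset ι) m, ∑ i' : ι, (g i' : ℝ) = m := by
      intro g hg
      rw [Finset.mem_piAntidiag] at hg
      rw [← hg.1]
      push_cast
      rfl
    rw [Finset.sum_congr rfl h3, Finset.sum_const, nsmul_eq_mul]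
    ring
  rw [Finset.sum_sub_distrib, Finset.sum_const, nsmul_eq_mul, ← Finset.sum_div]
  field_simp
  linarith

private theorem Count_abs {ι : Type} [Fintype ι] [DecidableEq ι] [Nonempty ι] (m : ℕ) (hm : 0 < m)
    (i : ι) (g : ι → ℕ) (hg : g ∈ Finset.piAntidiag (Finset.univ : Finset ι) m) :
    ((g i : ℝ) / m - 1 / (Fintype.card ι : ℝ)) ^ 2 ≤ 1 := by
  have hn : (1 : ℝ) ≤ Fintype.card ι := by exact_mod_cast Fintype.card_pos
  have hm' : (0 : ℝ) < m := by exact_mod_cast hm
  have h1 : g i ≤ m := by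
    rw [Finset.mem_piAntidiag] at hg
    rw [← hg.1]
    exact Finset.single_le_sum (fun _ _ => Nat.zero_le _) (Finset.mem_univ i)
  have h1' : (g i : ℝ) ≤ m := by exact_mod_cast h1
  have h2 : (g i : ℝ) / m ≤ 1 := by rw [div_le_one hm']; exact h1'
  have h3 : 0 ≤ (g i : ℝ) / m := by positivity
  have h4 : 1 / (Fintype.card ι : ℝ) ≤ 1 := by
    rw [div_le_one (by linarith)]; exact hn
  have h5 : 0 ≤ 1 / (Fintype.card ι : ℝ) := by positivity
  rw [sq_le_one_iff_abs_le_one, abs_le]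
  constructor <;> linarith

private theorem Count_cross {M : ℕ} {ι : Type} [Fintype ι] [DecidableEq ι]
    (A : Fin M → Finset (ι → ℕ)) (X : Fin M → (ι → ℕ) → ℝ)
    (hX : ∀ j, ∑ g ∈ A j, X j g = 0) {j j' : Fin M} (hj : j ≠ j') :
    ∑ e ∈ Fintype.piFinset A, X j (e j) * X j' (e j') = 0 := by
  have h1 : ∀ e : Fin M → ι → ℕ, X j (e j) * X j' (e j') =
      ∏ k, ((if k = j then X j (e k) else 1) * (if k = j' then X j' (e k) else 1)) := by
    intro e
    rw [Finset.prod_mul_distrib, Finset.prod_ite_eq' Finset.univ j, Finset.prod_ite_eq' Finset.univ j']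
    simp
  rw [Finset.sum_congr rfl (fun e _ => h1 e)]
  rw [← Finset.prod_univ_sum A
    (fun k g => (if k = j then X j g else 1) * (if k = j' then X j' g else 1))]
  refine Finset.prod_eq_zero (Finset.mem_univ j) ?_
  rw [← hX j]
  refine Finset.sum_congr rfl (fun g _ => ?_)
  rw [if_pos rfl, if_neg hj, mul_one]

private theorem Count_second {M : ℕ} {ι : Type} [Fintype ι] [DecidableEq ι]
    (A : Fin M → Finset (ι → ℕ)) (X : Fin M → (ι → ℕ) → ℝ)
    (hX : ∀ j, ∑ g ∈ A j, X j g = 0) (hX1 : ∀ j, ∀ g ∈ A j, X j g ^ 2 ≤ 1) :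
    ∑ e ∈ Fintype.piFinset A, (∑ j, X j (e j)) ^ 2 ≤ M * (Fintype.piFinset A).card := by
  have h1 : ∑ e ∈ Fintype.piFinset A, (∑ j, X j (e j)) ^ 2 =
      ∑ j, ∑ j', ∑ e ∈ Fintype.piFinset A, X j (e j) * X j' (e j') := by
    rw [Finset.sum_congr rfl (fun j _ => Finset.sum_comm), Finset.sum_comm]
    refine Finset.sum_congr rfl (fun e _ => ?_)
    rw [sq, Finset.sum_mul_sum]
  have h2 : ∀ j, ∑ j', ∑ e ∈ Fintype.piFinset A, X j (e j) * X j' (e j') ≤
      (Fintype.piFinset A).card := by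
    intro j
    rw [Finset.sum_eq_single j (fun j' _ hj => Count_cross A X hX (Ne.symm hj))
      (fun h => absurd (Finset.mem_univ j) h)]
    have : ∀ e ∈ Fintype.piFinset A, X j (e j) * X j (e j) ≤ 1 := by
      intro e he
      rw [← sq]
      exact hX1 j _ (Fintype.mem_piFinset.1 he j)
    calc ∑ e ∈ Fintype.piFinset A, X j (e j) * X j (e j) ≤ ∑ e ∈ Fintype.piFinset A, (1 : ℝ) :=
          Finset.sum_le_sum this
      _ = (Fintype.piFinset A).card := by rw [Finset.sum_const, nsmul_eq_mul, mul_one]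
  rw [h1]
  calc _ ≤ ∑ j : Fin M, ((Fintype.piFinset A).card : ℝ) := Finset.sum_le_sum (fun j _ => h2 j)
    _ = _ := by rw [Finset.sum_const, Finset.card_univ, Fintype.card_fin, nsmul_eq_mul]

/-- Let `n = card ι`, `N = card (expSet d)`, and for `i` fixed `X j e = e j i / d j - 1 / n`, `|X j e| ≤ 1`.
The sum of `X j e` over all `e` is zero: by symmetry the sums of `e j i` for the different `i` are
equal (permutation of the coordinates `i` for all `j`), and their sum is `d j * N`. For `j ≠ j'` the sum of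
`X j e * X j' e` over `e` is zero (`Fintype.piFinset` is a product;
`Finset.prod_univ_sum`, or: for a fixed value of all `e j''`, `j'' ≠ j`, the sum over `e j` is zero). So
`∑ e, (∑ j, X j e) ^ 2 = ∑ j, ∑ e, (X j e) ^ 2 ≤ M N`, and the number of the `e` with
`|∑ j, X j e| ≥ ε M` is at most `M N / (ε M) ^ 2 = N / (ε ^ 2 M)`. Sum over `i`:
`n N / (ε ^ 2 M) ≤ N / c` for `M ≥ c n / ε ^ 2`. -/
theorem card_bad_le' (c : ℕ) (ι : Type) [Fintype ι] [DecidableEq ι] [Nonempty ι] {ε : ℝ} (hε : 0 < ε) :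
    ∃ M₀ : ℕ, ∀ M ≥ M₀, ∀ d : Fin M → ℕ, (∀ j, 0 < d j) → ∀ s : Finset (Fin M → ι → ℕ),
      s ⊆ expSet d → (∀ e ∈ s, Bad ε d e) → c * s.card ≤ (expSet (ι := ι) d).card := by
  have hn : (0 : ℝ) < Fintype.card ι := by exact_mod_cast Fintype.card_pos
  refine ⟨max 1 ⌈(c : ℝ) * (Fintype.card ι : ℝ) / ε ^ 2⌉₊, ?_⟩
  intro M hM d hd s hs hbad
  have hM1 : 1 ≤ M := (le_max_left _ _).trans hM
  have hM2 : (c : ℝ) * (Fintype.card ι : ℝ) / ε ^ 2 ≤ M :=
    (Nat.le_ceil _).trans (by exact_mod_cast (le_max_right _ _).trans hM)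
  have hMpos : (0 : ℝ) < M := by exact_mod_cast hM1
  have hM3 : (c : ℝ) * (Fintype.card ι : ℝ) ≤ M * ε ^ 2 := by
    rwa [div_le_iff₀ (by positivity)] at hM2
  classical
  -- one coordinate
  have hone : ∀ i : ι, ((s.filter fun e => ε * M ≤
      |∑ j, (e j i : ℝ) / d j - M / (Fintype.card ι : ℝ)|).card : ℝ) * (ε ^ 2 * M) ≤
      (expSet (ι := ι) d).card := by
    intro i
    set X : Fin M → (ι → ℕ) → ℝ := fun j g => (g i : ℝ) / d j - 1 / (Fintype.card ι : ℝ) with hXdef
    have hsec := Count_second (fun j => Finset.piAntidiag (Finset.univ : Finset ι) (d j)) X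
      (fun j => Count_mean (d j) (hd j) i) (fun j g hg => Count_abs (d j) (hd j) i g hg)
    have hsum : ∀ e : Fin M → ι → ℕ, ∑ j, (e j i : ℝ) / d j - M / (Fintype.card ι : ℝ) =
        ∑ j, X j (e j) := by
      intro e
      simp only [hXdef]
      rw [Finset.sum_sub_distrib, Finset.sum_const, Finset.card_univ, Fintype.card_fin,
        nsmul_eq_mul]
      ring
    have h1 : ((s.filter fun e => ε * M ≤
        |∑ j, (e j i : ℝ) / d j - M / (Fintype.card ι : ℝ)|).card : ℝ) * (ε * M) ^ 2 ≤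
        ∑ e ∈ expSet (ι := ι) d, (∑ j, X j (e j)) ^ 2 := by
      calc ((s.filter fun e => ε * M ≤
          |∑ j, (e j i : ℝ) / d j - M / (Fintype.card ι : ℝ)|).card : ℝ) * (ε * M) ^ 2
          = ∑ e ∈ s.filter (fun e => ε * M ≤
          |∑ j, (e j i : ℝ) / d j - M / (Fintype.card ι : ℝ)|), (ε * M) ^ 2 := by
            rw [Finset.sum_const, nsmul_eq_mul]
        _ ≤ ∑ e ∈ s.filter (fun e => ε * M ≤
          |∑ j, (e j i : ℝ) / d j - M / (Fintype.card ι : ℝ)|), (∑ j, X j (e j)) ^ 2 := by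
            refine Finset.sum_le_sum (fun e he => ?_)
            have h2 := (Finset.mem_filter.1 he).2
            rw [hsum] at h2
            rw [← sq_abs (∑ j, X j (e j))]
            exact pow_le_pow_left₀ (by positivity) h2 2
        _ ≤ _ := by
            refine Finset.sum_le_sum_of_subset_of_nonneg
              ((Finset.filter_subset _ _).trans hs) (fun _ _ _ => sq_nonneg _)
    have h3 := h1.trans hsec
    have h4 : ((expSet (ι := ι) d).card : ℝ) =
        (Fintype.piFinset fun j => Finset.piAntidiag (Finset.univ : Finset ι) (d j)).card := rfl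
    rw [h4]
    have h5 : ((s.filter fun e => ε * M ≤
        |∑ j, (e j i : ℝ) / d j - M / (Fintype.card ι : ℝ)|).card : ℝ) * (ε * M) ^ 2 =
        M * (((s.filter fun e => ε * M ≤
        |∑ j, (e j i : ℝ) / d j - M / (Fintype.card ι : ℝ)|).card : ℝ) * (ε ^ 2 * M)) := by ring
    rw [h5] at h3
    exact le_of_mul_le_mul_left h3 hMpos
  have hcover : s ⊆ Finset.univ.biUnion (fun i : ι => s.filter fun e => ε * M ≤
      |∑ j, (e j i : ℝ) / d j - M / (Fintype.card ι : ℝ)|) := by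
    intro e he
    obtain ⟨i, hi⟩ := hbad e he
    exact Finset.mem_biUnion.2 ⟨i, Finset.mem_univ i, Finset.mem_filter.2 ⟨he, hi⟩⟩
  have hc1 : (s.card : ℝ) ≤ ∑ i : ι, ((s.filter fun e => ε * M ≤
      |∑ j, (e j i : ℝ) / d j - M / (Fintype.card ι : ℝ)|).card : ℝ) := by
    exact_mod_cast (Finset.card_le_card hcover).trans Finset.card_biUnion_le
  have hc2 : (s.card : ℝ) * (ε ^ 2 * M) ≤ Fintype.card ι * (expSet (ι := ι) d).card := by
    calc (s.card : ℝ) * (ε ^ 2 * M) ≤ (∑ i : ι, ((s.filter fun e => ε * M ≤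
      |∑ j, (e j i : ℝ) / d j - M / (Fintype.card ι : ℝ)|).card : ℝ)) * (ε ^ 2 * M) :=
          mul_le_mul_of_nonneg_right hc1 (by positivity)
      _ ≤ ∑ i : ι, ((expSet (ι := ι) d).card : ℝ) := by
          rw [Finset.sum_mul]
          exact Finset.sum_le_sum (fun i _ => hone i)
      _ = _ := by rw [Finset.sum_const, Finset.card_univ, nsmul_eq_mul]
  have hs0 : (0 : ℝ) ≤ s.card := Nat.cast_nonneg _
  have hc3 : (s.card : ℝ) * ((c : ℝ) * (Fintype.card ι : ℝ)) ≤
      Fintype.card ι * (expSet (ι := ι) d).card := by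
    refine le_trans ?_ hc2
    refine mul_le_mul_of_nonneg_left ?_ hs0
    linarith
  have hc4 : (Fintype.card ι : ℝ) * ((c : ℝ) * s.card) ≤
      Fintype.card ι * (expSet (ι := ι) d).card := by
    calc (Fintype.card ι : ℝ) * ((c : ℝ) * s.card) = (s.card : ℝ) * ((c : ℝ) * (Fintype.card ι : ℝ)) := by ring
      _ ≤ _ := hc3
  have hc5 := le_of_mul_le_mul_left hc4 hn
  exact_mod_cast hc5

end Pool.Agent.Lib.MP_9dc83d_nt.Sb

end

section

namespace Pool.Agent.Lib.MP_9dc83d_nt.Sb

open MvPolynomial Pool.Agent.Lib.MP_d0d59f_nt.Auto Pool.Agent.Lib.MP_d0d59f_nt.Sb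

/-- Let `M ≥ M₀` (`card_bad_le`). There is a nonzero multihomogeneous polynomial with integral coefficients
of size at most `∏ (n ^ 2 h_j ^ (n ^ 2 + 1)) ^ d_j` such that for all places `v` the polynomial
`P ((A v)⁻¹ y)` has only balanced monomials.
Proof. For `v, j` let `q v j` be the product of the denominators of the entries of `(A v j)⁻¹`, so
`q v j * (A v j)⁻¹` has integral entries of absolute value at most `h_j ^ (n ^ 2 + 1)`. For an exponent
`e` of `expSet d` let `x ^ e` be the monomial. `lsub (q v j * (A v j)⁻¹) (x ^ e)` has integral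
coefficients, its `pnorm` (real absolute value, weights one) is at most
`∏ (n h_j ^ (n ^ 2 + 1)) ^ d_j =: T` (`pnorm_lsub_le`). The unknowns are the coefficients `c e`,
`e ∈ expSet d`, `N` of them; the equations: for every `v` and every bad `f ∈ expSet d` the coefficient
of `x ^ f` in `∑ e, c e * lsub (q v (A v)⁻¹) (x ^ e)` vanishes; their number is at most
`N / 2` (`card_bad_le`). If there are no equations take a monomial. Else Siegel's lemma
`Int.Matrix.exists_ne_zero_int_vec_norm_le` gives a nonzero integral solution with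
`|c e| ≤ (N * max 1 T) ^ (m / (N - m)) ≤ N T ≤ ∏ (n ^ 2 h_j ^ (n ^ 2 + 1)) ^ d_j` (`card_expSet_le`).
`P = ∑ c e x ^ e`. Since `lsub (q v (A v)⁻¹) P = (∏ (q v j) ^ d_j) • lsub (A v)⁻¹ P` the polynomial
`lsub (A v)⁻¹ P` has no bad monomials; its monomials have degree `d` (`MHom.lsub`). -/
theorem exists_aux (pl : ℕ) (ι : Type) [Fintype ι] [DecidableEq ι] [Nonempty ι] {ε : ℝ}
    (hε : 0 < ε) :
    ∃ M₀ : ℕ, ∀ M ≥ M₀, ∀ d : Fin M → ℕ, (∀ j, 0 < d j) →
      ∀ A : Fin (pl + 1) → Fin M → Matrix ι ι ℚ, (∀ v j, (A v j).det ≠ 0) → ∀ h : Fin M → ℝ,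
      (∀ j, 1 ≤ h j) → (∀ v j i k, (ht ((A v j)⁻¹ i k) : ℝ) ≤ h j) →
      ∃ P : MvPolynomial (Fin M × ι) ℤ, P ≠ 0 ∧ MHom d (map (Int.castRingHom ℚ) P) ∧
        (∀ e, |((coeff e P : ℤ) : ℝ)| ≤ ∏ j, ((Fintype.card ι : ℝ) ^ 2 *
          h j ^ ((Fintype.card ι) ^ 2 + 1)) ^ d j) ∧
        ∀ v, ∀ e ∈ (lsub (fun j => (A v j)⁻¹) (map (Int.castRingHom ℚ) P)).support,
          ¬ Bad ε d (fun j i => e (j, i)) := by
  classical
  obtain ⟨M₀, hM₀⟩ := card_bad_le' (2 * (pl + 1)) ι hε
  refine ⟨M₀, fun M hM d hd A _hA h hh hht => ?_⟩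
  set s : Finset (Fin M → ι → ℕ) := (expSet d).filter (Bad ε d) with hs
  have hcard : 2 * (pl + 1) * s.card ≤ (expSet (ι := ι) d).card :=
    hM₀ M hM d hd s (Finset.filter_subset _ _) (fun e he => (Finset.mem_filter.mp he).2)
  choose q hq0 hqi hqb using fun (v : Fin (pl + 1)) (j : Fin M) => siegel_den ((A v j)⁻¹) (hh j)
    (fun i k => hht v j i k)
  set n : ℝ := (Fintype.card ι : ℝ) with hn
  have hn1 : 1 ≤ n := by
    rw [hn]
    exact_mod_cast Fintype.card_pos
  set K : ℕ := (Fintype.card ι) ^ 2 + 1 with hK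
  set T : ℝ := ∏ j, (n * h j ^ K) ^ d j with hT
  have hT1 : 1 ≤ T := by
    rw [hT]
    have h0 : ∀ j, 1 ≤ (n * h j ^ K) ^ d j := fun j => by
      have h1 : 1 ≤ h j ^ K := one_le_pow₀ (hh j)
      exact one_le_pow₀ (by nlinarith)
    calc (1 : ℝ) = ∏ _j : Fin M, (1 : ℝ) := by rw [Finset.prod_const_one]
      _ ≤ _ := Finset.prod_le_prod (fun _ _ => zero_le_one) (fun j _ => h0 j)
  -- the integral matrix of the equations
  set Bq : Fin (pl + 1) → Fin M → Matrix ι ι ℚ := fun v j => (q v j : ℚ) • (A v j)⁻¹ with hBq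
  choose W hW using fun (x : Fin (pl + 1) × s) (e : expSet (ι := ι) d) =>
    siegel_integral (Bq x.1) (hqi x.1) e.1 (siegelFe x.2.1)
  have hWb : ∀ x e, |((W x e : ℤ) : ℝ)| ≤ T := by
    intro x e
    have h1 := siegel_coeff_le e.2 (Bq x.1) (H := fun j => h j ^ K)
      (fun j => by have := hh j; positivity) (hqb x.1) (siegelFe x.2.1)
    rw [hW x e] at h1
    push_cast at h1
    exact h1
  have hN0 : 0 < Fintype.card (expSet (ι := ι) d) := by
    rw [Fintype.card_coe, Finset.card_pos]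
    obtain ⟨i0⟩ := (inferInstance : Nonempty ι)
    exact ⟨fun j => Pi.single i0 (d j), siegel_mem_expSet.mpr fun j => by simp⟩
  have hc2 : 2 * Fintype.card (Fin (pl + 1) × s) ≤ Fintype.card (expSet (ι := ι) d) := by
    rw [Fintype.card_prod, Fintype.card_fin, Fintype.card_coe, Fintype.card_coe, ← mul_assoc]
    exact hcard
  obtain ⟨t, ht0, ht1, ht2⟩ := siegel_wrap (Matrix.of W) hT1 hWb hc2 hN0
  -- the polynomial
  set P : MvPolynomial (Fin M × ι) ℤ := ∑ e : expSet (ι := ι) d, monomial (siegelFe e.1) (t e)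
    with hP
  have hcoeff : ∀ f, coeff f P = ∑ e : expSet (ι := ι) d, if siegelFe e.1 = f then t e else 0 := by
    intro f
    rw [hP, coeff_sum]
    simp only [coeff_monomial]
  have hcoeff1 : ∀ e : expSet (ι := ι) d, coeff (siegelFe e.1) P = t e := by
    intro e
    rw [hcoeff, Finset.sum_eq_single e]
    · simp
    · intro b _ hb
      rw [if_neg]
      intro h1
      exact hb (Subtype.ext (siegelFe_inj h1))
    · intro h1
      exact absurd (Finset.mem_univ _) h1
  have hcoeff2 : ∀ f, coeff f P ≠ 0 → ∃ e : expSet (ι := ι) d, siegelFe e.1 = f := by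
    intro f hf
    by_contra hne
    push Not at hne
    apply hf
    rw [hcoeff]
    exact Finset.sum_eq_zero fun e _ => if_neg (hne e)
  have hMH : MHom d (map (Int.castRingHom ℚ) P) := by
    intro f hf j
    rw [mem_support_iff, coeff_map] at hf
    have hf' : coeff f P ≠ 0 := by
      intro h0
      apply hf
      rw [h0, map_zero]
    obtain ⟨e, he⟩ := hcoeff2 f hf'
    rw [← he]
    exact siegel_mem_expSet.mp e.2 j
  refine ⟨P, ?_, hMH, ?_, ?_⟩
  · obtain ⟨e, he⟩ := Function.ne_iff.mp ht0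
    intro h0
    apply he
    rw [← hcoeff1 e, h0]
    simp
  · intro f
    have hb0 : (Fintype.card (expSet (ι := ι) d) : ℝ) * T ≤ ∏ j, (n ^ 2 * h j ^ K) ^ d j := by
      have h1 : (Fintype.card (expSet (ι := ι) d) : ℝ) ≤ ∏ j, n ^ d j := by
        rw [Fintype.card_coe, Finset.prod_pow_eq_pow_sum, hn]
        exact_mod_cast card_expSet_le ι d
      calc (Fintype.card (expSet (ι := ι) d) : ℝ) * T ≤ (∏ j, n ^ d j) * T :=
            mul_le_mul_of_nonneg_right h1 (by linarith)
        _ = ∏ j, (n ^ 2 * h j ^ K) ^ d j := by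
            rw [hT, ← Finset.prod_mul_distrib]
            refine Finset.prod_congr rfl fun j _ => ?_
            rw [← mul_pow]
            congr 1
            ring
    by_cases hf : coeff f P = 0
    · rw [hf]
      simp only [Int.cast_zero, abs_zero]
      have : (0 : ℝ) ≤ (Fintype.card (expSet (ι := ι) d) : ℝ) * T :=
        mul_nonneg (Nat.cast_nonneg _) (by linarith)
      exact this.trans hb0
    · obtain ⟨e, he⟩ := hcoeff2 f hf
      rw [← he, hcoeff1 e]
      exact (ht2 e).trans hb0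
  · intro v f hf hbad
    have hmh := MHom.lsub hMH (fun j => (A v j)⁻¹) f hf
    have hfs : (fun j i => f (j, i)) ∈ s := by
      rw [hs, Finset.mem_filter]
      exact ⟨siegel_mem_expSet.mpr hmh, hbad⟩
    set Q : ℚ := ∏ j, (q v j : ℚ) ^ d j with hQ
    have hQ0 : Q ≠ 0 := by
      rw [hQ]
      refine Finset.prod_ne_zero_iff.mpr fun j _ => pow_ne_zero _ ?_
      exact_mod_cast (hq0 v j).ne'
    have hmap : map (Int.castRingHom ℚ) P =
        ∑ e : expSet (ι := ι) d, C ((t e : ℤ) : ℚ) * monomial (siegelFe e.1) (1 : ℚ) := by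
      rw [hP, map_sum]
      refine Finset.sum_congr rfl fun e _ => ?_
      rw [map_monomial, C_mul_monomial, mul_one]
      rfl
    have h1 : lsub (Bq v) (map (Int.castRingHom ℚ) P) =
        C Q * lsub (fun j => (A v j)⁻¹) (map (Int.castRingHom ℚ) P) := by
      rw [hmap, map_sum, map_sum, Finset.mul_sum]
      refine Finset.sum_congr rfl fun e _ => ?_
      rw [map_mul, map_mul, hBq, siegel_scale e.2 (fun j => (A v j)⁻¹) (fun j => (q v j : ℚ))]
      have h2 : ∀ (B : Fin M → Matrix ι ι ℚ) (c : ℚ), lsub B (C c) = C c := fun B c => by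
        rw [← algebraMap_eq]
        exact AlgHom.commutes _ _
      rw [h2, h2]
      ring
    have h2 : coeff f (lsub (Bq v) (map (Int.castRingHom ℚ) P)) = 0 := by
      have h3 := congrFun ht1 (v, ⟨_, hfs⟩)
      rw [hmap, map_sum, coeff_sum]
      have h4 : ∀ e : expSet (ι := ι) d, coeff f (lsub (Bq v) (C ((t e : ℤ) : ℚ) *
          monomial (siegelFe e.1) (1 : ℚ))) = ((W (v, ⟨_, hfs⟩) e * t e : ℤ) : ℚ) := by
        intro e
        rw [map_mul]
        have h5 : lsub (Bq v) (C ((t e : ℤ) : ℚ)) = C ((t e : ℤ) : ℚ) := by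
          rw [← algebraMap_eq]
          exact AlgHom.commutes _ _
        rw [h5, coeff_C_mul]
        have h6 := hW (v, ⟨_, hfs⟩) e
        simp only [siegelFe_curry] at h6
        rw [h6]
        push_cast
        ring
      rw [Finset.sum_congr rfl fun e _ => h4 e]
      have h7 : ((∑ e : expSet (ι := ι) d, W (v, ⟨_, hfs⟩) e * t e : ℤ) : ℚ) = 0 := by
        have h8 : (∑ e : expSet (ι := ι) d, W (v, ⟨_, hfs⟩) e * t e : ℤ) = 0 := h3
        rw [h8, Int.cast_zero]
      rw [← h7]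
      push_cast
      rfl
    rw [h1, coeff_C_mul] at h2
    rw [mem_support_iff] at hf
    rcases mul_eq_zero.mp h2 with h3 | h3
    · exact hQ0 h3
    · exact hf h3

end Pool.Agent.Lib.MP_9dc83d_nt.Sb

end
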