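import Pool.Agent.Lib.MP_9dc83d_nt.Sub.OrthSystems

/-!
Compound matrices.
-/

section

namespace Pool.Agent.Lib.MP_9dc83d_nt.Sb

/-- the subsets with `p` elements -/
abbrev PSub (n p : ℕ) : Type := {s : Finset (Fin n) // s.card = p}

/-- the increasing enumeration of a subset -/
def PSub.emb {n p : ℕ} (s : PSub n p) : Fin p ↪o Fin n := s.1.orderEmbOfFin s.2

/-- the compound matrix of the minors of order `p` -/
def comp {R : Type} [CommRing R] {n : ℕ} (p : ℕ) (A : Matrix (Fin n) (Fin n) R) :
    Matrix (PSub n p) (PSub n p) R :=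
  Matrix.of fun I J => (A.submatrix I.emb J.emb).det

/-- expansion of the determinant of a product over all functions -/
private theorem Compound_expand {R : Type} [CommRing R] {n p : ℕ} (M : Matrix (Fin p) (Fin n) R)
    (N : Matrix (Fin n) (Fin p) R) :
    (M * N).det = ∑ f : Fin p → Fin n, (∏ i, N (f i) i) * (M.submatrix id f).det := by
  have h1 : (M * N).det = ∑ f : Fin p → Fin n, ∑ σ : Equiv.Perm (Fin p),
      ((Equiv.Perm.sign σ : ℤ) : R) * ∏ i, M (σ i) (f i) * N (f i) i := by
    simp only [Matrix.det_apply', Matrix.mul_apply, Finset.prod_univ_sum, Finset.mul_sum,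
      Fintype.piFinset_univ]
    rw [Finset.sum_comm]
  rw [h1]
  refine Finset.sum_congr rfl (fun f _ => ?_)
  rw [Matrix.det_apply', Finset.mul_sum]
  refine Finset.sum_congr rfl (fun σ _ => ?_)
  rw [Finset.prod_mul_distrib]
  simp only [Matrix.submatrix_apply, id]
  ring

/-- functions versus subsets and permutations -/
private theorem Compound_reindex {R : Type} [CommRing R] {n p : ℕ} (F : (Fin p → Fin n) → R)
    (hF : ∀ f, ¬ Function.Injective f → F f = 0) :
    ∑ f : Fin p → Fin n, F f =
      ∑ K : PSub n p, ∑ π : Equiv.Perm (Fin p), F (fun i => K.emb (π i)) := by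
  rw [← Fintype.sum_prod_type' (f := fun (K : PSub n p) (π : Equiv.Perm (Fin p)) =>
    F (fun i => K.emb (π i)))]
  symm
  refine Finset.sum_of_injOn (fun (x : PSub n p × Equiv.Perm (Fin p)) => fun i => x.1.emb (x.2 i))
    ?_ (fun _ _ => Finset.mem_coe.2 (Finset.mem_univ _)) ?_ (fun _ _ => rfl)
  · rintro ⟨K, π⟩ _ ⟨K', π'⟩ _ h
    have h' : ∀ i, K.emb (π i) = K'.emb (π' i) := fun i => congrFun h i
    have hK : K = K' := by
      apply Subtype.ext
      ext x
      have e1 : x ∈ K.1 ↔ ∃ j, K.emb j = x := by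
        have := Finset.range_orderEmbOfFin K.1 K.2
        rw [← Finset.mem_coe, ← this]
        exact Iff.rfl
      have e2 : x ∈ K'.1 ↔ ∃ j, K'.emb j = x := by
        have := Finset.range_orderEmbOfFin K'.1 K'.2
        rw [← Finset.mem_coe, ← this]
        exact Iff.rfl
      rw [e1, e2]
      constructor
      · rintro ⟨j, rfl⟩
        refine ⟨π' (π.symm j), ?_⟩
        rw [← h', Equiv.apply_symm_apply]
      · rintro ⟨j, rfl⟩
        refine ⟨π (π'.symm j), ?_⟩
        rw [h', Equiv.apply_symm_apply]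
    subst hK
    have hπ : π = π' := by
      ext i
      rw [K.emb.injective (h' i)]
    rw [hπ]
  · intro f _ hf
    apply hF
    intro hinj
    apply hf
    have hcard : (Finset.univ.image f).card = p := by
      rw [Finset.card_image_of_injective _ hinj, Finset.card_univ, Fintype.card_fin]
    let K : PSub n p := ⟨Finset.univ.image f, hcard⟩
    have hex : ∀ i, ∃ j, K.emb j = f i := by
      intro i
      have h1 : f i ∈ (K.1 : Set (Fin n)) := by
        rw [Finset.mem_coe]
        exact Finset.mem_image_of_mem f (Finset.mem_univ i)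
      rw [← Finset.range_orderEmbOfFin K.1 K.2] at h1
      exact h1
    choose g hg using hex
    have hginj : Function.Injective g := by
      intro i j hij
      apply hinj
      rw [← hg i, ← hg j, hij]
    let π : Equiv.Perm (Fin p) := Equiv.ofBijective g (Finite.injective_iff_bijective.1 hginj)
    refine ⟨(K, π), Finset.mem_coe.2 (Finset.mem_univ _), ?_⟩
    funext i
    exact hg i

/-- The Cauchy-Binet formula. Proof: expand
`det ((A * B).submatrix I J) = det (of fun i j => ∑ k, A (I i) k * B k (J j))` as a multilinear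
function of the columns (`Matrix.detRowAlternating`, `MultilinearMap.map_sum`, on the transpose) as a
sum over all functions `f : Fin p → Fin n` of `(∏ j, B (f j) (J j)) * det (A.submatrix I f)`; the
terms with `f` not injective vanish, the injective ones are `K.emb ∘ π`, `K : PSub n p`,
`π : Equiv.Perm (Fin p)`, uniquely, with
`det (A.submatrix I (K ∘ π)) = sign π * det (A.submatrix I K)` (`Matrix.det_permute'`), and
`∑ π, sign π * ∏ j, B (K (π j)) (J j) = det (B.submatrix K J)`. -/
theorem comp_mul {R : Type} [CommRing R] {n : ℕ} (p : ℕ) (A B : Matrix (Fin n) (Fin n) R) :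
    comp p (A * B) = comp p A * comp p B := by
  ext I J
  have h0 : (A * B).submatrix I.emb J.emb = A.submatrix I.emb id * B.submatrix id J.emb := by
    ext i j
    simp only [Matrix.submatrix_apply, Matrix.mul_apply, id]
  have h1 : comp p (A * B) I J = ((A * B).submatrix I.emb J.emb).det := rfl
  rw [h1, h0, Compound_expand, Compound_reindex, Matrix.mul_apply]
  · refine Finset.sum_congr rfl (fun K _ => ?_)
    have hB : comp p B K J = ∑ π : Equiv.Perm (Fin p),
        ((Equiv.Perm.sign π : ℤ) : R) * ∏ i, B (K.emb (π i)) (J.emb i) := by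
      have : comp p B K J = (B.submatrix K.emb J.emb).det := rfl
      rw [this, Matrix.det_apply']
      rfl
    rw [hB, Finset.mul_sum]
    refine Finset.sum_congr rfl (fun π _ => ?_)
    have hA : ((A.submatrix I.emb id).submatrix id fun i => K.emb (π i)).det =
        ((Equiv.Perm.sign π : ℤ) : R) * comp p A I K := by
      have := Matrix.det_permute' π (A.submatrix I.emb K.emb)
      rw [show comp p A I K = (A.submatrix I.emb K.emb).det from rfl, ← this]
      rfl
    rw [hA]
    simp only [Matrix.submatrix_apply, id]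
    ring
  · intro f hf
    obtain ⟨i, j, hij, hne⟩ : ∃ i j, f i = f j ∧ i ≠ j := by
      unfold Function.Injective at hf
      push Not at hf
      exact hf
    have : ((A.submatrix I.emb id).submatrix id f).det = 0 := by
      refine Matrix.det_zero_of_column_eq hne (fun k => ?_)
      simp only [Matrix.submatrix_apply, hij]
    rw [this, mul_zero]

end Pool.Agent.Lib.MP_9dc83d_nt.Sb

end

section

namespace Pool.Agent.Lib.MP_9dc83d_nt.Sb

theorem compound2A_mem {n p : ℕ} (s : PSub n p) (i : Fin p) : s.emb i ∈ s.1 :=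
  Finset.orderEmbOfFin_mem s.1 s.2 i

theorem compound2A_exists {n p : ℕ} (s : PSub n p) {x : Fin n} (hx : x ∈ s.1) :
    ∃ i, s.emb i = x := by
  have h : x ∈ Set.range (s.1.orderEmbOfFin s.2) := by
    rw [Finset.range_orderEmbOfFin]
    exact hx
  exact h

theorem compound2A_sum {n p : ℕ} (s : PSub n p) (f : Fin n → ℝ) :
    ∑ i : Fin p, f (s.emb i) = ∑ i ∈ s.1, f i := by
  have h : Finset.map (s.1.orderEmbOfFin s.2).toEmbedding Finset.univ = s.1 :=
    Finset.map_orderEmbOfFin_univ s.1 s.2
  conv_rhs => rw [← h]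
  rw [Finset.sum_map]
  rfl

/-- For `I ≠ J` there is an element of `I` not in `J`, so `(1 : Matrix).submatrix I J` has a zero row. -/
theorem comp_one {R : Type} [CommRing R] {n : ℕ} (p : ℕ) :
    comp p (1 : Matrix (Fin n) (Fin n) R) = 1 := by
  ext I J
  change (Matrix.submatrix (1 : Matrix (Fin n) (Fin n) R) I.emb J.emb).det = _
  by_cases hIJ : I = J
  · subst hIJ
    rw [Matrix.submatrix_one _ I.emb.injective, Matrix.det_one, Matrix.one_apply_eq]
  · rw [Matrix.one_apply_ne hIJ]
    have hns : ¬ I.1 ⊆ J.1 := by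
      intro hs
      apply hIJ
      apply Subtype.ext
      exact Finset.eq_of_subset_of_card_le hs (by rw [I.2, J.2])
    obtain ⟨x, hxI, hxJ⟩ := Finset.not_subset.1 hns
    obtain ⟨i, hi⟩ := compound2A_exists I hxI
    refine Matrix.det_eq_zero_of_row_eq_zero i (fun j => ?_)
    rw [Matrix.submatrix_apply, hi]
    refine Matrix.one_apply_ne ?_
    rintro rfl
    exact hxJ (compound2A_mem J j)

/-- `RingHom.map_det` -/
theorem comp_map {R S : Type} [CommRing R] [CommRing S] (f : R →+* S) {n : ℕ} (p : ℕ)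
    (A : Matrix (Fin n) (Fin n) R) : comp p (A.map f) = (comp p A).map f := by
  ext I J
  change ((A.map f).submatrix I.emb J.emb).det = f (A.submatrix I.emb J.emb).det
  rw [RingHom.map_det]
  rfl

theorem compound2A_mul_inv {F : Type} [Field F] {n : ℕ} (p : ℕ) {A : Matrix (Fin n) (Fin n) F}
    (hA : A.det ≠ 0) : comp p A * comp p A⁻¹ = 1 := by
  rw [← comp_mul, Matrix.mul_nonsing_inv A (isUnit_iff_ne_zero.2 hA), comp_one]

/-- `comp p A * comp p A⁻¹ = 1` -/
theorem comp_det_ne_zero {F : Type} [Field F] {n : ℕ} (p : ℕ) {A : Matrix (Fin n) (Fin n) F}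
    (hA : A.det ≠ 0) : (comp p A).det ≠ 0 := by
  intro h
  have h1 := congrArg Matrix.det (compound2A_mul_inv p hA)
  rw [Matrix.det_mul, h, zero_mul, Matrix.det_one] at h1
  exact zero_ne_one h1

theorem comp_inv {F : Type} [Field F] {n : ℕ} (p : ℕ) {A : Matrix (Fin n) (Fin n) F}
    (hA : A.det ≠ 0) : comp p A⁻¹ = (comp p A)⁻¹ :=
  (Matrix.inv_eq_right_inv (compound2A_mul_inv p hA)).symm

/-- `Subring.sum_mem`, `Subring.prod_mem` (`Matrix.det_apply`). -/
theorem comp_mem {R : Type} [CommRing R] (O : Subring R) {n : ℕ} (p : ℕ)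
    {A : Matrix (Fin n) (Fin n) R} (hA : ∀ i j, A i j ∈ O) (I J : PSub n p) :
    comp p A I J ∈ O := by
  change (A.submatrix I.emb J.emb).det ∈ O
  rw [Matrix.det_apply]
  refine Subring.sum_mem _ fun σ _ => ?_
  rw [Units.smul_def]
  refine zsmul_mem (Subring.prod_mem _ fun i _ => ?_) _
  exact hA _ _

/-- `val_det_le` for the minors: `∑ i : Fin p, a (I.emb i) = ∑ i ∈ I, a i`. -/
theorem orth_comp {𝕂 : Type} [Field 𝕂] {w : AbsoluteValue 𝕂 ℝ}
    (hw : ∀ a b, w (a + b) ≤ max (w a) (w b)) {n : ℕ} (p : ℕ) {B V : Matrix (Fin n) (Fin n) 𝕂}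
    {a ρ : Fin n → ℝ} (h : Orth w B V a ρ) :
    Orth w (comp p B) (comp p V) (fun I => ∑ i ∈ I.1, a i) (fun J => ∑ j ∈ J.1, ρ j) := by
  refine ⟨fun I J => ?_, fun J I => ?_⟩
  · change w (B.submatrix I.emb J.emb).det ≤ _
    have h1 := val_det_le hw (B.submatrix I.emb J.emb) (fun i => a (I.emb i))
      (fun j => ρ (J.emb j)) (fun i j => h.col _ _)
    rw [compound2A_sum I a, compound2A_sum J ρ] at h1
    exact h1
  · change w (V.submatrix J.emb I.emb).det ≤ _
    have h1 := val_det_le hw (V.submatrix J.emb I.emb) (fun j => -ρ (J.emb j))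
      (fun i => -a (I.emb i)) (fun j i => by
        have h2 := h.row (J.emb j) (I.emb i)
        have h3 : -ρ (J.emb j) + -a (I.emb i) = -(a (I.emb i) + ρ (J.emb j)) := by ring
        rw [Matrix.submatrix_apply, h3]
        exact h2)
    rw [Finset.sum_neg_distrib, Finset.sum_neg_distrib, compound2A_sum I a,
      compound2A_sum J ρ] at h1
    have h3 : -∑ j ∈ J.1, ρ j + -∑ i ∈ I.1, a i = -(∑ i ∈ I.1, a i + ∑ j ∈ J.1, ρ j) := by ring
    rw [h3] at h1
    exact h1

end Pool.Agent.Lib.MP_9dc83d_nt.Sb

end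

section

namespace Pool.Agent.Lib.MP_9dc83d_nt.Sb

theorem compound2_det_eq {κ 𝕂 : Type} [Field κ] [Field 𝕂] [Algebra κ 𝕂] {n p : ℕ}
    (V : Matrix (Fin n) (Fin n) 𝕂) (K₁ β : PSub n p)
    (hκ : ∀ α, ∃ c : κ, comp p V K₁ α = algebraMap κ 𝕂 c * comp p V K₁ β) (f : Fin p → Fin n) :
    ∃ c : κ, (V.submatrix K₁.emb f).det = algebraMap κ 𝕂 c * comp p V K₁ β := by
  classical
  by_cases hf : Function.Injective f
  · let α : PSub n p := ⟨Finset.univ.image f, by
      rw [Finset.card_image_of_injective _ hf, Finset.card_univ, Fintype.card_fin]⟩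
    have hex : ∀ i, ∃ k, α.emb k = f i := by
      intro i
      have h1 : f i ∈ (Set.range (α.1.orderEmbOfFin α.2)) := by
        rw [Finset.range_orderEmbOfFin]
        exact Finset.mem_coe.2 (Finset.mem_image_of_mem f (Finset.mem_univ i))
      obtain ⟨k, hk⟩ := h1
      exact ⟨k, hk⟩
    choose π hπ using hex
    have hinj : Function.Injective π := by
      intro i j hij
      apply hf
      rw [← hπ i, ← hπ j, hij]
    let σ : Equiv.Perm (Fin p) := Equiv.ofBijective π (Finite.injective_iff_bijective.1 hinj)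
    obtain ⟨c, hc⟩ := hκ α
    have hsub : V.submatrix K₁.emb f = (V.submatrix K₁.emb α.emb).submatrix id σ := by
      ext i j
      simp only [Matrix.submatrix_apply, id]
      have : σ j = π j := rfl
      rw [this, hπ j]
    have hdet : (V.submatrix K₁.emb α.emb).det = algebraMap κ 𝕂 c * comp p V K₁ β := hc
    rw [hsub, Matrix.det_permute', hdet]
    refine ⟨((Equiv.Perm.sign σ : ℤ) : κ) * c, ?_⟩
    rw [map_mul, map_intCast, mul_assoc]
  · refine ⟨0, ?_⟩
    rw [map_zero, zero_mul]
    rw [Function.Injective] at hf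
    push Not at hf
    obtain ⟨i, j, hij, hne⟩ := hf
    exact Matrix.det_zero_of_column_eq hne (fun k => by simp [Matrix.submatrix_apply, hij])

/-- If the minors of the rows `K₁` of `V` are constant multiples of one of them, and these rows annihilate
`z`, then `z` is linearly dependent over `κ`.

Proof. Let `R : Matrix (Fin p) (Fin n) 𝕂` be `V.submatrix K₁.emb id`, `Rβ = R.submatrix id β.emb`,
`det Rβ = comp p V K₁ β ≠ 0`. For every `f : Fin p → Fin n` the determinant of `R.submatrix id f` is
a constant times `det Rβ`: it is zero if `f` is not injective, and if `f` is injective then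
`f = α.emb ∘ π` with `α = image of f`, `π` a permutation, and it is `± comp p V K₁ α`. By Cramer's rule
(`Matrix.cramer_apply`, `Matrix.mulVec_cramer` or `Rβ⁻¹ = (det Rβ)⁻¹ • adjugate Rβ`) the entry
`(s, j)` of `R' = Rβ⁻¹ * R` is `det (R.submatrix id f) / det Rβ` for `f = Function.update β.emb s j`,
so it is `algebraMap (c s j)`. `R' z = Rβ⁻¹ (R z) = 0` and `R' (s, β s) = 1`. So for `s = 0` (`0 < p`)
`∑ j, c 0 j • z j = 0` is a nontrivial relation. -/
theorem not_indep_of_minors {κ 𝕂 : Type} [Field κ] [Field 𝕂] [Algebra κ 𝕂] {n p : ℕ} (hp : 0 < p)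
    (V : Matrix (Fin n) (Fin n) 𝕂) (K₁ β : PSub n p) (hβ : comp p V K₁ β ≠ 0)
    (hκ : ∀ α, ∃ c : κ, comp p V K₁ α = algebraMap κ 𝕂 c * comp p V K₁ β) (z : Fin n → 𝕂)
    (hz : ∀ k ∈ K₁.1, ∑ j, V k j * z j = 0) : ¬ LinearIndependent κ z := by
  classical
  intro hli
  let s : Fin p := ⟨0, hp⟩
  have hc := fun j : Fin n => compound2_det_eq V K₁ β hκ (Function.update β.emb s j)
  choose c hc using hc
  have hcol : ∀ j : Fin n, (V.submatrix K₁.emb (Function.update β.emb s j)).det =
      Matrix.cramer (V.submatrix K₁.emb β.emb) (fun i => V (K₁.emb i) j) s := by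
    intro j
    rw [Matrix.cramer_apply]
    congr 1
    ext i k
    by_cases hk : k = s
    · subst hk
      simp [Matrix.submatrix_apply, Matrix.updateCol_self]
    · simp [Matrix.submatrix_apply, Matrix.updateCol_ne hk, Function.update_of_ne hk]
  have hsum : ∑ j, z j • (fun i => V (K₁.emb i) j : Fin p → 𝕂) = 0 := by
    ext i
    rw [Finset.sum_apply]
    have h1 := hz (K₁.emb i) (Finset.orderEmbOfFin_mem K₁.1 K₁.2 i)
    simp only [Pi.smul_apply, smul_eq_mul, Pi.zero_apply]
    rw [← h1]
    exact Finset.sum_congr rfl (fun j _ => mul_comm _ _)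
  have h0 : ∑ j, z j * (V.submatrix K₁.emb (Function.update β.emb s j)).det = 0 := by
    have h2 := congrArg (fun v => Matrix.cramer (V.submatrix K₁.emb β.emb) v s) hsum
    simp only [map_sum, map_smul, map_zero, Finset.sum_apply, Pi.smul_apply, smul_eq_mul,
      Pi.zero_apply] at h2
    rw [← h2]
    exact Finset.sum_congr rfl (fun j _ => by rw [hcol j])
  have h3 : ∑ j, c j • z j = 0 := by
    have h4 : (∑ j, c j • z j) * comp p V K₁ β = 0 := by
      rw [Finset.sum_mul, ← h0]
      refine Finset.sum_congr rfl (fun j _ => ?_)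
      rw [hc j, Algebra.smul_def]
      ring
    exact (mul_eq_zero.1 h4).resolve_right hβ
  have h5 := Fintype.linearIndependent_iff.1 hli c h3 (β.emb s)
  have h6 := hc (β.emb s)
  rw [Function.update_eq_self, h5, map_zero, zero_mul] at h6
  exact hβ h6

end Pool.Agent.Lib.MP_9dc83d_nt.Sb

end
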