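import Pool.Agent.Lib.MP_9dc83d_nt.Sub.OrthSystems
import Pool.Agent.Lib.MP_9dc83d_nt.Sub.Compounds

/-!
The subspace theorem from the existence of orthogonal bases and the theorem on hyperplanes.
-/

section

namespace Pool.Agent.Lib.MP_9dc83d_nt.Sb

variable {pl : ℕ} {κ 𝕂 : Type} [Field κ] [Field 𝕂] [Algebra κ 𝕂] {O : Subring 𝕂}
  {w : Fin (pl + 1) → AbsoluteValue 𝕂 ℝ}

/-- The set `J = {j | μ j < 0}`, and the unique maximum of the sums over subsets with `p` elements,
`p = n - card J`: for `K ≠ Jᶜ` with `p` elements, `∑ K - ∑ Jᶜ = ∑ (K \ Jᶜ) - ∑ (Jᶜ \ K) < 0` since the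
first sum is over a nonempty set of negative numbers and the second over nonnegative numbers. -/
theorem unique_max_sum {n : ℕ} (μ : Fin n → ℝ) (K₁ : Finset (Fin n))
    (h1 : ∀ k, k ∈ K₁ ↔ 0 ≤ μ k) (K : Finset (Fin n)) (hcard : K.card = K₁.card) (hne : K ≠ K₁) :
    ∑ k ∈ K, μ k < ∑ k ∈ K₁, μ k := by
  have e1 : ∑ k ∈ K \ K₁, μ k + ∑ k ∈ K ∩ K₁, μ k = ∑ k ∈ K, μ k := by
    have := Finset.sum_sdiff (f := μ) (Finset.inter_subset_left : K ∩ K₁ ⊆ K)
    rwa [Finset.sdiff_inter_self_left] at this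
  have e2 : ∑ k ∈ K₁ \ K, μ k + ∑ k ∈ K ∩ K₁, μ k = ∑ k ∈ K₁, μ k := by
    have := Finset.sum_sdiff (f := μ) (Finset.inter_subset_right : K ∩ K₁ ⊆ K₁)
    rwa [Finset.sdiff_inter_self_right] at this
  have h2 : (K \ K₁).Nonempty := by
    rw [Finset.nonempty_iff_ne_empty]
    intro h0
    exact hne (Finset.eq_of_subset_of_card_le (Finset.sdiff_eq_empty_iff_subset.1 h0) hcard.ge)
  have h3 : ∑ k ∈ K \ K₁, μ k < 0 := by
    refine Finset.sum_neg (fun k hk => ?_) h2
    by_contra hc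
    exact (Finset.mem_sdiff.1 hk).2 ((h1 k).2 (not_lt.1 hc))
  have h4 : 0 ≤ ∑ k ∈ K₁ \ K, μ k := Finset.sum_nonneg fun k hk => (h1 k).1 (Finset.mem_sdiff.1 hk).1
  linarith

/-- Proof for `ι = Fin n`. Suppose that `S = ∑ v, ∑ i, log (w v ((A v z) i)) < 0` (all the entries
`(A v z) i` are nonzero as `z` is independent and the rows of `A v` are nonzero); so `n > 0`. Let
`c = - S / ((pl + 1) n) > 0`, `a v i = log (w v ((A v z) i)) + c`, so `∑ a = 0` and
`w v ((A v z) i) = exp (a v i - c)`. `SplitProp`: `G, V, ρ`. Let `x = V z` (entries in `O`), `G x = z`;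
`x j = ∑ i, (V * up (A v)⁻¹) j i * (A v z) i`, so `w v (x j) ≤ exp (- ρ v j - c)` (`val_sum_le`). Let
`μ j = ∑ v, ρ v j`. If `x j ≠ 0` then `1 ≤ ∏ v, w v (x j) ≤ exp (- μ j - (pl + 1) c)`, so `μ j < 0`. There is
such a `j` (`z ≠ 0`), and `∑ μ = 0` by `sum_mu`, so `K₁ = {k | 0 ≤ μ k}` has `0 < p = card K₁ < n`
elements, and `x k = 0` for `k ∈ K₁`, i.e. the rows `k ∈ K₁` of `V` annihilate `z`. Apply
`row_const` to `ι = PSub n p`, `comp p (A v)`, `comp p G`, `comp p V`, the weights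
`∑ i ∈ I, a v i`, `∑ j ∈ J, ρ v j` (`orth_comp`, `comp_mul`, `comp_map`, `comp_inv`, `comp_one`,
`comp_mem`, `comp_det_ne_zero`), `K₁`; `hmax` from `unique_max_sum`
(`∑ v, ∑ j ∈ J, ρ v j = ∑ j ∈ J, μ j`). There is `β` with `comp p V K₁ β ≠ 0` (`comp p V` is
invertible, so its row `K₁` is not zero). `not_indep_of_minors` contradicts the independence. -/
theorem nss_fin (h : Setting κ O w)
    (hS : ∀ (ι : Type) [Fintype ι] [DecidableEq ι], SplitProp κ O w ι)
    (hH : ∀ (ι : Type) [Fintype ι] [DecidableEq ι], HyperProp κ O w ι) {n : ℕ} (z : Fin n → 𝕂)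
    (hz : ∀ i, z i ∈ O) (hind : LinearIndependent κ z) (A : Fin (pl + 1) → Matrix (Fin n) (Fin n) κ)
    (hA : ∀ v, (A v).det ≠ 0) :
    0 ≤ ∑ v, ∑ i, Real.log (w v (∑ j, algebraMap κ 𝕂 (A v i j) * z j)) := by
  classical
  by_contra hneg
  rw [not_le] at hneg
  set Az : Fin (pl + 1) → Fin n → 𝕂 := fun v i => ∑ j, algebraMap κ 𝕂 (A v i j) * z j with hAz
  set S : ℝ := ∑ v, ∑ i, Real.log (w v (Az v i)) with hSdef
  have hS0 : S < 0 := hneg
  -- `n > 0`
  have hn : 0 < n := by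
    rcases Nat.eq_zero_or_pos n with h0 | h0
    · subst h0
      simp [hSdef] at hS0
    · exact h0
  have hnR : (0 : ℝ) < n := by exact_mod_cast hn
  -- the entries are not zero
  have hAz0 : ∀ v i, Az v i ≠ 0 := by
    intro v i h0
    refine hA v (Matrix.det_eq_zero_of_row_eq_zero i fun j => ?_)
    refine Fintype.linearIndependent_iff.1 hind (fun j => A v i j) ?_ j
    rw [← h0, hAz]
    exact Finset.sum_congr rfl fun j _ => Algebra.smul_def _ _
  set c : ℝ := -S / ((pl + 1) * n) with hc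
  have hc0 : 0 < c := by
    rw [hc]
    apply div_pos (by linarith) (by positivity)
  set a : Fin (pl + 1) → Fin n → ℝ := fun v i => Real.log (w v (Az v i)) + c with ha
  have hsuma : ∑ v, ∑ i, a v i = 0 := by
    rw [ha]
    simp only [Finset.sum_add_distrib, Finset.sum_const, Finset.card_univ, Fintype.card_fin, nsmul_eq_mul]
    rw [← hSdef, hc]
    push_cast
    field_simp
    ring
  have hval : ∀ v i, w v (Az v i) = Real.exp (a v i - c) := by
    intro v i
    rw [ha]
    simp only [add_sub_cancel_right]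
    rw [Real.exp_log ((w v).pos (hAz0 v i))]
  obtain ⟨G, V, ρ, hG, hV, hGV, hO⟩ := hS (Fin n) A hA a
  have hVG : V * G = 1 := mul_eq_one_comm.1 hGV
  set x : Fin n → 𝕂 := fun j => ∑ i, V j i * z i with hx
  have hxO : ∀ j, x j ∈ O := fun j => O.sum_mem fun i _ => O.mul_mem (hV j i) (hz i)
  have hAzv : ∀ v, (up 𝕂 (A v)).mulVec z = Az v := by
    intro v
    funext i
    rfl
  have hxv : ∀ v j, x j = ∑ i, (V * up 𝕂 (A v)⁻¹) j i * Az v i := by
    intro v j
    have h1 : (V * up 𝕂 (A v)⁻¹).mulVec (Az v) = V.mulVec z := by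
      rw [← hAzv v, Matrix.mulVec_mulVec, Matrix.mul_assoc, up_inv_mul_up (hA v), Matrix.mul_one]
    exact (congrFun h1 j).symm
  have hxle : ∀ v j, w v (x j) ≤ Real.exp (-ρ v j - c) := by
    intro v j
    rw [hxv v j]
    refine val_sum_le (h.nonarch v) _ _ (Real.exp_pos _).le fun i _ => ?_
    rw [map_mul, hval]
    calc w v ((V * up 𝕂 (A v)⁻¹) j i) * Real.exp (a v i - c) ≤
        Real.exp (-(a v i + ρ v j)) * Real.exp (a v i - c) := by
          gcongr
          exact (hO v).row j i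
      _ = Real.exp (-ρ v j - c) := by
          rw [← Real.exp_add]
          congr 1
          ring
  set μ : Fin n → ℝ := fun j => ∑ v, ρ v j with hμ
  have hμneg : ∀ j, x j ≠ 0 → μ j < 0 := by
    intro j hj
    have h1 : 1 ≤ ∏ v, w v (x j) := h.prod _ (hxO j) hj
    have h2 : ∏ v, w v (x j) ≤ ∏ v : Fin (pl + 1), Real.exp (-ρ v j - c) :=
      Finset.prod_le_prod (fun v _ => (w v).nonneg _) fun v _ => hxle v j
    rw [← Real.exp_sum] at h2
    have h3 := Real.one_le_exp_iff.1 (h1.trans h2)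
    have h4 : ∑ v : Fin (pl + 1), (-ρ v j - c) = -μ j - (pl + 1) * c := by
      rw [hμ, Finset.sum_sub_distrib, Finset.sum_neg_distrib]
      simp
    rw [h4] at h3
    have h5 : 0 < ((pl : ℝ) + 1) * c := by positivity
    linarith
  have hsumμ : ∑ j, μ j = 0 := by
    have h1 := sum_mu h hA hG hV hGV hO
    rw [hsuma, zero_add, Finset.sum_comm] at h1
    exact h1
  set K₁ : Finset (Fin n) := Finset.univ.filter (fun k => 0 ≤ μ k) with hK₁
  have hK₁m : ∀ k, k ∈ K₁ ↔ 0 ≤ μ k := fun k => by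
    rw [hK₁, Finset.mem_filter]
    simp
  have hxK : ∀ k ∈ K₁, x k = 0 := by
    intro k hk
    by_contra hne
    exact absurd ((hK₁m k).1 hk) (not_le.2 (hμneg k hne))
  have hK₁ne : K₁.Nonempty := by
    rw [Finset.nonempty_iff_ne_empty]
    intro h0
    have h1 : ∀ k : Fin n, μ k < 0 := by
      intro k
      by_contra hc'
      have : k ∈ K₁ := (hK₁m k).2 (not_lt.1 hc')
      rw [h0] at this
      exact absurd this (Finset.notMem_empty k)
    have h2 : ∑ j, μ j < 0 := Finset.sum_neg (fun k _ => h1 k) ⟨⟨0, hn⟩, Finset.mem_univ _⟩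
    linarith
  set p : ℕ := K₁.card with hp
  have hp0 : 0 < p := Finset.card_pos.2 hK₁ne
  set K : PSub n p := ⟨K₁, rfl⟩ with hK
  have hcGV : comp p G * comp p V = 1 := by rw [← comp_mul, hGV, comp_one]
  have hcVG : comp p V * comp p G = 1 := by rw [← comp_mul, hVG, comp_one]
  -- a nonzero entry in the row `K`
  obtain ⟨β, hβ⟩ : ∃ β, comp p V K β ≠ 0 := by
    by_contra hno
    push Not at hno
    have h1 := congrFun (congrFun hcVG K) K
    rw [Matrix.mul_apply, Matrix.one_apply_eq] at h1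
    rw [Finset.sum_eq_zero fun β _ => by rw [hno β, zero_mul]] at h1
    exact zero_ne_one h1
  have hκ : ∀ α, ∃ c' : κ, comp p V K α = algebraMap κ 𝕂 c' * comp p V K β := by
    intro α
    refine row_const h (hS (PSub n p)) (hH (PSub n p)) (A := fun v => comp p (A v))
      (fun v => comp_det_ne_zero p (hA v)) (G := comp p G) (V := comp p V) (fun I J => comp_mem O p hG I J)
      (fun I J => comp_mem O p hV I J) hcGV (a := fun v I => ∑ i ∈ I.1, a v i) (ρ := fun v J => ∑ j ∈ J.1, ρ v j)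
      (fun v => ?_) (K₁ := K) (fun K' hK' => ?_) β hβ α
    · have h1 := orth_comp (h.nonarch v) p (hO v)
      rw [comp_mul, comp_mul] at h1
      have h2 : comp p (up 𝕂 (A v)) = up 𝕂 (comp p (A v)) := comp_map _ _ _
      have h3 : comp p (up 𝕂 (A v)⁻¹) = up 𝕂 (comp p (A v))⁻¹ := by
        rw [← comp_inv p (hA v)]
        exact comp_map _ _ _
      rw [h2, h3] at h1
      exact h1
    · rw [Finset.sum_comm, Finset.sum_comm (s := Finset.univ) (t := K.1)]
      refine unique_max_sum μ K₁ hK₁m K'.1 K'.2 fun h0 => hK' (Subtype.ext h0)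
  exact not_indep_of_minors hp0 V K β hβ hκ z (fun k hk => hxK k hk) hind

/-- From `nss_fin` for `z ∘ e`, `(A v).submatrix e e`, `e = (Fintype.equivFin ι).symm`. -/
theorem nss (h : Setting κ O w)
    (hS : ∀ (ι : Type) [Fintype ι] [DecidableEq ι], SplitProp κ O w ι)
    (hH : ∀ (ι : Type) [Fintype ι] [DecidableEq ι], HyperProp κ O w ι) : NssProp κ O w := by
  intro ι _ _ z hz hind A hA
  set e : Fin (Fintype.card ι) ≃ ι := (Fintype.equivFin ι).symm with he
  have h1 := nss_fin h hS hH (z ∘ e) (fun i => hz _) (hind.comp e e.injective)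
    (fun v => (A v).submatrix e e) (fun v => by rw [Matrix.det_submatrix_equiv_self]; exact hA v)
  refine h1.trans (le_of_eq ?_)
  refine Finset.sum_congr rfl fun v _ => ?_
  rw [← Equiv.sum_comp e]
  refine Finset.sum_congr rfl fun i _ => ?_
  rw [← Equiv.sum_comp e (fun j => algebraMap κ 𝕂 (A v (e i) j) * z j)]
  rfl

end Pool.Agent.Lib.MP_9dc83d_nt.Sb

end
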