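import Pool.Agent.Lib.MP_9dc83d_nt.Sub.SplitGerms
import Pool.Agent.Lib.MP_9dc83d_nt.Sub.HyperGerms
import Pool.Agent.Lib.MP_9dc83d_nt.Sub.Nss

/-!
The subspace theorem for germs and its consequence for sums of powers of a fixed integer.
-/

set_option autoImplicit false

section

namespace Pool.Agent.Lib.MP_9dc83d_nt.Sb

open Filter Topology Pool.Agent.Lib.MP_d0d59f_nt.Auto Pool.Agent.Lib.MP_d0d59f_nt.Lin

attribute [local instance] sqAlg

variable {s : ℕ} (p : Fin s → Nat.Primes) {L : ℕ → ℕ} {hL : Tendsto L atTop atTop}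

/-- the subspace theorem for germs (moving targets), places infinity and `p i` -/
theorem nss_germ (hp : Function.Injective p) :
    NssProp (smallField L hL) (OS p L hL) (wv p L hL) :=
  nss (setting_germ p hp) (fun ι _ _ => split_germ p hp ι) (fun ι _ _ => hyper_germ p hp ι)

/-- elements with different values are independent -/
theorem indep_of_values {κ 𝕂 : Type} [Field κ] [Field 𝕂] [Algebra κ 𝕂] (w : AbsoluteValue 𝕂 ℝ)
    (hw : ∀ a b, w (a + b) ≤ max (w a) (w b)) (hc : ∀ c : κ, c ≠ 0 → w (algebraMap κ 𝕂 c) = 1)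
    {ι : Type} [Fintype ι] (z : ι → 𝕂) (hz : ∀ i, z i ≠ 0)
    (hne : ∀ i j, i ≠ j → w (z i) ≠ w (z j)) : LinearIndependent κ z := by
  classical
  rw [Fintype.linearIndependent_iff]
  intro g hg
  by_contra hcon
  push Not at hcon
  obtain ⟨j, hj⟩ := hcon
  set T : Finset ι := Finset.univ.filter (fun i => g i ≠ 0) with hT
  have hTne : T.Nonempty := ⟨j, by simp [hT, hj]⟩
  obtain ⟨i0, hi0, hmax⟩ := Finset.exists_max_image T (fun i => w (z i)) hTne
  have hgi0 : g i0 ≠ 0 := (Finset.mem_filter.1 hi0).2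
  have hval : ∀ i, g i ≠ 0 → w (g i • z i) = w (z i) := by
    intro i hi
    rw [Algebra.smul_def, map_mul, hc _ hi, one_mul]
  have hsum : g i0 • z i0 = -∑ i ∈ Finset.univ.erase i0, g i • z i := by
    have h1 := Finset.add_sum_erase Finset.univ (fun i => g i • z i) (Finset.mem_univ i0)
    rw [hg] at h1
    exact eq_neg_of_add_eq_zero_left h1
  have hpos : 0 < w (z i0) := w.pos (hz i0)
  obtain ⟨C, hC0, hC1, hC⟩ : ∃ C : ℝ, 0 ≤ C ∧ C < w (z i0) ∧ ∀ i ∈ T, i ≠ i0 → w (z i) ≤ C := by
    rcases (T.erase i0).eq_empty_or_nonempty with h | h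
    · refine ⟨0, le_rfl, hpos, fun i hi hne' => ?_⟩
      have : i ∈ T.erase i0 := Finset.mem_erase.2 ⟨hne', hi⟩
      rw [h] at this
      exact absurd this (Finset.notMem_empty i)
    · obtain ⟨i1, hi1, hm1⟩ := Finset.exists_max_image (T.erase i0) (fun i => w (z i)) h
      have h2 := Finset.mem_erase.1 hi1
      exact ⟨w (z i1), w.nonneg _, lt_of_le_of_ne (hmax i1 h2.2) (hne i1 i0 h2.1),
        fun i hi hne' => hm1 i (Finset.mem_erase.2 ⟨hne', hi⟩)⟩
  have h1 : w (∑ i ∈ Finset.univ.erase i0, g i • z i) ≤ C := by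
    refine val_sum_le hw _ _ hC0 fun i hi => ?_
    by_cases hgi : g i = 0
    · rw [hgi, zero_smul, map_zero]
      exact hC0
    · rw [hval i hgi]
      exact hC i (Finset.mem_filter.2 ⟨Finset.mem_univ _, hgi⟩) (Finset.mem_erase.1 hi).1
  have h2 : w (z i0) ≤ C := by
    rw [← hval i0 hgi0, hsum, AbsoluteValue.map_neg]
    exact h1
  linarith

/-- comparison of values -/
theorem wv_sep (v : Fin (s + 1)) {f g : ℕ → ℚ} {y z : bigField L hL} (hf : Rep f y) (hg : Rep g z)
    {δ : ℝ} (h : ∀ᶠ m in (hyperfilter ℕ : Filter ℕ),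
      absv p v (f m) * Real.exp (δ * L m) ≤ absv p v (g m)) :
    wv p L hL v y * Real.exp δ ≤ wv p L hL v z := by
  have h1 := (wv_lim p (hL := hL) v f y hf).mul_const (Real.exp δ)
  have h2 := wv_lim p (hL := hL) v g z hg
  refine le_of_tendsto_of_tendsto h1 h2 ?_
  filter_upwards [h, sq_L_pos hL] with m hm hLm
  have hLm' : (L m : ℝ) ≠ 0 := by exact_mod_cast hLm.ne'
  calc absv p v (f m) ^ ((1 : ℝ) / L m) * Real.exp δ =
        absv p v (f m) ^ ((1 : ℝ) / L m) * (Real.exp (δ * L m)) ^ ((1 : ℝ) / L m) := by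
        rw [← Real.exp_mul]
        congr 2
        field_simp
    _ = (absv p v (f m) * Real.exp (δ * L m)) ^ ((1 : ℝ) / L m) :=
        (Real.mul_rpow ((absv p v).nonneg _) (Real.exp_pos _).le).symm
    _ ≤ absv p v (g m) ^ ((1 : ℝ) / L m) :=
        Real.rpow_le_rpow (mul_nonneg ((absv p v).nonneg _) (Real.exp_pos _).le) hm (by positivity)

/-- the product formula for germs -/
theorem prod_wv_one {f : ℕ → ℚ} {z : bigField L hL} (hf : Rep f z)
    (h : ∀ᶠ m in (hyperfilter ℕ : Filter ℕ), ∏ v, absv p v (f m) = 1) :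
    ∏ v, wv p L hL v z = 1 := by
  have h1 : Tendsto (fun m => ∏ v, (absv p v (f m)) ^ ((1 : ℝ) / L m)) (hyperfilter ℕ)
      (𝓝 (∏ v, wv p L hL v z)) := tendsto_finsetProd _ fun v _ => wv_lim p v f z hf
  refine tendsto_nhds_unique h1 (tendsto_const_nhds.congr' ?_)
  filter_upwards [h] with m hm
  rw [Real.finsetProd_rpow _ _ fun v _ => AbsoluteValue.nonneg _ _, hm, Real.one_rpow]

theorem prod_absv_pow (hp : Function.Injective p) {b : ℕ} {K : ℕ} (hbR : b ∣ RR p ^ K) (n : ℕ) :
    ∏ v, absv p v ((b : ℚ) ^ n) = 1 := by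
  have h1 : b ^ n ∣ RR p ^ (K * n) := by
    rw [pow_mul]
    exact pow_dvd_pow_of_dvd hbR n
  have h2 := prod_den p hp (b ^ n) (K * n) h1
  rw [Fin.prod_univ_succ]
  have h3 : absv p 0 ((b : ℚ) ^ n) = ((b ^ n : ℕ) : ℝ) := by
    rw [absv_zero_eq]
    push_cast
    exact abs_of_nonneg (by positivity)
  rw [h3]
  push_cast at h2 ⊢
  exact h2

/-- a germ of integers -/
theorem exists_germ_int (hp : Function.Injective p) (f : ℕ → ℤ) {C : ℝ}
    (hC : ∀ᶠ m in (hyperfilter ℕ : Filter ℕ), |(f m : ℝ)| ≤ Real.exp (C * L m)) :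
    ∃ z : bigField L hL, z ∈ OS p L hL ∧ Rep (fun m => (f m : ℚ)) z := by
  refine exists_germ_ZS p hp (fun m => int_mem_ZS p _) (C := |C|) ?_
  filter_upwards [hC] with m hm v
  have h0 : (0 : ℝ) ≤ |C| * L m := by positivity
  refine Fin.cases ?_ (fun t => ?_) v
  · rw [absv_zero_eq, Rat.cast_intCast]
    exact hm.trans (Real.exp_le_exp.2 (mul_le_mul_of_nonneg_right (le_abs_self C) (Nat.cast_nonneg _)))
  · exact (absv_int_le p t.succ (Fin.succ_ne_zero t) _).trans (Real.one_le_exp h0)

theorem rep_of_eventually {f g : ℕ → ℚ} {z : bigField L hL} (h : Rep f z)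
    (hfg : ∀ᶠ m in (hyperfilter ℕ : Filter ℕ), f m = g m) : Rep g z := by
  have h1 : (f : QU) = (g : QU) := Germ.coe_eq.2 hfg
  exact h1.symm.trans h

theorem core (hp : Function.Injective p) {b : ℕ} (hb : 2 ≤ b) {K : ℕ} (hbR : b ∣ RR p ^ K)
    (t0 : Fin s) {k : ℕ} (F : Fin (k + 1) → ℕ → ℕ)
    (hF : ∀ i, ∃ C : ℝ, ∀ᶠ m in (hyperfilter ℕ : Filter ℕ), (F i m : ℝ) ≤ C * L m)
    {δ : ℝ} (hδ : 0 < δ) (hsep : ∀ i j, i < j → ∀ᶠ m in (hyperfilter ℕ : Filter ℕ),
      (F i m : ℝ) + δ * L m ≤ F j m)
    (A x : ℕ → ℤ) {η θ : ℝ} (hηθ : η < θ)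
    (hA0 : ∀ᶠ m in (hyperfilter ℕ : Filter ℕ), A m ≠ 0)
    (hA : ∀ᶠ m in (hyperfilter ℕ : Filter ℕ), |(A m : ℝ)| ≤ Real.exp (η * L m))
    (c : Fin (k + 1) → ℕ → ℚ) (hc : ∀ i, (c i : QU) ∈ smallField L hL)
    (hrel : ∀ᶠ m in (hyperfilter ℕ : Filter ℕ), (x m : ℚ) =
      ∑ i, c i m * ((if i = Fin.last k then (A m : ℚ) else 1) * (b : ℚ) ^ (F i m)))
    (i0 : Fin (k + 1)) (hc0 : ∀ᶠ m in (hyperfilter ℕ : Filter ℕ), c i0 m ≠ 0)
    (hB : ∀ᶠ m in (hyperfilter ℕ : Filter ℕ), absv p t0.succ ((b : ℚ) ^ (F i0 m)) = 1)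
    (hx : ∀ᶠ m in (hyperfilter ℕ : Filter ℕ),
      absv p t0.succ (x m : ℚ) ≤ Real.exp (-θ * L m)) : False := by
  classical
  have hb1 : (1 : ℝ) < b := by exact_mod_cast (by omega : 1 < b)
  have hlb : 0 < Real.log b := Real.log_pos hb1
  have hb0 : (b : ℚ) ≠ 0 := by
    have : b ≠ 0 := by omega
    exact_mod_cast this
  -- the germs of the powers
  have hBex : ∀ i, ∃ z : bigField L hL, z ∈ OS p L hL ∧ Rep (fun m => (b : ℚ) ^ (F i m)) z := by
    intro i
    obtain ⟨C, hC⟩ := hF i
    obtain ⟨z, hz, hz'⟩ := exists_germ_int p (hL := hL) hp (fun m => (b : ℤ) ^ (F i m))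
      (C := Real.log b * C) (by
        filter_upwards [hC] with m hm
        push_cast
        rw [abs_of_nonneg (by positivity)]
        have h1 : ((b : ℝ)) ^ (F i m) = Real.exp (Real.log b * F i m) := by
          rw [← Real.rpow_natCast, Real.rpow_def_of_pos (by linarith)]
        rw [h1]
        apply Real.exp_le_exp.2
        rw [mul_assoc]
        exact mul_le_mul_of_nonneg_left hm hlb.le)
    refine ⟨z, hz, ?_⟩
    have h2 : (fun m => (((b : ℤ) ^ (F i m) : ℤ) : ℚ)) = fun m => (b : ℚ) ^ (F i m) := by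
      funext m
      push_cast
      rfl
    rw [h2] at hz'
    exact hz'
  choose B hBO hBR using hBex
  obtain ⟨zA, hzAO, hzAR⟩ := exists_germ_int p (hL := hL) hp A hA
  have hB0 : ∀ i, B i ≠ 0 := by
    intro i h0
    have h1 := hBR i
    rw [h0] at h1
    obtain ⟨m, hm⟩ := h1.eventually_zero.exists
    exact pow_ne_zero _ hb0 hm
  have hzA0 : zA ≠ 0 := by
    intro h0
    rw [h0] at hzAR
    obtain ⟨m, hm1, hm2⟩ := (hA0.and hzAR.eventually_zero).exists
    exact hm1 (by exact_mod_cast hm2)
  set aA : Fin (k + 1) → bigField L hL := fun i => if i = Fin.last k then zA else 1 with haA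
  have haA0 : ∀ i, aA i ≠ 0 := by
    intro i
    rw [haA]
    simp only
    split_ifs
    · exact hzA0
    · exact one_ne_zero
  set z : Fin (k + 1) → bigField L hL := fun i => aA i * B i with hz
  have hzR : ∀ i, Rep (fun m => (if i = Fin.last k then (A m : ℚ) else 1) * (b : ℚ) ^ (F i m))
      (z i) := by
    intro i
    rw [hz, haA]
    simp only
    by_cases h : i = Fin.last k
    · simp only [h, if_true]
      exact hzAR.mul (hBR _)
    · simp only [h, if_false]
      exact Rep.mul germToolsA_one (hBR i)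
  have hz0 : ∀ i, z i ≠ 0 := fun i => mul_ne_zero (haA0 i) (hB0 i)
  have hzO : ∀ i, z i ∈ OS p L hL := by
    intro i
    rw [hz, haA]
    simp only
    split_ifs
    · exact (OS p L hL).mul_mem hzAO (hBO i)
    · exact (OS p L hL).mul_mem (OS p L hL).one_mem (hBO i)
  -- the archimedean values are increasing
  have hlt : ∀ i j, i < j → wv p L hL 0 (z i) < wv p L hL 0 (z j) := by
    intro i j hij
    have h1 : wv p L hL 0 (z i) * Real.exp (Real.log b * δ) ≤ wv p L hL 0 (z j) := by
      refine wv_sep p 0 (hzR i) (hzR j) ?_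
      filter_upwards [hsep i j hij, hA0] with m hm hm0
      have hi : i ≠ Fin.last k := (lt_of_lt_of_le hij (Fin.le_last j)).ne
      rw [if_neg hi, one_mul]
      have h2 : absv p 0 ((b : ℚ) ^ (F i m)) = Real.exp (Real.log b * F i m) := by
        rw [absv_zero_eq]
        push_cast
        rw [abs_of_nonneg (by positivity), ← Real.rpow_natCast, Real.rpow_def_of_pos (by linarith)]
      have h3 : absv p 0 ((b : ℚ) ^ (F j m)) = Real.exp (Real.log b * F j m) := by
        rw [absv_zero_eq]
        push_cast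
        rw [abs_of_nonneg (by positivity), ← Real.rpow_natCast, Real.rpow_def_of_pos (by linarith)]
      have h4 : (1 : ℝ) ≤ absv p 0 (if j = Fin.last k then (A m : ℚ) else 1) := by
        split_ifs
        · rw [absv_zero_eq, Rat.cast_intCast]
          have h5 : (1 : ℤ) ≤ |A m| := Int.one_le_abs hm0
          exact_mod_cast h5
        · rw [map_one]
      rw [map_mul, h2, h3, ← Real.exp_add]
      calc Real.exp (Real.log b * F i m + Real.log b * δ * L m) ≤ Real.exp (Real.log b * F j m) := by
            apply Real.exp_le_exp.2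
            have h6 := mul_le_mul_of_nonneg_left hm hlb.le
            linarith
        _ ≤ absv p 0 (if j = Fin.last k then (A m : ℚ) else 1) * Real.exp (Real.log b * F j m) :=
            le_mul_of_one_le_left (Real.exp_pos _).le h4
    have h2 : 1 < Real.exp (Real.log b * δ) := Real.one_lt_exp_iff.2 (by positivity)
    have h3 : 0 < wv p L hL 0 (z i) := (wv p L hL 0).pos (hz0 i)
    calc wv p L hL 0 (z i) = wv p L hL 0 (z i) * 1 := (mul_one _).symm
      _ < wv p L hL 0 (z i) * Real.exp (Real.log b * δ) := mul_lt_mul_of_pos_left h2 h3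
      _ ≤ _ := h1
  have hind : LinearIndependent (smallField L hL) z := by
    refine indep_of_values (wv p L hL 0) (wv_nonarch p 0)
      (fun c hc => (setting_germ p hp (L := L) (hL := hL)).const 0 c hc) z hz0 fun i j hij => ?_
    rcases lt_or_gt_of_ne hij with h | h
    · exact (hlt i j h).ne
    · exact (hlt j i h).ne'
  -- the forms
  set cc : Fin (k + 1) → smallField L hL := fun i => ⟨(c i : QU), hc i⟩ with hcc
  have hccR : ∀ i, Rep (c i) (algebraMap (smallField L hL) (bigField L hL) (cc i)) := fun i => rfl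
  have hcc0 : cc i0 ≠ 0 := by
    intro h0
    have h1 : ((c i0 : ℕ → ℚ) : QU) = 0 := congrArg Subtype.val h0
    obtain ⟨m, hm1, hm2⟩ := (hc0.and (sq_germ_zero h1)).exists
    exact hm1 hm2
  set X : bigField L hL := ∑ i, algebraMap (smallField L hL) (bigField L hL) (cc i) * z i with hX
  have hXR : Rep (fun m => (x m : ℚ)) X := by
    have h1 : Rep (fun m => ∑ i, c i m *
        ((if i = Fin.last k then (A m : ℚ) else 1) * (b : ℚ) ^ (F i m))) X :=
      Rep.sum Finset.univ (f := fun i m => c i m *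
        ((if i = Fin.last k then (A m : ℚ) else 1) * (b : ℚ) ^ (F i m)))
        (fun i _ => (hccR i).mul (hzR i))
    exact rep_of_eventually h1 (hrel.mono fun m hm => hm.symm)
  set M : Fin (s + 1) → Matrix (Fin (k + 1)) (Fin (k + 1)) (smallField L hL) := fun v =>
    if v = t0.succ then (1 : Matrix (Fin (k + 1)) (Fin (k + 1)) (smallField L hL)).updateRow i0 cc
      else 1 with hM
  have hMdet : ∀ v, (M v).det ≠ 0 := by
    intro v
    rw [hM]
    simp only
    split_ifs
    · have h1 : ((1 : Matrix (Fin (k + 1)) (Fin (k + 1)) (smallField L hL)).updateRow i0 cc).det =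
          cc i0 := by
        have h2 := Matrix.cramer_transpose_apply
          (1 : Matrix (Fin (k + 1)) (Fin (k + 1)) (smallField L hL)) cc i0
        rw [Matrix.transpose_one, Matrix.cramer_one] at h2
        exact h2.symm
      rw [h1]
      exact hcc0
    · rw [Matrix.det_one]
      exact one_ne_zero
  have key := nss_germ p hp (L := L) (hL := hL) (Fin (k + 1)) z hzO hind M hMdet
  -- the terms
  have hMz : ∀ v i, ∑ j, algebraMap (smallField L hL) (bigField L hL) (M v i j) * z j =
      if v = t0.succ ∧ i = i0 then X else z i := by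
    intro v i
    have hone : ∑ j, algebraMap (smallField L hL) (bigField L hL)
        ((1 : Matrix (Fin (k + 1)) (Fin (k + 1)) (smallField L hL)) i j) * z j = z i := by
      rw [Finset.sum_eq_single i]
      · rw [Matrix.one_apply_eq, map_one, one_mul]
      · intro j _ hj
        rw [Matrix.one_apply_ne hj.symm, map_zero, zero_mul]
      · intro h
        exact absurd (Finset.mem_univ i) h
    by_cases hv : v = t0.succ
    · by_cases hi : i = i0
      · rw [if_pos ⟨hv, hi⟩, hX, hM]
        simp only [hv, if_true, hi]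
        refine Finset.sum_congr rfl fun j _ => ?_
        rw [Matrix.updateRow_self]
      · rw [if_neg (fun h => hi h.2), hM]
        simp only [hv, if_true]
        rw [← hone]
        refine Finset.sum_congr rfl fun j _ => ?_
        rw [Matrix.updateRow_ne hi]
    · rw [if_neg (fun h => hv h.1), hM]
      simp only [hv, if_false]
      exact hone
  -- values of the factors
  have hBprod : ∀ i, ∑ v, Real.log (wv p L hL v (B i)) = 0 := by
    intro i
    have h1 := prod_wv_one p (hBR i) (Eventually.of_forall fun m => prod_absv_pow p hp hbR (F i m))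
    rw [← Real.log_prod fun v _ => ((wv p L hL v).pos (hB0 i)).ne', h1, Real.log_one]
  have hA_le : ∀ v i, Real.log (wv p L hL v (aA i)) ≤
      if v = 0 ∧ i = Fin.last k then η else 0 := by
    intro v i
    by_cases hi : i = Fin.last k
    · have h1 : aA i = zA := by
        rw [haA]
        simp only [hi, if_true]
      rw [h1]
      by_cases hv : v = 0
      · rw [if_pos ⟨hv, hi⟩]
        rw [Real.log_le_iff_le_exp ((wv p L hL v).pos hzA0)]
        refine hzAR.wv_le p v (r := fun _ => η) tendsto_const_nhds ?_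
        filter_upwards [hA] with m hm
        rw [hv, absv_zero_eq, Rat.cast_intCast]
        exact hm
      · rw [if_neg (fun h => hv h.1)]
        refine Real.log_nonpos ((wv p L hL v).nonneg _) ?_
        rw [← Real.exp_zero]
        refine hzAR.wv_le p v (r := fun _ => 0) tendsto_const_nhds ?_
        filter_upwards with m
        rw [zero_mul, Real.exp_zero]
        exact absv_int_le p v hv _
    · rw [if_neg (fun h => hi h.2)]
      have h1 : aA i = 1 := by
        rw [haA]
        simp only [hi, if_false]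
      rw [h1, map_one, Real.log_one]
  have hB1 : Real.log (wv p L hL t0.succ (B i0)) = 0 := by
    have h1 : wv p L hL t0.succ (B i0) = 1 := by
      refine sq_val_eq (wv_lim p t0.succ) (hBR i0) ?_
      refine tendsto_const_nhds.congr' ?_
      filter_upwards [hB] with m hm
      rw [hm, Real.one_rpow]
    rw [h1, Real.log_one]
  have hXne : X ≠ 0 := by
    intro h0
    have h1 := Fintype.linearIndependent_iff.1 hind cc (by
      rw [← h0, hX]
      exact Finset.sum_congr rfl fun i _ => Algebra.smul_def _ _) i0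
    exact hcc0 h1
  have hXle : Real.log (wv p L hL t0.succ X) ≤ -θ := by
    rw [Real.log_le_iff_le_exp ((wv p L hL t0.succ).pos hXne)]
    exact hXR.wv_le p t0.succ (r := fun _ => -θ) tendsto_const_nhds hx
  -- the sum
  have hterm : ∀ v i, Real.log (wv p L hL v
      (∑ j, algebraMap (smallField L hL) (bigField L hL) (M v i j) * z j)) ≤
      Real.log (wv p L hL v (B i)) + ((if v = 0 ∧ i = Fin.last k then η else 0) +
        (if v = t0.succ ∧ i = i0 then -θ else 0)) := by
    intro v i
    rw [hMz]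
    by_cases h : v = t0.succ ∧ i = i0
    · rw [if_pos h, if_pos h]
      obtain ⟨rfl, rfl⟩ := h
      rw [hB1, if_neg (fun h => Fin.succ_ne_zero t0 h.1)]
      linarith
    · rw [if_neg h, if_neg h, hz]
      simp only
      rw [map_mul, Real.log_mul ((wv p L hL v).pos (haA0 i)).ne' ((wv p L hL v).pos (hB0 i)).ne']
      have := hA_le v i
      linarith
  have h1 : ∑ v, ∑ i, Real.log (wv p L hL v
      (∑ j, algebraMap (smallField L hL) (bigField L hL) (M v i j) * z j)) ≤
      ∑ v : Fin (s + 1), ∑ i : Fin (k + 1), (Real.log (wv p L hL v (B i)) +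
        ((if v = 0 ∧ i = Fin.last k then η else 0) +
        (if v = t0.succ ∧ i = i0 then -θ else 0))) :=
    Finset.sum_le_sum fun v _ => Finset.sum_le_sum fun i _ => hterm v i
  have h2 : ∑ v : Fin (s + 1), ∑ i : Fin (k + 1), (Real.log (wv p L hL v (B i)) +
        ((if v = 0 ∧ i = Fin.last k then η else 0) +
        (if v = t0.succ ∧ i = i0 then -θ else 0))) = η - θ := by
    simp only [Finset.sum_add_distrib]
    have e1 : ∑ v : Fin (s + 1), ∑ i : Fin (k + 1), Real.log (wv p L hL v (B i)) = 0 := by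
      rw [Finset.sum_comm]
      exact Finset.sum_eq_zero fun i _ => hBprod i
    have e2 : ∀ (v0 : Fin (s + 1)) (j0 : Fin (k + 1)) (y : ℝ), ∑ v : Fin (s + 1),
        ∑ i : Fin (k + 1), (if v = v0 ∧ i = j0 then y else 0) = y := by
      intro v0 j0 y
      rw [Finset.sum_eq_single v0, Finset.sum_eq_single j0]
      · simp
      · intro i _ hi
        rw [if_neg (fun h => hi h.2)]
      · intro h
        exact absurd (Finset.mem_univ _) h
      · intro v _ hv
        exact Finset.sum_eq_zero fun i _ => if_neg (fun h => hv h.1)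
      · intro h
        exact absurd (Finset.mem_univ _) h
    rw [e1, e2, e2]
    ring
  rw [h2] at h1
  linarith

end Pool.Agent.Lib.MP_9dc83d_nt.Sb

end
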