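import Pool.Agent.Lib.MP_9dc83d_nt.Sub.Places
import Pool.Agent.Lib.MP_d0d59f_nt.Sub.ReducedBases

/-!
Almost orthogonal bases over the ring of the rational numbers whose denominators divide a power of the
product of the primes `p i` (adapted from `Pool.Agent.Lib.MP_d0d59f_nt.Sub.Lattices`).
-/

section

namespace Pool.Agent.Lib.MP_9dc83d_nt.Sb

/-- A subgroup between `N ℤ ^ ι` and `N⁻¹ ℤ ^ ι` is generated by the columns of an invertible matrix `G`.
Proof: multiplication by `N` maps `Λ` isomorphically to a subgroup of `ℤ ^ ι`, which is a free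
`ℤ`-module of finite rank (`Submodule.nonempty_basis_of_pid`, `Submodule.smithNormalForm`); a basis of
`Λ` is linearly independent over `ℚ` (clear denominators; `LinearIndependent.iff_fractionRing`) and
spans `ℚ ^ ι` (as `N e_i ∈ Λ`), so it can be indexed by `ι`. `V = G⁻¹`; every `x ∈ Λ` is `G z` with
`z` integral, and `V x = z`. -/
theorem exists_basis_between {ι : Type} [Fintype ι] [DecidableEq ι] (Λ : AddSubgroup (ι → ℚ))
    (N : ℕ) (hN : N ≠ 0) (h1 : ∀ x : ι → ℤ, (fun i => (N : ℚ) * x i) ∈ Λ)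
    (h2 : ∀ x ∈ Λ, ∀ i, ∃ z : ℤ, (N : ℚ) * x i = z) :
    ∃ G V : Matrix ι ι ℚ, G * V = 1 ∧ (∀ j, (fun i => G i j) ∈ Λ) ∧
      ∀ x ∈ Λ, ∀ j, ∃ z : ℤ, ∑ i, V j i * x i = z := by
  classical
  have hN0 : (N : ℚ) ≠ 0 := Nat.cast_ne_zero.mpr hN
  let S : AddSubgroup (ι → ℤ) :=
    { carrier := {y | (fun i => (y i : ℚ) / N) ∈ Λ}
      zero_mem' := by
        have h : (fun i : ι => (((0 : ι → ℤ) i : ℤ) : ℚ) / (N : ℚ)) = 0 := by
          funext i; simp
        show (fun i : ι => (((0 : ι → ℤ) i : ℤ) : ℚ) / (N : ℚ)) ∈ Λ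
        rw [h]; exact Λ.zero_mem
      add_mem' := by
        intro a b ha hb
        have h : (fun i : ι => (((a + b : ι → ℤ) i : ℤ) : ℚ) / (N : ℚ))
            = (fun i => (a i : ℚ) / N) + (fun i => (b i : ℚ) / N) := by
          funext i; simp [add_div]
        show (fun i : ι => (((a + b : ι → ℤ) i : ℤ) : ℚ) / (N : ℚ)) ∈ Λ
        rw [h]; exact Λ.add_mem ha hb
      neg_mem' := by
        intro a ha
        have h : (fun i : ι => (((-a : ι → ℤ) i : ℤ) : ℚ) / (N : ℚ))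
            = -(fun i => (a i : ℚ) / N) := by
          funext i; simp [neg_div]
        show (fun i : ι => (((-a : ι → ℤ) i : ℤ) : ℚ) / (N : ℚ)) ∈ Λ
        rw [h]; exact Λ.neg_mem ha }
  let M : Submodule ℤ (ι → ℤ) := AddSubgroup.toIntSubmodule S
  have hM : ∀ y : ι → ℤ, y ∈ M ↔ (fun i => (y i : ℚ) / N) ∈ Λ := fun y => Iff.rfl
  have hbig : ∀ x : ι → ℤ, (((N : ℤ) ^ 2) • x) ∈ M := by
    intro x
    rw [hM]
    have h : (fun i : ι => (((((N : ℤ) ^ 2) • x) i : ℤ) : ℚ) / (N : ℚ))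
        = (fun i => (N : ℚ) * x i) := by
      funext i
      simp only [Pi.smul_apply, smul_eq_mul, Int.cast_mul, Int.cast_pow, Int.cast_natCast]
      field_simp
    rw [h]; exact h1 x
  have hNz : ((N : ℤ) ^ 2) ≠ 0 := pow_ne_zero _ (Int.natCast_ne_zero.mpr hN)
  have hfr : Module.finrank ℤ M = Module.finrank ℤ (ι → ℤ) := by
    apply le_antisymm
    · exact Submodule.finrank_le M
    · let f : (ι → ℤ) →ₗ[ℤ] M :=
        LinearMap.codRestrict M (((N : ℤ) ^ 2) • LinearMap.id) (fun x => hbig x)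
      have hf : Function.Injective f := by
        intro a b hab
        have h : ((N : ℤ) ^ 2) • a = ((N : ℤ) ^ 2) • b := congrArg Subtype.val hab
        exact smul_right_injective _ hNz h
      exact LinearMap.finrank_le_finrank_of_injective hf
  obtain ⟨b', a, ab', -⟩ := Submodule.exists_smith_normal_form_of_rank_eq
    (Pi.basisFun ℤ ι) hfr
  have hrepr : ∀ y : M, ∀ k, (y : ι → ℤ) k = ∑ j, ab'.repr y j * (ab' j : ι → ℤ) k := by
    intro y k
    have h := ab'.sum_repr y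
    have h' := congrArg (fun w : M => (w : ι → ℤ) k) h
    simp only [AddSubmonoidClass.coe_finsetSum, Finset.sum_apply, Submodule.coe_smul,
      Pi.smul_apply, smul_eq_mul] at h'
    exact h'.symm
  let G : Matrix ι ι ℚ := fun i j => ((ab' j : ι → ℤ) i : ℚ) / N
  let V : Matrix ι ι ℚ := fun j i =>
    ((ab'.repr ⟨((N : ℤ) ^ 2) • (Pi.single i 1), hbig _⟩ j : ℤ) : ℚ) / N
  have hGV : G * V = 1 := by
    ext k i
    rw [Matrix.mul_apply]
    have h := hrepr ⟨((N : ℤ) ^ 2) • (Pi.single i 1), hbig _⟩ k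
    have h' : (((((N : ℤ) ^ 2) • (Pi.single i 1 : ι → ℤ)) k : ℤ) : ℚ)
        = ∑ j, ((ab'.repr ⟨((N : ℤ) ^ 2) • (Pi.single i 1), hbig _⟩ j : ℤ) : ℚ)
          * ((ab' j : ι → ℤ) k : ℚ) := by
      have h3 := congrArg (fun z : ℤ => (z : ℚ)) h
      simpa only [Int.cast_sum, Int.cast_mul] using h3
    have h4 : ∑ j, G k j * V j i = (((((N : ℤ) ^ 2) • (Pi.single i 1 : ι → ℤ)) k : ℤ) : ℚ)
        / ((N : ℚ) ^ 2) := by
      rw [h', Finset.sum_div]
      apply Finset.sum_congr rfl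
      intro j _
      simp only [G, V]
      field_simp
    rw [h4]
    by_cases hki : k = i
    · subst hki
      simp only [Pi.smul_apply, Pi.single_eq_same, smul_eq_mul, mul_one, Int.cast_pow,
        Int.cast_natCast, Matrix.one_apply_eq]
      exact div_self (pow_ne_zero _ hN0)
    · simp [hki]
  have hVG : V * G = 1 := mul_eq_one_comm.mp hGV
  refine ⟨G, V, hGV, ?_, ?_⟩
  · intro j
    exact (hM _).mp (ab' j).2
  · intro x hx j
    choose y hy using h2 x hx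
    have hyM : y ∈ M := by
      rw [hM]
      have h : (fun i : ι => ((y i : ℤ) : ℚ) / (N : ℚ)) = x := by
        funext i
        rw [← hy i]
        field_simp
      rw [h]; exact hx
    refine ⟨ab'.repr ⟨y, hyM⟩ j, ?_⟩
    have hx' : ∀ i, x i = ∑ l, G i l * ((ab'.repr ⟨y, hyM⟩ l : ℤ) : ℚ) := by
      intro i
      have h := hrepr ⟨y, hyM⟩ i
      have h3 : ((y i : ℤ) : ℚ) = ∑ l, ((ab'.repr ⟨y, hyM⟩ l : ℤ) : ℚ) * ((ab' l : ι → ℤ) i : ℚ) := by
        have h4 := congrArg (fun z : ℤ => (z : ℚ)) h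
        simpa only [Int.cast_sum, Int.cast_mul] using h4
      have h5 : x i = ((y i : ℤ) : ℚ) / N := by
        rw [← hy i]; field_simp
      rw [h5, h3, Finset.sum_div]
      apply Finset.sum_congr rfl
      intro l _
      simp only [G]
      ring
    have hv : (fun i => x i) = G.mulVec (fun l => ((ab'.repr ⟨y, hyM⟩ l : ℤ) : ℚ)) := by
      funext i
      rw [hx' i]; rfl
    have h6 : V.mulVec x = (fun l => ((ab'.repr ⟨y, hyM⟩ l : ℤ) : ℚ)) := by
      have h7 : V.mulVec x = V.mulVec (G.mulVec (fun l => ((ab'.repr ⟨y, hyM⟩ l : ℤ) : ℚ))) :=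
        congrArg V.mulVec hv
      rw [h7, Matrix.mulVec_mulVec, hVG, Matrix.one_mulVec]
    exact congrFun h6 j

end Pool.Agent.Lib.MP_9dc83d_nt.Sb

end

section

namespace Pool.Agent.Lib.MP_9dc83d_nt.Sb

variable {s : ℕ} (p : Fin s → Nat.Primes)

/-- ultrametric bound for sums -/
theorem lattice_sum_le {ι : Type} [Fintype ι] (v : Fin (s + 1)) (hv : v ≠ 0) (f : ι → ℚ) (C : ℝ)
    (hC : 0 ≤ C) (h : ∀ i, absv p v (f i) ≤ C) : absv p v (∑ i, f i) ≤ C := by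
  classical
  have key : ∀ s : Finset ι, absv p v (∑ i ∈ s, f i) ≤ C := by
    intro s
    induction s using Finset.induction_on with
    | empty => simpa using hC
    | insert a s ha ih =>
      rw [Finset.sum_insert ha]
      exact (absv_add_le p v hv _ _).trans (max_le (h a) ih)
  exact key Finset.univ

theorem lattice_bound {ι : Type} [Fintype ι] (f : ι → ℝ) : ∃ K : ℕ, ∀ i, f i ≤ 2 ^ K := by
  obtain ⟨K, hK⟩ := pow_unbounded_of_one_lt (∑ i, |f i|) (one_lt_two : (1 : ℝ) < 2)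
  refine ⟨K, fun i => ?_⟩
  calc f i ≤ |f i| := le_abs_self _
    _ ≤ ∑ i, |f i| :=
      Finset.single_le_sum (f := fun i => |f i|) (fun i _ => abs_nonneg _) (Finset.mem_univ i)
    _ ≤ 2 ^ K := hK.le

theorem two_le_prime (t : Fin s) : (2 : ℝ) ≤ ((p t : ℕ) : ℝ) := by
  exact_mod_cast (p t).2.two_le

theorem prime_pos (t : Fin s) : (0 : ℝ) < ((p t : ℕ) : ℝ) := by
  have := two_le_prime p t
  linarith

theorem lattice_two_le (t : Fin s) (K : ℕ) : (2 : ℝ) ^ K ≤ ((p t : ℕ) : ℝ) ^ K :=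
  pow_le_pow_left₀ (by norm_num) (two_le_prime p t) K

theorem lattice_scale_core {ι : Type} [Fintype ι] (p : ℕ) (hp : p ≠ 1) (x : ι → ℚ) :
    ∃ D' k : ℕ, ¬ p ∣ D' ∧ ∀ i, ∃ z : ℤ, (D' : ℚ) * x i * (p : ℚ) ^ k = z := by
  have hD : ∏ i, (x i).den ≠ 0 := Finset.prod_ne_zero_iff.2 (fun i _ => (x i).den_nz)
  obtain ⟨k, D', hpD, hDe⟩ := Nat.exists_eq_pow_mul_and_not_dvd hD p hp
  refine ⟨D', k, hpD, fun i => ?_⟩
  obtain ⟨m, hm⟩ : (x i).den ∣ ∏ j, (x j).den :=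
    Finset.dvd_prod_of_mem (fun j => (x j).den) (Finset.mem_univ i)
  refine ⟨m * (x i).num, ?_⟩
  have h0 : p ^ k * D' = (x i).den * m := hDe.symm.trans hm
  have h1 : (p : ℚ) ^ k * D' = (x i).den * m := by exact_mod_cast h0
  have h3 := Rat.den_mul_eq_num (x i)
  calc (D' : ℚ) * x i * (p : ℚ) ^ k = ((p : ℚ) ^ k * D') * x i := by ring
    _ = ((x i).den * m) * x i := by rw [h1]
    _ = m * ((x i).den * x i) := by ring
    _ = ((m * (x i).num : ℤ) : ℚ) := by rw [h3]; push_cast; ring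

theorem lattice_scale (hp : Function.Injective p) (t : Fin s) {ι κ : Type} [Fintype ι] [Fintype κ]
    (x : ι → ℚ) (y : Fin s → κ → ℚ) :
    ∃ m : ℕ, absv p t.succ (m : ℚ) = 1 ∧ (∀ i, (m : ℚ) * x i ∈ ZS p) ∧
      ∀ u, u ≠ t → ∀ i, absv p u.succ ((m : ℚ) * y u i) ≤ 1 := by
  classical
  obtain ⟨D', k, hD, hz⟩ := lattice_scale_core (p t : ℕ) (p t).2.one_lt.ne' x
  obtain ⟨l, hl⟩ := lattice_bound (fun r : Fin s × κ => absv p r.1.succ (y r.1 r.2))
  set Q : ℕ := ∏ u ∈ Finset.univ.erase t, (p u : ℕ) with hQ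
  have hRQ : RR p = (p t : ℕ) * Q := by
    rw [RR, hQ, Finset.mul_prod_erase Finset.univ (fun u => (p u : ℕ)) (Finset.mem_univ t)]
  have hQt : ¬ (p t : ℕ) ∣ Q := by
    intro h
    rw [hQ, (p t).2.prime.dvd_finsetProd_iff] at h
    obtain ⟨u, hu, hu'⟩ := h
    exact primes_not_dvd p hp (Finset.ne_of_mem_erase hu).symm hu'
  refine ⟨D' * Q ^ l, ?_, ?_, ?_⟩
  · apply absv_unit_nat
    intro h
    rcases (Nat.Prime.dvd_mul (p t).2).1 h with h | h
    · exact hD h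
    · exact hQt (Nat.Prime.dvd_of_dvd_pow (p t).2 h)
  · intro i
    obtain ⟨z, hz⟩ := hz i
    refine ⟨k, z * Q ^ l * Q ^ k, ?_⟩
    rw [hRQ]
    push_cast at hz ⊢
    rw [mul_pow, ← hz]
    ring
  · intro u hu i
    obtain ⟨q, hq⟩ : (p u : ℕ) ∣ Q :=
      Finset.dvd_prod_of_mem (fun u => (p u : ℕ)) (Finset.mem_erase.2 ⟨hu, Finset.mem_univ u⟩)
    have h1 : ((D' * Q ^ l : ℕ) : ℚ) = ((D' * q ^ l : ℕ) : ℚ) * ((p u : ℕ) : ℚ) ^ l := by
      rw [hq]; push_cast; ring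
    rw [h1, map_mul, map_mul, absv_self_pow]
    have h2 : absv p u.succ ((D' * q ^ l : ℕ) : ℚ) ≤ 1 := absv_nat_le p _ (Fin.succ_ne_zero u) _
    have h3 : absv p u.succ (y u i) ≤ ((p u : ℕ) : ℝ) ^ l := (hl (u, i)).trans (lattice_two_le p u l)
    have h4 : (0 : ℝ) < ((p u : ℕ) : ℝ) ^ l := pow_pos (prime_pos p u) l
    have h5 : 0 ≤ absv p u.succ (y u i) := (absv p u.succ).nonneg _
    calc absv p u.succ ((D' * q ^ l : ℕ) : ℚ) * (((p u : ℕ) : ℝ) ^ l)⁻¹ * absv p u.succ (y u i)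
        ≤ 1 * (((p u : ℕ) : ℝ) ^ l)⁻¹ * ((p u : ℕ) : ℝ) ^ l := by
          refine mul_le_mul (mul_le_mul_of_nonneg_right h2 (by positivity)) h3 h5 (by positivity)
      _ = 1 := by field_simp

/-- the lattice -/
def latticeSub {ι : Type} [Fintype ι] (A : Fin s → Matrix ι ι ℚ) : AddSubgroup (ι → ℚ) where
  carrier := {x | (∀ i, x i ∈ ZS p) ∧ ∀ t i, absv p t.succ (((A t).mulVec x) i) ≤ 1}
  zero_mem' := by
    refine ⟨fun i => (ZS p).zero_mem, fun t i => ?_⟩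
    rw [Matrix.mulVec_zero]; simp
  add_mem' := by
    rintro x y ⟨h1, h2⟩ ⟨g1, g2⟩
    refine ⟨fun i => (ZS p).add_mem (h1 i) (g1 i), fun t i => ?_⟩
    rw [Matrix.mulVec_add]
    exact (absv_add_le p t.succ (Fin.succ_ne_zero t) _ _).trans (max_le (h2 t i) (g2 t i))
  neg_mem' := by
    rintro x ⟨h1, h2⟩
    refine ⟨fun i => (ZS p).neg_mem (h1 i), fun t i => ?_⟩
    rw [Matrix.mulVec_neg, Pi.neg_apply, (absv p t.succ).map_neg]
    exact h2 t i

theorem mem_latticeSub {ι : Type} [Fintype ι] {A : Fin s → Matrix ι ι ℚ} {x : ι → ℚ} :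
    x ∈ latticeSub p A ↔ (∀ i, x i ∈ ZS p) ∧ ∀ t i, absv p t.succ (((A t).mulVec x) i) ≤ 1 :=
  Iff.rfl

/-- bound for a matrix times a vector -/
theorem lattice_mulVec_le {ι : Type} [Fintype ι] (v : Fin (s + 1)) (hv : v ≠ 0) (A : Matrix ι ι ℚ)
    (x : ι → ℚ) (C D : ℝ) (hC : 0 ≤ C) (hD : 0 ≤ D) (h : ∀ i j, absv p v (A i j) ≤ C)
    (h' : ∀ i, absv p v (x i) ≤ D) (i : ι) : absv p v ((A.mulVec x) i) ≤ C * D := by
  have h1 : (A.mulVec x) i = ∑ j, A i j * x j := rfl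
  rw [h1]
  refine lattice_sum_le p v hv _ _ (mul_nonneg hC hD) (fun j => ?_)
  rw [map_mul]
  exact mul_le_mul (h i j) (h' j) ((absv p v).nonneg _) hC

theorem exists_lattice (hp : Function.Injective p) {ι : Type} [Fintype ι] [DecidableEq ι]
    (A : Fin s → Matrix ι ι ℚ) (hA : ∀ t, (A t).det ≠ 0) : ∃ G V : Matrix ι ι ℚ, G * V = 1 ∧
      (∀ i j, G i j ∈ ZS p) ∧ (∀ i j, V i j ∈ ZS p) ∧
      (∀ t i j, absv p t.succ ((A t * G) i j) ≤ 1) ∧
      (∀ t i j, absv p t.succ ((V * (A t)⁻¹) i j) ≤ 1) := by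
  have hu : ∀ t, IsUnit (A t).det := fun t => isUnit_iff_ne_zero.2 (hA t)
  obtain ⟨K1, hK1⟩ := lattice_bound (fun r : Fin s × ι × ι => absv p r.1.succ (A r.1 r.2.1 r.2.2))
  obtain ⟨K2, hK2⟩ := lattice_bound
    (fun r : Fin s × ι × ι => absv p r.1.succ ((A r.1)⁻¹ r.2.1 r.2.2))
  set K := K1 + K2 with hK
  have hmono : ∀ k : ℕ, k ≤ K → (2 : ℝ) ^ k ≤ 2 ^ K := fun k hk =>
    pow_le_pow_right₀ (by norm_num) hk
  have b1 : ∀ t i j, absv p t.succ (A t i j) ≤ ((p t : ℕ) : ℝ) ^ K := fun t i j =>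
    ((hK1 (t, i, j)).trans (hmono K1 (by omega))).trans (lattice_two_le p t K)
  have b2 : ∀ t i j, absv p t.succ ((A t)⁻¹ i j) ≤ ((p t : ℕ) : ℝ) ^ K := fun t i j =>
    ((hK2 (t, i, j)).trans (hmono K2 (by omega))).trans (lattice_two_le p t K)
  have hR : ∀ t, absv p t.succ ((RR p ^ K : ℕ) : ℚ) ≤ (((p t : ℕ) : ℝ) ^ K)⁻¹ := by
    intro t
    obtain ⟨m, hm⟩ := dvd_RR p t
    have h1 : ((RR p ^ K : ℕ) : ℚ) = ((p t : ℕ) : ℚ) ^ K * ((m ^ K : ℕ) : ℚ) := by
      rw [hm]; push_cast; ring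
    rw [h1, map_mul, absv_self_pow]
    have h3 : absv p t.succ ((m ^ K : ℕ) : ℚ) ≤ 1 := absv_nat_le p _ (Fin.succ_ne_zero t) _
    have h4 : (0 : ℝ) < (((p t : ℕ) : ℝ) ^ K)⁻¹ := inv_pos.2 (pow_pos (prime_pos p t) K)
    calc (((p t : ℕ) : ℝ) ^ K)⁻¹ * absv p t.succ ((m ^ K : ℕ) : ℚ) ≤ (((p t : ℕ) : ℝ) ^ K)⁻¹ * 1 :=
          mul_le_mul_of_nonneg_left h3 h4.le
      _ = (((p t : ℕ) : ℝ) ^ K)⁻¹ := mul_one _
  have pp : ∀ t, (0 : ℝ) < ((p t : ℕ) : ℝ) ^ K := fun t => pow_pos (prime_pos p t) K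
  have hin : ∀ x : ι → ℤ, (fun i => ((RR p ^ K : ℕ) : ℚ) * x i) ∈ latticeSub p A := by
    intro x
    refine (mem_latticeSub p).2 ⟨fun i => ?_, fun t i => ?_⟩
    · have h := int_mem_ZS p (((RR p ^ K : ℕ) : ℤ) * x i)
      push_cast at h ⊢
      exact h
    · have h := lattice_mulVec_le p t.succ (Fin.succ_ne_zero t) (A t)
        (fun i => ((RR p ^ K : ℕ) : ℚ) * x i) (((p t : ℕ) : ℝ) ^ K)
        (((p t : ℕ) : ℝ) ^ K)⁻¹ (pp t).le (inv_pos.2 (pp t)).le (b1 t) (fun i => by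
          rw [map_mul]
          calc absv p t.succ ((RR p ^ K : ℕ) : ℚ) * absv p t.succ (x i : ℚ)
                ≤ (((p t : ℕ) : ℝ) ^ K)⁻¹ * 1 :=
                mul_le_mul (hR t) (absv_int_le p t.succ (Fin.succ_ne_zero t) (x i))
                  ((absv p t.succ).nonneg _) (inv_pos.2 (pp t)).le
            _ = (((p t : ℕ) : ℝ) ^ K)⁻¹ := mul_one _) i
      rwa [mul_inv_cancel₀ (pp t).ne'] at h
  have hout : ∀ x ∈ latticeSub p A, ∀ i, ∃ z : ℤ, ((RR p ^ K : ℕ) : ℚ) * x i = z := by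
    intro x hx i
    obtain ⟨hx1, hx2⟩ := (mem_latticeSub p).1 hx
    have c1 : ∀ t, absv p t.succ (x i) ≤ ((p t : ℕ) : ℝ) ^ K := by
      intro t
      have hr2 : (A t)⁻¹.mulVec ((A t).mulVec x) = x := by
        rw [Matrix.mulVec_mulVec, Matrix.nonsing_inv_mul (A t) (hu t), Matrix.one_mulVec]
      have h := lattice_mulVec_le p t.succ (Fin.succ_ne_zero t) (A t)⁻¹ ((A t).mulVec x)
        (((p t : ℕ) : ℝ) ^ K) 1 (pp t).le zero_le_one (b2 t) (hx2 t) i
      rwa [hr2, mul_one] at h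
    obtain ⟨z, hz⟩ := int_of_absv_le p hp (x i) (hx1 i) K c1
    refine ⟨z, ?_⟩
    rw [← hz]
    push_cast
    ring
  obtain ⟨G, V, hGV, hG, hV⟩ := exists_basis_between (latticeSub p A) (RR p ^ K)
    (pow_pos (RR_pos p) K).ne' hin hout
  have hA2 : ∀ t i j, absv p t.succ ((A t * G) i j) ≤ 1 :=
    fun t i j => ((mem_latticeSub p).1 (hG j)).2 t i
  refine ⟨G, V, hGV, fun i j => ((mem_latticeSub p).1 (hG j)).1 i, ?_, hA2, ?_⟩
  · intro i j
    obtain ⟨z, hz⟩ := hV _ (hin (Pi.single j 1)) i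
    refine ⟨K, z, ?_⟩
    rw [← hz, Finset.sum_eq_single j]
    · rw [Pi.single_eq_same]
      push_cast
      ring
    · intro b _ hb
      rw [Pi.single_eq_of_ne hb]
      simp
    · intro h
      exact absurd (Finset.mem_univ j) h
  · intro t j i
    obtain ⟨m, hs1, hs2, hs3⟩ := lattice_scale p hp t (fun i' => (A t)⁻¹ i' i)
      (fun u => (A u).mulVec (fun i' => (A t)⁻¹ i' i))
    have hmem : (fun i' => (m : ℚ) * (A t)⁻¹ i' i) ∈ latticeSub p A := by
      have hsm : (fun i' => (m : ℚ) * (A t)⁻¹ i' i) = (m : ℚ) • (fun i' => (A t)⁻¹ i' i) := rfl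
      refine (mem_latticeSub p).2 ⟨hs2, fun u i' => ?_⟩
      by_cases hut : u = t
      · subst hut
        rw [hsm, Matrix.mulVec_smul, Pi.smul_apply, smul_eq_mul, map_mul, hs1, one_mul]
        have h1 : (A u).mulVec (fun i' => (A u)⁻¹ i' i) i' = (A u * (A u)⁻¹) i' i := rfl
        rw [h1, Matrix.mul_nonsing_inv (A u) (hu u), Matrix.one_apply]
        split_ifs
        · simp
        · simp
      · rw [hsm, Matrix.mulVec_smul, Pi.smul_apply, smul_eq_mul]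
        exact hs3 u hut i'
    obtain ⟨z, hz⟩ := hV _ hmem j
    have h2 : (m : ℚ) * (V * (A t)⁻¹) j i = z := by
      rw [← hz, Matrix.mul_apply, Finset.mul_sum]
      exact Finset.sum_congr rfl (fun i' _ => by ring)
    have h3 := absv_int_le p t.succ (Fin.succ_ne_zero t) z
    rw [← h2, map_mul, hs1, one_mul] at h3
    exact h3

end Pool.Agent.Lib.MP_9dc83d_nt.Sb

end

section

namespace Pool.Agent.Lib.MP_9dc83d_nt.Sb

open Pool.Agent.Lib.MP_d0d59f_nt.Sb (IsNorm)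

variable {s : ℕ} (p : Fin s → Nat.Primes)

theorem StdSplit_sum_le (v : Fin (s + 1)) (hv : v ≠ 0) {κ : Type} (T : Finset κ) (f : κ → ℚ) (B : ℝ)
    (hB : 0 ≤ B) (h : ∀ t ∈ T, absv p v (f t) ≤ B) : absv p v (∑ t ∈ T, f t) ≤ B := by
  classical
  induction T using Finset.induction_on with
  | empty => simpa using hB
  | insert a s ha ih =>
    rw [Finset.sum_insert ha]
    refine (absv_add_le p v hv _ _).trans (max_le (h a (Finset.mem_insert_self _ _)) ?_)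
    exact ih fun t ht => h t (Finset.mem_insert_of_mem ht)

theorem StdSplit_sum_mem {κ : Type} (T : Finset κ) (f : κ → ℚ) (h : ∀ t ∈ T, f t ∈ ZS p) :
    ∑ t ∈ T, f t ∈ ZS p := Subring.sum_mem (ZS p) h

/-- the weighted maximum norm of `M x` -/
noncomputable def StdSplit_N {ι : Type} [Fintype ι] [Nonempty ι] (M : Matrix ι ι ℚ) (α : ι → ℝ)
    (x : ι → ℚ) : ℝ :=
  Finset.univ.sup' Finset.univ_nonempty fun i => |((M.mulVec x i : ℚ) : ℝ)| / α i

theorem StdSplit_le_N {ι : Type} [Fintype ι] [Nonempty ι] (M : Matrix ι ι ℚ) (α : ι → ℝ)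
    (x : ι → ℚ) (i : ι) : |((M.mulVec x i : ℚ) : ℝ)| / α i ≤ StdSplit_N M α x :=
  Finset.le_sup' (fun i => |((M.mulVec x i : ℚ) : ℝ)| / α i) (Finset.mem_univ i)

theorem StdSplit_N_le {ι : Type} [Fintype ι] [Nonempty ι] (M : Matrix ι ι ℚ) (α : ι → ℝ)
    (x : ι → ℚ) (B : ℝ) (h : ∀ i, |((M.mulVec x i : ℚ) : ℝ)| / α i ≤ B) :
    StdSplit_N M α x ≤ B :=
  Finset.sup'_le _ _ fun i _ => h i

theorem StdSplit_N_eq {ι : Type} [Fintype ι] [Nonempty ι] (M : Matrix ι ι ℚ) (α : ι → ℝ)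
    (x : ι → ℚ) : ∃ i, StdSplit_N M α x = |((M.mulVec x i : ℚ) : ℝ)| / α i := by
  obtain ⟨i, -, hi⟩ := Finset.exists_mem_eq_sup' (Finset.univ_nonempty (α := ι))
    (fun i => |((M.mulVec x i : ℚ) : ℝ)| / α i)
  exact ⟨i, hi⟩

theorem StdSplit_isNorm {ι : Type} [Fintype ι] [DecidableEq ι] [Nonempty ι] (M : Matrix ι ι ℚ)
    (hM : M.det ≠ 0) (α : ι → ℝ) (hα : ∀ i, 0 < α i) : IsNorm (StdSplit_N M α) := by
  refine ⟨?_, ?_, ?_⟩
  · intro x hx
    have h1 : M.mulVec x ≠ 0 := by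
      intro h
      exact hx (Matrix.eq_zero_of_mulVec_eq_zero hM h)
    obtain ⟨i, hi⟩ := Function.ne_iff.mp h1
    refine lt_of_lt_of_le ?_ (StdSplit_le_N M α x i)
    have : ((M.mulVec x i : ℚ) : ℝ) ≠ 0 := by exact_mod_cast hi
    have h2 := hα i
    positivity
  · intro x y
    refine StdSplit_N_le _ _ _ _ fun i => ?_
    have h1 := StdSplit_le_N M α x i
    have h2 := StdSplit_le_N M α y i
    rw [Matrix.mulVec_add]
    have h3 : |(((M.mulVec x + M.mulVec y) i : ℚ) : ℝ)| / α i ≤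
        |((M.mulVec x i : ℚ) : ℝ)| / α i + |((M.mulVec y i : ℚ) : ℝ)| / α i := by
      rw [← add_div]
      refine div_le_div_of_nonneg_right ?_ (hα i).le
      rw [Pi.add_apply]
      push_cast
      exact abs_add_le _ _
    linarith
  · intro c x
    have hterm : ∀ i, |((M.mulVec (c • x) i : ℚ) : ℝ)| / α i =
        |(c : ℝ)| * (|((M.mulVec x i : ℚ) : ℝ)| / α i) := by
      intro i
      rw [Matrix.mulVec_smul, Pi.smul_apply, smul_eq_mul]
      push_cast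
      rw [abs_mul]
      ring
    refine le_antisymm (StdSplit_N_le _ _ _ _ fun i => ?_) ?_
    · rw [hterm i]
      exact mul_le_mul_of_nonneg_left (StdSplit_le_N M α x i) (abs_nonneg _)
    · obtain ⟨i, hi⟩ := StdSplit_N_eq M α x
      rw [hi, ← hterm i]
      exact StdSplit_le_N M α (c • x) i

theorem StdSplit_finite {ι : Type} [Fintype ι] [DecidableEq ι] [Nonempty ι] (M : Matrix ι ι ℚ)
    (hM : M.det ≠ 0) (α : ι → ℝ) (hα : ∀ i, 0 < α i) (R : ℝ) :
    {x : ι → ℤ | StdSplit_N M α (fun i => (x i : ℚ)) ≤ R}.Finite := by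
  set B : ℝ := ∑ j, ∑ i, |((M⁻¹ j i : ℚ) : ℝ)| * (α i * |R|) with hB
  have hBj : ∀ j, ∑ i, |((M⁻¹ j i : ℚ) : ℝ)| * (α i * |R|) ≤ B := fun j =>
    Finset.single_le_sum (f := fun j => ∑ i, |((M⁻¹ j i : ℚ) : ℝ)| * (α i * |R|))
      (fun j _ => Finset.sum_nonneg fun i _ => by have := hα i; positivity) (Finset.mem_univ j)
  refine (Set.finite_Icc (fun _ : ι => -⌈B⌉) (fun _ : ι => ⌈B⌉)).subset ?_
  intro x hx
  have hx' : StdSplit_N M α (fun i => (x i : ℚ)) ≤ R := hx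
  have hunit : IsUnit M.det := isUnit_iff_ne_zero.mpr hM
  have hb : ∀ j, |((x j : ℤ) : ℝ)| ≤ B := by
    intro j
    refine le_trans ?_ (hBj j)
    have h1 : (M⁻¹).mulVec (M.mulVec (fun i => (x i : ℚ))) = fun i => (x i : ℚ) := by
      rw [Matrix.mulVec_mulVec, Matrix.nonsing_inv_mul _ hunit, Matrix.one_mulVec]
    have h2 : ((x j : ℤ) : ℝ) = ∑ i, ((M⁻¹ j i : ℚ) : ℝ) *
        ((M.mulVec (fun i => (x i : ℚ)) i : ℚ) : ℝ) := by
      have := congrFun h1 j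
      have h3 : ((x j : ℤ) : ℚ) = ∑ i, M⁻¹ j i * M.mulVec (fun i => (x i : ℚ)) i := by
        rw [← this]; rfl
      have h4 := congrArg (fun q : ℚ => (q : ℝ)) h3
      push_cast at h4
      exact h4
    rw [h2]
    refine (Finset.abs_sum_le_sum_abs _ _).trans (Finset.sum_le_sum fun i _ => ?_)
    rw [abs_mul]
    refine mul_le_mul_of_nonneg_left ?_ (abs_nonneg _)
    have h5 := (StdSplit_le_N M α (fun i => (x i : ℚ)) i).trans hx'
    rw [div_le_iff₀ (hα i)] at h5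
    have h6 : R * α i ≤ α i * |R| := by
      rw [mul_comm]
      exact mul_le_mul_of_nonneg_left (le_abs_self R) (hα i).le
    linarith
  have hbz : ∀ j, |x j| ≤ ⌈B⌉ := by
    intro j
    have h1 : ((|x j| : ℤ) : ℝ) ≤ (⌈B⌉ : ℝ) := by
      push_cast
      exact (hb j).trans (Int.le_ceil B)
    exact_mod_cast h1
  exact ⟨fun j => (abs_le.mp (hbz j)).1, fun j => (abs_le.mp (hbz j)).2⟩


theorem std_split (hp : Function.Injective p) (ι : Type) [Fintype ι] [DecidableEq ι] :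
    ∃ C : ℝ, 1 ≤ C ∧
    ∀ (A : Fin (s + 1) → Matrix ι ι ℚ), (∀ v, (A v).det ≠ 0) → ∀ α : ι → ℝ, (∀ i, 0 < α i) →
    ∀ k : Fin s → ι → ℤ, ∃ (G V : Matrix ι ι ℚ) (ρ : ι → ℝ), G * V = 1 ∧ (∀ i j, G i j ∈ ZS p) ∧
      (∀ i j, V i j ∈ ZS p) ∧ (∀ j, 0 < ρ j) ∧
      (∀ i j, absv p 0 ((A 0 * G) i j) ≤ α i * ρ j) ∧
      (∀ j i, absv p 0 ((V * (A 0)⁻¹) j i) ≤ C / (α i * ρ j)) ∧
      (∀ t i j, absv p t.succ ((A t.succ * G) i j) ≤ ((p t : ℕ) : ℝ) ^ k t i) ∧
      (∀ t j i, absv p t.succ ((V * (A t.succ)⁻¹) j i) ≤ ((p t : ℕ) : ℝ) ^ (-k t i)) := by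
  rcases isEmpty_or_nonempty ι with hι | hι
  · refine ⟨1, le_rfl, fun A _ α _ k => ⟨1, 1, fun i => (hι.false i).elim, ?_, ?_⟩⟩
    · simp
    · exact ⟨fun i => (hι.false i).elim, fun i => (hι.false i).elim, fun i => (hι.false i).elim,
        fun i => (hι.false i).elim, fun i => (hι.false i).elim, fun _ i => (hι.false i).elim,
        fun _ i => (hι.false i).elim⟩
  obtain ⟨C, hC, hred⟩ := Pool.Agent.Lib.MP_d0d59f_nt.Sb.reduced_matrix ι
  refine ⟨C, hC, fun A hA α hα k => ?_⟩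
  have hq0 : ∀ t, ((p t : ℕ) : ℚ) ≠ 0 := fun t => by exact_mod_cast (p t).2.ne_zero
  set D : Fin s → Matrix ι ι ℚ := fun t => Matrix.diagonal (fun i => ((p t : ℕ) : ℚ) ^ (k t i)) with hD
  have hDdet : ∀ t, (D t).det ≠ 0 := by
    intro t
    rw [hD, Matrix.det_diagonal]
    exact Finset.prod_ne_zero_iff.mpr fun i _ => zpow_ne_zero _ (hq0 t)
  have hDinv : ∀ t, (D t)⁻¹ = Matrix.diagonal (fun i => ((p t : ℕ) : ℚ) ^ (-k t i)) := by
    intro t
    refine Matrix.inv_eq_right_inv ?_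
    rw [hD, Matrix.diagonal_mul_diagonal, ← Matrix.diagonal_one]
    congr 1
    funext i
    rw [← zpow_add₀ (hq0 t)]
    simp
  obtain ⟨G₀, V₀, hGV, hG0, hV0, h1, h1'⟩ := exists_lattice p hp (fun t => D t * A t.succ)
    (fun t => by rw [Matrix.det_mul]; exact mul_ne_zero (hDdet t) (hA t.succ))
  -- the p-adic conditions
  have p1 : ∀ t i j, absv p t.succ ((A t.succ * G₀) i j) ≤ ((p t : ℕ) : ℝ) ^ k t i := by
    intro t i j
    have hpos := prime_pos p t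
    have h := h1 t i j
    rw [Matrix.mul_assoc, hD, Matrix.diagonal_mul, map_mul, absv_self_zpow, zpow_neg] at h
    rw [inv_mul_le_iff₀ (by positivity)] at h
    simpa using h
  have p1' : ∀ t j i, absv p t.succ ((V₀ * (A t.succ)⁻¹) j i) ≤ ((p t : ℕ) : ℝ) ^ (-k t i) := by
    intro t j i
    have hpos := prime_pos p t
    have h := h1' t j i
    rw [Matrix.mul_inv_rev, ← Matrix.mul_assoc, hDinv, Matrix.mul_diagonal, map_mul,
      absv_self_zpow, neg_neg] at h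
    rw [zpow_neg]
    rw [← le_div_iff₀ (by positivity)] at h
    simpa using h
  -- the norm
  have hG0det : G₀.det ≠ 0 := by
    intro h
    have := congrArg Matrix.det hGV
    rw [Matrix.det_mul, h, zero_mul, Matrix.det_one] at this
    exact zero_ne_one this
  have hMdet : (A 0 * G₀).det ≠ 0 := by
    rw [Matrix.det_mul]; exact mul_ne_zero (hA 0) hG0det
  obtain ⟨U, V, hUV, hUV'⟩ := hred (StdSplit_N (A 0 * G₀) α)
    (StdSplit_isNorm _ hMdet α hα) (StdSplit_finite _ hMdet α hα)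
  set U' : Matrix ι ι ℚ := U.map (Int.castRingHom ℚ) with hU'
  set V' : Matrix ι ι ℚ := V.map (Int.castRingHom ℚ) with hV'
  have hUVq : U' * V' = 1 := by
    rw [hU', hV', ← Matrix.map_mul, hUV, Matrix.map_one _ (map_zero _) (map_one _)]
  have hU'e : ∀ i j, U' i j = (U i j : ℚ) := fun i j => rfl
  have hV'e : ∀ i j, V' i j = (V i j : ℚ) := fun i j => rfl
  have hcol : ∀ j, (fun i => (U i j : ℚ)) ≠ 0 := by
    intro j h
    have h3 : (1 : Matrix ι ι ℚ) j j = 0 := by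
      have h4 : V' * U' = 1 := mul_eq_one_comm.mp hUVq
      rw [← h4, Matrix.mul_apply]
      refine Finset.sum_eq_zero fun t _ => ?_
      rw [hU'e, congrFun h t, Pi.zero_apply, mul_zero]
    rw [Matrix.one_apply_eq] at h3
    exact one_ne_zero h3
  have hmv : ∀ i j, (A 0 * (G₀ * U')) i j =
      (A 0 * G₀).mulVec (fun i => (U i j : ℚ)) i := by
    intro i j
    rw [← Matrix.mul_assoc, Matrix.mul_apply]
    rfl
  refine ⟨G₀ * U', V' * V₀, fun j => StdSplit_N (A 0 * G₀) α (fun i => (U i j : ℚ)), ?_, ?_, ?_,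
    ?_, ?_, ?_, ?_, ?_⟩
  · rw [Matrix.mul_assoc, ← Matrix.mul_assoc U', hUVq, Matrix.one_mul, hGV]
  · intro i j
    rw [Matrix.mul_apply]
    exact StdSplit_sum_mem p _ _ fun t _ => (ZS p).mul_mem (hG0 i t) (by rw [hU'e]; exact int_mem_ZS p _)
  · intro i j
    rw [Matrix.mul_apply]
    exact StdSplit_sum_mem p _ _ fun t _ => (ZS p).mul_mem (by rw [hV'e]; exact int_mem_ZS p _) (hV0 t j)
  · intro j
    exact (StdSplit_isNorm _ hMdet α hα).pos _ (hcol j)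
  · intro i j
    rw [absv_zero_eq, hmv]
    have h := StdSplit_le_N (A 0 * G₀) α (fun i => (U i j : ℚ)) i
    rw [div_le_iff₀ (hα i)] at h
    rw [mul_comm]
    exact h
  · intro j i
    have hρ : 0 < StdSplit_N (A 0 * G₀) α (fun i => (U i j : ℚ)) :=
      (StdSplit_isNorm _ hMdet α hα).pos _ (hcol j)
    have hA0 : IsUnit (A 0).det := isUnit_iff_ne_zero.mpr (hA 0)
    have h := hUV' (fun j => (V' * V₀ * (A 0)⁻¹) j i) j
    have hx : (fun i' => ∑ j, (U i' j : ℚ) * (V' * V₀ * (A 0)⁻¹) j i) =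
        fun i' => (V₀ * (A 0)⁻¹) i' i := by
      funext i'
      have h5 : ∑ j, (U i' j : ℚ) * (V' * V₀ * (A 0)⁻¹) j i =
          (U' * (V' * V₀ * (A 0)⁻¹)) i' i := by
        rw [Matrix.mul_apply]
        rfl
      rw [h5, Matrix.mul_assoc V', ← Matrix.mul_assoc U', hUVq, Matrix.one_mul]
    rw [hx] at h
    have h6 : (A 0 * G₀).mulVec (fun i' => (V₀ * (A 0)⁻¹) i' i) =
        fun i' => (1 : Matrix ι ι ℚ) i' i := by
      have h7 : (A 0 * G₀) * (V₀ * (A 0)⁻¹) = 1 := by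
        rw [Matrix.mul_assoc, ← Matrix.mul_assoc G₀, hGV, Matrix.one_mul,
          Matrix.mul_nonsing_inv _ hA0]
      funext i'
      rw [← h7, Matrix.mul_apply]
      rfl
    have hN : StdSplit_N (A 0 * G₀) α (fun i' => (V₀ * (A 0)⁻¹) i' i) ≤ 1 / α i := by
      refine StdSplit_N_le _ _ _ _ fun i' => ?_
      rw [h6]
      by_cases hii : i' = i
      · subst hii
        simp
      · have := hα i
        simp only [Matrix.one_apply_ne hii, Rat.cast_zero, abs_zero, zero_div]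
        positivity
    have hC0 : 0 ≤ C := le_trans zero_le_one hC
    have h8 : |(((V' * V₀ * (A 0)⁻¹) j i : ℚ) : ℝ)| *
        StdSplit_N (A 0 * G₀) α (fun i => (U i j : ℚ)) ≤ C * (1 / α i) :=
      h.trans (mul_le_mul_of_nonneg_left hN hC0)
    rw [absv_zero_eq, le_div_iff₀ (mul_pos (hα i) hρ)]
    have h9 : C * (1 / α i) = C / α i := by ring
    rw [h9, le_div_iff₀ (hα i)] at h8
    linarith [h8]
  · intro t i j
    have hpos := prime_pos p t
    rw [← Matrix.mul_assoc, Matrix.mul_apply]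
    refine StdSplit_sum_le p t.succ (Fin.succ_ne_zero t) _ _ _ (by positivity) fun u _ => ?_
    rw [map_mul]
    have h3 := p1 t i u
    have h4 := absv_int_le p t.succ (Fin.succ_ne_zero t) (U u j)
    rw [hU'e]
    calc _ ≤ ((p t : ℕ) : ℝ) ^ k t i * 1 := mul_le_mul h3 h4 ((absv p t.succ).nonneg _) (by positivity)
      _ = _ := mul_one _
  · intro t j i
    have hpos := prime_pos p t
    rw [Matrix.mul_assoc, Matrix.mul_apply]
    refine StdSplit_sum_le p t.succ (Fin.succ_ne_zero t) _ _ _ (by positivity) fun u _ => ?_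
    rw [map_mul]
    have h3 := p1' t u i
    have h4 := absv_int_le p t.succ (Fin.succ_ne_zero t) (V j u)
    rw [hV'e]
    calc _ ≤ 1 * ((p t : ℕ) : ℝ) ^ (-k t i) := mul_le_mul h4 h3 ((absv p t.succ).nonneg _) zero_le_one
      _ = _ := one_mul _

end Pool.Agent.Lib.MP_9dc83d_nt.Sb

end
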