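import Pool.Agent.Lib.MP_9dc83d_nt.Sub.Apply

/-!
No sequence of concatenated integers with a large `p`-part.
-/

set_option autoImplicit false

section

namespace Pool.Agent.Lib.MP_9dc83d_nt.Sb

open Filter Topology Finset Pool.Agent.Lib.MP_d0d59f_nt.Auto Pool.Agent.Lib.MP_d0d59f_nt.Lin

theorem exists_primes {b ℓ : ℕ} (hb : b ≠ 0) (hℓ : ℓ.Prime) : ∃ (s : ℕ) (p : Fin s → Nat.Primes)
    (t0 : Fin s) (K : ℕ), Function.Injective p ∧ (p t0 : ℕ) = ℓ ∧ b ∣ RR p ^ K := by
  classical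
  set S := (b * ℓ).primeFactors with hSdef
  have hS : ∀ q ∈ S, q.Prime := fun q hq => Nat.prime_of_mem_primeFactors hq
  set e := S.equivFin with he
  have hℓS : ℓ ∈ S := Nat.mem_primeFactors.2 ⟨hℓ, dvd_mul_left _ _, mul_ne_zero hb hℓ.ne_zero⟩
  refine ⟨S.card, fun i => ⟨(e.symm i).1, hS _ (e.symm i).2⟩, e ⟨ℓ, hℓS⟩, b, ?_, ?_, ?_⟩
  · intro i j hij
    have h1 : ((e.symm i).1 : ℕ) = (e.symm j).1 := congrArg (fun q : Nat.Primes => (q : ℕ)) hij
    exact e.symm.injective (Subtype.ext h1)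
  · simp
  · have h1 : RR (fun i : Fin S.card => (⟨(e.symm i).1, hS _ (e.symm i).2⟩ : Nat.Primes)) =
        ∏ q ∈ S, q := by
      unfold RR
      rw [← Finset.prod_coe_sort S (fun q => q)]
      exact Fintype.prod_equiv e.symm _ _ (fun i => rfl)
    have h2 : b ∣ (∏ q ∈ b.primeFactors, q) ^ b := by
      conv_lhs => rw [← Nat.prod_factorization_pow_eq_self hb]
      rw [← Finset.prod_pow, Finsupp.prod, Nat.support_factorization]
      exact Finset.prod_dvd_prod_of_dvd _ _ fun q _ => pow_dvd_pow _ (Nat.factorization_lt q hb).le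
    have h3 : (∏ q ∈ b.primeFactors, q) ∣ ∏ q ∈ S, q :=
      Finset.prod_dvd_prod_of_subset _ _ _
        (Nat.primeFactors_mono (dvd_mul_right _ _) (mul_ne_zero hb hℓ.ne_zero))
    rw [h1]
    exact h2.trans (pow_dvd_pow_of_dvd h3 b)

theorem AA_abs_le {b : ℕ} (hb : 2 ≤ b) {D k : ℕ} (hD : k + 1 ≤ D) :
    |((AA b (D - k) : ℤ) : ℝ)| ≤
      Real.exp (2 * Real.log b * ((b : ℝ)⁻¹) ^ k * (((D + 1) * b ^ D : ℕ) : ℝ)) := by
  have hb1 : (1 : ℝ) ≤ b := by exact_mod_cast (by omega : 1 ≤ b)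
  have hb0 : (0 : ℝ) < b := by linarith
  have h1 := AA_le b (D - k) hb
  have h2 := AA_pos b (D - k) hb
  have h3 : 2 * (D - k + 1) + (D - k) * b ^ (D - k) ≤ 2 * ((D + 1) * b ^ (D - k)) := by
    have h4 : 2 ≤ b ^ (D - k) := by
      calc 2 ≤ b ^ 1 := by simpa using hb
        _ ≤ b ^ (D - k) := Nat.pow_le_pow_right (by omega) (by omega)
    have h5 : 2 * (D - k + 1) ≤ b ^ (D - k) * (D + 1) := Nat.mul_le_mul h4 (by omega)
    have h6 : (D - k) * b ^ (D - k) ≤ (D + 1) * b ^ (D - k) := Nat.mul_le_mul_right _ (by omega)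
    linarith
  have h4 : AA b (D - k) ≤ (b : ℤ) ^ (2 * ((D + 1) * b ^ (D - k))) :=
    h1.trans (pow_le_pow_right₀ (by exact_mod_cast (by omega : 1 ≤ b)) h3)
  have h5 : |((AA b (D - k) : ℤ) : ℝ)| ≤ (b : ℝ) ^ (2 * ((D + 1) * b ^ (D - k))) := by
    have h6 : (0 : ℝ) < ((AA b (D - k) : ℤ) : ℝ) := by exact_mod_cast h2
    rw [abs_of_pos h6]
    exact_mod_cast h4
  refine h5.trans (le_of_eq ?_)
  rw [← Real.rpow_natCast, Real.rpow_def_of_pos hb0]
  congr 1
  push_cast
  have e : (b : ℝ) ^ D = (b : ℝ) ^ (D - k) * (b : ℝ) ^ k := by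
    rw [← pow_add]
    congr 1
    omega
  rw [e, inv_pow]
  have hbk : (b : ℝ) ^ k ≠ 0 := by positivity
  field_simp

/-- There is no sequence of concatenated integers with a large `ℓ`-part. -/
theorem no_seq {b : ℕ} (hb : 2 ≤ b) {ℓ : ℕ} (hℓ : ℓ.Prime) (D h : ℕ → ℕ)
    (hD : Tendsto D atTop atTop) (hh1 : ∀ m, 1 ≤ h m) (hh : ∀ m, h m ≤ (b - 1) * b ^ (D m))
    {θ : ℝ} (hθ : 0 < θ)
    (hx : ∀ m, ((ℓ : ℝ) ^ (padicValNat ℓ (conc b (b ^ (D m) - 1 + h m))))⁻¹ ≤
      Real.exp (-θ * (((D m + 1) * b ^ (D m) : ℕ) : ℝ))) : False := by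
  classical
  have hb1 : (1 : ℝ) < b := by exact_mod_cast (by omega : 1 < b)
  have hb0 : (0 : ℝ) < b := by linarith
  have hlb : 0 < Real.log b := Real.log_pos hb1
  obtain ⟨s, p, t0, K, hp, ht0, hbR⟩ := exists_primes (b := b) (by omega) hℓ
  -- the number of blocks
  obtain ⟨k, hk1, hk⟩ : ∃ k : ℕ, 1 ≤ k ∧ 2 * Real.log b * ((b : ℝ)⁻¹) ^ k < θ := by
    obtain ⟨n, hn⟩ := exists_pow_lt_of_lt_one (show 0 < θ / (2 * Real.log b) by positivity)
      (inv_lt_one_of_one_lt₀ hb1)
    refine ⟨n + 1, by omega, ?_⟩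
    rw [lt_div_iff₀ (by positivity)] at hn
    have h1 : ((b : ℝ)⁻¹) ^ (n + 1) ≤ ((b : ℝ)⁻¹) ^ n :=
      pow_le_pow_of_le_one (by positivity) (inv_lt_one_of_one_lt₀ hb1).le (by omega)
    have h2 : 2 * Real.log b * ((b : ℝ)⁻¹) ^ (n + 1) ≤ 2 * Real.log b * ((b : ℝ)⁻¹) ^ n :=
      mul_le_mul_of_nonneg_left h1 (by positivity)
    linarith
  have hL : Tendsto (fun m => (D m + 1) * b ^ D m) atTop atTop := by
    refine tendsto_atTop_mono (fun m => ?_) hD
    have h1 : 1 ≤ b ^ D m := Nat.one_le_pow _ _ (by omega)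
    nlinarith
  have hDev : ∀ N : ℕ, ∀ᶠ m in (hyperfilter ℕ : Filter ℕ), N ≤ D m := fun N =>
    (hD.eventually_ge_atTop N).filter_mono Nat.hyperfilter_le_atTop
  set x : ℕ → ℤ := fun m => (conc b (b ^ (D m) - 1 + h m) : ℤ) with hxdef
  set A : ℕ → ℤ := fun m => AA b (D m - k) with hAdef
  have hA0 : ∀ᶠ m in (hyperfilter ℕ : Filter ℕ), A m ≠ 0 :=
    Eventually.of_forall fun m => (AA_pos b (D m - k) hb).ne'
  have hA : ∀ᶠ m in (hyperfilter ℕ : Filter ℕ), |(A m : ℝ)| ≤
      Real.exp (2 * Real.log b * ((b : ℝ)⁻¹) ^ k * (((D m + 1) * b ^ D m : ℕ) : ℝ)) := by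
    filter_upwards [hDev (k + 1)] with m hm
    exact AA_abs_le hb hm
  have hxp : ∀ᶠ m in (hyperfilter ℕ : Filter ℕ), absv p t0.succ (x m : ℚ) ≤
      Real.exp (-θ * (((D m + 1) * b ^ D m : ℕ) : ℝ)) := by
    filter_upwards with m
    have h1 : conc b (b ^ (D m) - 1 + h m) ≠ 0 := by
      have h2 := le_conc b (b ^ (D m) - 1 + h m) hb
      have h3 := hh1 m
      omega
    have h2 : (x m : ℚ) = ((conc b (b ^ (D m) - 1 + h m) : ℕ) : ℚ) := by
      rw [hxdef]
      push_cast
      rfl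
    rw [h2, absv_natCast p t0 _ h1, ht0]
    exact hx m
  -- small germs
  have hbD : ∀ i : ℕ, Sm _ hL (fun m => (b : ℚ) ^ (D m - i)) := by
    intro i
    refine Sm.of_le hb hD (B := b) hb0.le ?_
    filter_upwards with m
    have h1 : ht ((b : ℚ) ^ (D m - i)) = b ^ (D m - i) := by
      have h2 := ht_nat (b ^ (D m - i))
      push_cast at h2
      rw [h2, max_eq_left (Nat.one_le_pow _ _ (by omega))]
    rw [h1]
    push_cast
    exact pow_le_pow_right₀ hb1.le (by omega)
  have hhS : Sm _ hL (fun m => (h m : ℚ)) := by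
    refine Sm.of_le hb hD (B := b) hb0.le ?_
    filter_upwards with m
    rw [ht_nat, max_eq_left (hh1 m)]
    have h1 : h m ≤ b ^ (D m + 1) := by
      refine (hh m).trans ?_
      rw [pow_succ, mul_comm]
      exact Nat.mul_le_mul_left _ (by omega)
    exact_mod_cast h1
  have hbc : Sm _ hL (fun _ : ℕ => (b : ℚ)) := Sm.const _
  have h1c : Sm _ hL (fun _ : ℕ => (1 : ℚ)) := Sm.const _
  have hvS : ∀ i, Sm _ hL (fun m => vq b (D m - i)) := fun i => Sm.vq (hbD i)
  have hwS : Sm _ hL (fun m => wq b (D m) (h m)) := by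
    have h1 := hbD 0
    simp only [Nat.sub_zero] at h1
    exact Sm.wq h1 hhS
  have hwS' : ∀ i, Sm _ hL (fun m => wq b (D m - i - 1) ((b - 1) * b ^ (D m - i - 1))) := by
    intro i
    have h1 := hbD (i + 1)
    simp only [← Nat.sub_sub] at h1
    refine Sm.wq h1 ?_
    have h2 : Sm _ hL (fun _ : ℕ => ((b - 1 : ℕ) : ℚ)) := Sm.const _
    have h3 := h2.mul h1
    have e : (fun m => (((b - 1) * b ^ (D m - i - 1) : ℕ) : ℚ)) =
        fun m => ((b - 1 : ℕ) : ℚ) * (b : ℚ) ^ (D m - i - 1) := by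
      funext m
      push_cast
      rfl
    rw [e]
    exact h3
  have htS : Sm _ hL (fun m => (((b : ℚ) ^ (D m - k + 1) - 1) ^ 2)⁻¹) := by
    have h1 := (hbc.mul (hbD k)).sub h1c
    have h2 := (h1.mul h1).inv
    have e : (fun m => (((b : ℚ) ^ (D m - k + 1) - 1) ^ 2)⁻¹) =
        fun m => (((b : ℚ) * (b : ℚ) ^ (D m - k) - 1) * ((b : ℚ) * (b : ℚ) ^ (D m - k) - 1))⁻¹ := by
      funext m
      rw [sq, pow_succ (b : ℚ) (D m - k), mul_comm ((b : ℚ) ^ (D m - k)) (b : ℚ)]
    rw [e]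
    exact h2
  -- the expansion
  have hexp : ∀ᶠ m in (hyperfilter ℕ : Filter ℕ), (x m : ℚ) =
      (((b : ℚ) ^ (D m - k + 1) - 1) ^ 2)⁻¹ * (A m : ℚ) *
        (b : ℚ) ^ ((D m + 1) * h m + GG b (D m) k) +
      ∑ i ∈ range k, (vq b (D m - i) - wq b (D m - i - 1) ((b - 1) * b ^ (D m - i - 1))) *
        (b : ℚ) ^ ((D m + 1) * h m + GG b (D m) i) - wq b (D m) (h m) := by
    filter_upwards [hDev k] with m hm
    have h1 := expansion b (D m) hb (h m) (hh m) k hm
    rw [AA_eq b (D m - k) hb] at h1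
    have h2 : (x m : ℚ) = ((conc b (b ^ (D m) - 1 + h m) : ℕ) : ℚ) := by
      rw [hxdef]
      push_cast
      rfl
    rw [h2, h1]
  have hGle : ∀ i, i ≤ k → ∀ m, (GG b (D m) i : ℝ) ≤
      (k * b : ℝ) * (((D m + 1) * b ^ D m : ℕ) : ℝ) := by
    intro i hi m
    have h1 := GG_le b (D m) i hb
    have h2 : i * b * ((D m + 1) * b ^ D m) ≤ k * b * ((D m + 1) * b ^ D m) :=
      Nat.mul_le_mul_right _ (Nat.mul_le_mul_right _ hi)
    exact_mod_cast h1.trans h2
  have hele : ∀ m, (((D m + 1) * h m : ℕ) : ℝ) ≤ (b : ℝ) * (((D m + 1) * b ^ D m : ℕ) : ℝ) := by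
    intro m
    have h1 : (D m + 1) * h m ≤ b * ((D m + 1) * b ^ D m) := by
      calc (D m + 1) * h m ≤ (D m + 1) * (b * b ^ D m) :=
            Nat.mul_le_mul_left _ ((hh m).trans (Nat.mul_le_mul_right _ (by omega)))
        _ = _ := by ring
    exact_mod_cast h1
  set δ₀ : ℝ := 1 / 2 * ((b : ℝ)⁻¹) ^ (k + 1) with hδ₀
  have hδ₀0 : 0 < δ₀ := by positivity
  by_cases hcase : ∀ δ : ℝ, 0 < δ → ∀ᶠ m in (hyperfilter ℕ : Filter ℕ),
      (((D m + 1) * h m : ℕ) : ℝ) ≤ δ * (((D m + 1) * b ^ D m : ℕ) : ℝ)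
  · -- the last block is small
    have hβ : Sm _ hL (fun m => (b : ℚ) ^ ((D m + 1) * h m)) := by
      refine ⟨_, rfl, fun ε hε => ?_⟩
      have hle : 0 < Real.log (1 + ε) := Real.log_pos (by linarith)
      filter_upwards [hcase (Real.log (1 + ε) / Real.log b) (by positivity)] with m hm
      have h1 : ht ((b : ℚ) ^ ((D m + 1) * h m)) = b ^ ((D m + 1) * h m) := by
        have h2 := ht_nat (b ^ ((D m + 1) * h m))
        push_cast at h2
        rw [h2, max_eq_left (Nat.one_le_pow _ _ (by omega))]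
      rw [h1]
      have h2 : ((b ^ ((D m + 1) * h m) : ℕ) : ℝ) =
          Real.exp (Real.log b * (((D m + 1) * h m : ℕ) : ℝ)) := by
        rw [Nat.cast_pow, ← Real.rpow_natCast, Real.rpow_def_of_pos hb0]
      have h3 : (1 + ε) ^ ((D m + 1) * b ^ D m) =
          Real.exp (Real.log (1 + ε) * (((D m + 1) * b ^ D m : ℕ) : ℝ)) := by
        rw [← Real.rpow_natCast, Real.rpow_def_of_pos (by linarith)]
      rw [h2, h3]
      apply Real.exp_le_exp.2
      have h4 := mul_le_mul_of_nonneg_left hm hlb.le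
      refine h4.trans (le_of_eq ?_)
      rw [← mul_assoc, mul_div_cancel₀ _ hlb.ne']
    refine core' p (L := fun m => (D m + 1) * b ^ D m) hL hp hb hbR t0 k
      (fun i m => GG b (D m) i) (fun i hi => ⟨_, Eventually.of_forall (hGle i hi)⟩) hδ₀0
      (fun i hi => ?_) A x hk hA0 hA
      (fun i m => if i = k then (b : ℚ) ^ ((D m + 1) * h m) *
          (((b : ℚ) ^ (D m - k + 1) - 1) ^ 2)⁻¹
        else (b : ℚ) ^ ((D m + 1) * h m) *
          (vq b (D m - i) - wq b (D m - i - 1) ((b - 1) * b ^ (D m - i - 1))) -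
          (if i = 0 then wq b (D m) (h m) else 0)) (fun i hi => ?_) ?_
      (fun m => GG_zero b (D m)) ?_ hxp
    · filter_upwards [hDev (2 * k + 1)] with m hm
      exact GG_step b (D m) i k hb hi hm
    · by_cases hik : i = k
      · simp only [hik, if_true]
        exact hβ.mul htS
      · simp only [hik, if_false]
        by_cases hi0 : i = 0
        · simp only [hi0, if_true]
          exact (hβ.mul ((hvS 0).sub (hwS' 0))).sub hwS
        · simp only [hi0, if_false]
          exact (hβ.mul ((hvS i).sub (hwS' i))).sub (Sm.const 0)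
    · filter_upwards [hexp] with m hm
      rw [hm]
      simp only [if_true]
      have h1 : ∑ i ∈ range k, (if i = k then (b : ℚ) ^ ((D m + 1) * h m) *
          (((b : ℚ) ^ (D m - k + 1) - 1) ^ 2)⁻¹
        else (b : ℚ) ^ ((D m + 1) * h m) *
          (vq b (D m - i) - wq b (D m - i - 1) ((b - 1) * b ^ (D m - i - 1))) -
          (if i = 0 then wq b (D m) (h m) else 0)) * (b : ℚ) ^ (GG b (D m) i) =
          ∑ i ∈ range k, ((vq b (D m - i) - wq b (D m - i - 1) ((b - 1) * b ^ (D m - i - 1))) *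
            (b : ℚ) ^ ((D m + 1) * h m + GG b (D m) i) -
            (if i = 0 then wq b (D m) (h m) * (b : ℚ) ^ (GG b (D m) i) else 0)) := by
        refine Finset.sum_congr rfl fun i hi => ?_
        have hik : i ≠ k := (Finset.mem_range.1 hi).ne
        rw [if_neg hik, pow_add]
        split_ifs
        · ring
        · ring
      rw [h1, Finset.sum_sub_distrib, Finset.sum_ite_eq' (range k) 0
        (fun i => wq b (D m) (h m) * (b : ℚ) ^ (GG b (D m) i)),
        if_pos (Finset.mem_range.2 (by omega)), GG_zero, pow_zero, mul_one, pow_add]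
      ring
    · filter_upwards [hDev 1] with m hm
      have hk0 : (0 : ℕ) ≠ k := by omega
      rw [if_neg hk0, if_pos rfl]
      have h1 := vq_le_one b (D m) hb hm
      have h2 := one_lt_wq b (D m - 1) hb
      have h3 := wq_pos b (D m) (h m) hb
      have h4 : (0 : ℚ) < (b : ℚ) ^ ((D m + 1) * h m) := by
        have : (0 : ℚ) < b := by exact_mod_cast (by omega : 0 < b)
        positivity
      simp only [Nat.sub_zero]
      have h5 : (b : ℚ) ^ ((D m + 1) * h m) *
          (vq b (D m) - wq b (D m - 1) ((b - 1) * b ^ (D m - 1))) ≤ 0 :=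
        mul_nonpos_of_nonneg_of_nonpos h4.le (by linarith)
      exact (by linarith : _ < (0 : ℚ)).ne
  · -- the last block is not small
    push Not at hcase
    obtain ⟨δ₁, hδ₁, hfr⟩ := hcase
    have hev : ∀ᶠ m in (hyperfilter ℕ : Filter ℕ),
        δ₁ * (((D m + 1) * b ^ D m : ℕ) : ℝ) ≤ (((D m + 1) * h m : ℕ) : ℝ) := by
      exact hfr.mono fun m hm => hm.le
    have hδ : 0 < min δ₀ δ₁ := lt_min hδ₀0 hδ₁
    refine core' p (L := fun m => (D m + 1) * b ^ D m) hL hp hb hbR t0 (k + 1)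
      (fun i m => match i with
        | 0 => 0
        | i + 1 => (D m + 1) * h m + GG b (D m) i) (fun i hi => ?_) hδ
      (fun i hi => ?_) A x hk hA0 hA
      (fun i m => match i with
        | 0 => -wq b (D m) (h m)
        | i + 1 => if i = k then (((b : ℚ) ^ (D m - k + 1) - 1) ^ 2)⁻¹
          else (vq b (D m - i) - wq b (D m - i - 1) ((b - 1) * b ^ (D m - i - 1))))
      (fun i hi => ?_) ?_ (fun m => rfl) ?_ hxp
    · rcases i with _ | i
      · refine ⟨0, Eventually.of_forall fun m => ?_⟩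
        simp
      · refine ⟨(b : ℝ) + (k * b : ℝ), Eventually.of_forall fun m => ?_⟩
        have h1 := hGle i (by omega) m
        have h2 := hele m
        simp only
        push_cast at h1 h2 ⊢
        linarith
    · rcases i with _ | i
      · filter_upwards [hev] with m hm
        simp only [GG_zero, add_zero]
        have h1 : min δ₀ δ₁ * (((D m + 1) * b ^ D m : ℕ) : ℝ) ≤
            δ₁ * (((D m + 1) * b ^ D m : ℕ) : ℝ) :=
          mul_le_mul_of_nonneg_right (min_le_right _ _) (Nat.cast_nonneg _)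
        rw [Nat.cast_zero, zero_add]
        exact h1.trans hm
      · filter_upwards [hDev (2 * k + 1)] with m hm
        have h1 := GG_step b (D m) i k hb (by omega) hm
        have h2 : min δ₀ δ₁ * (((D m + 1) * b ^ D m : ℕ) : ℝ) ≤
            δ₀ * (((D m + 1) * b ^ D m : ℕ) : ℝ) :=
          mul_le_mul_of_nonneg_right (min_le_left _ _) (Nat.cast_nonneg _)
        rw [← hδ₀] at h1
        rw [Nat.cast_add ((D m + 1) * h m) (GG b (D m) i),
          Nat.cast_add ((D m + 1) * h m) (GG b (D m) (i + 1))]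
        linarith
    · rcases i with _ | i
      · have h1 : Sm _ hL (fun _ : ℕ => (0 : ℚ)) := Sm.const _
        have h2 := h1.sub hwS
        simp only [zero_sub] at h2
        exact h2
      · by_cases hik : i = k
        · simp only [hik, if_true]
          exact htS
        · simp only [hik, if_false]
          exact (hvS i).sub (hwS' i)
    · filter_upwards [hexp] with m hm
      rw [hm, Finset.sum_range_succ']
      simp only [if_true, pow_zero, mul_one]
      have h1 : ∑ i ∈ range k, (if i = k then (((b : ℚ) ^ (D m - k + 1) - 1) ^ 2)⁻¹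
          else (vq b (D m - i) - wq b (D m - i - 1) ((b - 1) * b ^ (D m - i - 1)))) *
          (b : ℚ) ^ ((D m + 1) * h m + GG b (D m) i) =
          ∑ i ∈ range k, (vq b (D m - i) - wq b (D m - i - 1) ((b - 1) * b ^ (D m - i - 1))) *
            (b : ℚ) ^ ((D m + 1) * h m + GG b (D m) i) := by
        refine Finset.sum_congr rfl fun i hi => ?_
        rw [if_neg (Finset.mem_range.1 hi).ne]
      rw [h1]
      ring
    · filter_upwards with m
      exact (neg_lt_zero.2 (wq_pos b (D m) (h m) hb)).ne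

end Pool.Agent.Lib.MP_9dc83d_nt.Sb

end
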