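import Pool.Agent.Lib.MP_d0d59f_nt.Sub.Heights

/-!
The absolute values of the rational numbers at infinity and at finitely many primes `p 0, ..., p (s-1)`.
-/

set_option autoImplicit false

section

namespace Pool.Agent.Lib.MP_9dc83d_nt.Sb

open Pool.Agent.Lib.MP_d0d59f_nt.Auto Pool.Agent.Lib.MP_d0d59f_nt.Lin

instance factPrimes (q : Nat.Primes) : Fact (Nat.Prime (q : ℕ)) := ⟨q.2⟩

/-- values of integers -/
theorem padic_int_eq (p : ℕ) [hp : Fact p.Prime] (z : ℤ) (hz : z ≠ 0) :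
    Rat.AbsoluteValue.padic p (z : ℚ) = ((p : ℝ) ^ padicValInt p z)⁻¹ := by
  rw [Rat.AbsoluteValue.padic_eq_padicNorm, padicNorm.eq_zpow_of_nonzero (by exact_mod_cast hz),
    padicValRat.of_int]
  push_cast
  rw [zpow_neg, zpow_natCast]

theorem padic_int_ge (p : ℕ) [hp : Fact p.Prime] (z : ℤ) (hz : z ≠ 0) :
    (1 : ℝ) ≤ Rat.AbsoluteValue.padic p (z : ℚ) * |(z : ℝ)| := by
  have hp0 : (0 : ℝ) < p := by exact_mod_cast hp.1.pos
  have h1 : (p : ℤ) ^ padicValInt p z ∣ z := padicValInt_dvd (p := p) z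
  have h2 : (p : ℤ) ^ padicValInt p z ≤ |z| :=
    Int.le_of_dvd (abs_pos.mpr hz) ((dvd_abs _ _).mpr h1)
  have h3 : (p : ℝ) ^ padicValInt p z ≤ |(z : ℝ)| := by exact_mod_cast h2
  rw [padic_int_eq p z hz, ← div_eq_inv_mul, le_div_iff₀ (by positivity), one_mul]
  exact h3

theorem padic_int_le (p : ℕ) [hp : Fact p.Prime] (z : ℤ) : Rat.AbsoluteValue.padic p (z : ℚ) ≤ 1 := by
  rw [Rat.AbsoluteValue.padic_eq_padicNorm]
  exact_mod_cast padicNorm.of_int (p := p) z

theorem htBound_padic_gen (p : ℕ) [hp : Fact p.Prime] : HtBound (Rat.AbsoluteValue.padic p) := by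
  have hdiv : ∀ q : ℚ, Rat.AbsoluteValue.padic p q * Rat.AbsoluteValue.padic p ((q.den : ℤ) : ℚ) =
      Rat.AbsoluteValue.padic p (q.num : ℚ) := by
    intro q
    rw [← map_mul]
    congr 1
    push_cast
    exact Rat.mul_den_eq_num q
  have hd : ∀ q : ℚ, (1 : ℝ) ≤ q.den := fun q => by exact_mod_cast q.pos
  refine ⟨fun q => ?_, fun q hq => ?_⟩
  · have h1 := padic_int_ge p (q.den : ℤ) (by exact_mod_cast q.den_ne_zero)
    have h2 := hdiv q
    have h3 := padic_int_le p q.num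
    have h4 : |(((q.den : ℤ)) : ℝ)| = q.den := by
      push_cast
      exact abs_of_nonneg (by positivity)
    rw [h4] at h1
    calc Rat.AbsoluteValue.padic p q = Rat.AbsoluteValue.padic p q * 1 := (mul_one _).symm
      _ ≤ Rat.AbsoluteValue.padic p q * (Rat.AbsoluteValue.padic p ((q.den : ℤ) : ℚ) * q.den) :=
        mul_le_mul_of_nonneg_left h1 (AbsoluteValue.nonneg _ _)
      _ = Rat.AbsoluteValue.padic p (q.num : ℚ) * q.den := by rw [← mul_assoc, h2]
      _ ≤ 1 * q.den := mul_le_mul_of_nonneg_right h3 (by positivity)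
      _ ≤ ht q := by rw [one_mul]; exact al_den_le q
  · have h1 := padic_int_ge p q.num (Rat.num_ne_zero.mpr hq)
    have h2 := hdiv q
    have h3 := padic_int_le p (q.den : ℤ)
    calc (1 : ℝ) ≤ Rat.AbsoluteValue.padic p (q.num : ℚ) * |(q.num : ℝ)| := h1
      _ ≤ Rat.AbsoluteValue.padic p (q.num : ℚ) * ht q :=
        mul_le_mul_of_nonneg_left (al_num_le q) (AbsoluteValue.nonneg _ _)
      _ = Rat.AbsoluteValue.padic p q * Rat.AbsoluteValue.padic p ((q.den : ℤ) : ℚ) * ht q := by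
        rw [h2]
      _ ≤ Rat.AbsoluteValue.padic p q * 1 * ht q := by
        gcongr
      _ = Rat.AbsoluteValue.padic p q * ht q := by rw [mul_one]

theorem padic_unit (p : ℕ) [hp : Fact p.Prime] (m : ℤ) (h : ¬ (p : ℤ) ∣ m) :
    Rat.AbsoluteValue.padic p (m : ℚ) = 1 := by
  rw [Rat.AbsoluteValue.padic_eq_padicNorm, (padicNorm.int_eq_one_iff (p := p) m).mpr h]
  norm_num

theorem padic_self (p : ℕ) [hp : Fact p.Prime] : Rat.AbsoluteValue.padic p (p : ℚ) = (p : ℝ)⁻¹ := by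
  rw [Rat.AbsoluteValue.padic_eq_padicNorm, padicNorm.padicNorm_p hp.1.one_lt]
  push_cast
  rfl

variable {s : ℕ} (p : Fin s → Nat.Primes)

/-- the absolute values at `∞` and at the primes `p i` -/
noncomputable def absv : Fin (s + 1) → AbsoluteValue ℚ ℝ :=
  Fin.cons Rat.AbsoluteValue.real (fun i => Rat.AbsoluteValue.padic (p i : ℕ))

theorem absv_zero_apply (q : ℚ) : absv p 0 q = Rat.AbsoluteValue.real q := rfl

theorem absv_zero_eq (q : ℚ) : absv p 0 q = |(q : ℝ)| := by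
  change Rat.AbsoluteValue.real q = |(q : ℝ)|
  rw [Rat.AbsoluteValue.real_eq_abs]
  push_cast
  rfl

theorem absv_succ_apply (i : Fin s) (q : ℚ) :
    absv p i.succ q = Rat.AbsoluteValue.padic (p i : ℕ) q := rfl

theorem htBound_absv (v : Fin (s + 1)) : HtBound (absv p v) := by
  refine Fin.cases ?_ (fun i => ?_) v
  · exact htBound_real
  · exact htBound_padic_gen (p i : ℕ)

/-- the product of the primes -/
def RR : ℕ := ∏ i, (p i : ℕ)

theorem RR_pos : 0 < RR p := Finset.prod_pos fun i _ => (p i).2.pos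

theorem RR_ne : (RR p : ℚ) ≠ 0 := by
  have := (RR_pos p).ne'
  exact_mod_cast this

theorem dvd_RR (i : Fin s) : (p i : ℕ) ∣ RR p := Finset.dvd_prod_of_mem _ (Finset.mem_univ i)

/-- the ring of the rational numbers whose denominators divide a power of the product of the primes -/
def ZS : Subring ℚ where
  carrier := {q | ∃ (k : ℕ) (z : ℤ), q * (RR p : ℚ) ^ k = z}
  mul_mem' := by
    rintro a b ⟨k, z, h⟩ ⟨l, y, h'⟩
    refine ⟨k + l, z * y, ?_⟩
    push_cast
    rw [← h, ← h', pow_add]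
    ring
  one_mem' := ⟨0, 1, by simp⟩
  add_mem' := by
    rintro a b ⟨k, z, h⟩ ⟨l, y, h'⟩
    refine ⟨k + l, z * (RR p : ℤ) ^ l + y * (RR p : ℤ) ^ k, ?_⟩
    push_cast
    rw [← h, ← h', pow_add]
    ring
  zero_mem' := ⟨0, 0, by simp⟩
  neg_mem' := by
    rintro a ⟨k, z, h⟩
    refine ⟨k, -z, ?_⟩
    push_cast
    rw [← h]
    ring

theorem int_mem_ZS (z : ℤ) : (z : ℚ) ∈ ZS p := ⟨0, z, by simp⟩

theorem zpow_mem_ZS (i : Fin s) (k : ℤ) : ((p i : ℕ) : ℚ) ^ k ∈ ZS p := by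
  obtain ⟨m, hm⟩ := dvd_RR p i
  have hp0 : ((p i : ℕ) : ℚ) ≠ 0 := by exact_mod_cast (p i).2.ne_zero
  obtain ⟨n, rfl | rfl⟩ := k.eq_nat_or_neg
  · refine ⟨0, (p i : ℕ) ^ n, ?_⟩
    push_cast
    rw [zpow_natCast, pow_zero, mul_one]
  · refine ⟨n, m ^ n, ?_⟩
    rw [hm]
    push_cast
    rw [zpow_neg, zpow_natCast, mul_pow, ← mul_assoc,
      inv_mul_cancel₀ (by positivity), one_mul]

theorem absv_add_le (v : Fin (s + 1)) (hv : v ≠ 0) (a b : ℚ) :
    absv p v (a + b) ≤ max (absv p v a) (absv p v b) := by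
  obtain ⟨i, rfl⟩ := Fin.exists_succ_eq.2 hv
  rw [absv_succ_apply, absv_succ_apply, absv_succ_apply]
  rw [Rat.AbsoluteValue.padic_eq_padicNorm, Rat.AbsoluteValue.padic_eq_padicNorm,
      Rat.AbsoluteValue.padic_eq_padicNorm]
  exact_mod_cast padicNorm.nonarchimedean (p := (p i : ℕ)) (q := a) (r := b)

theorem absv_int_le (v : Fin (s + 1)) (hv : v ≠ 0) (z : ℤ) : absv p v (z : ℚ) ≤ 1 := by
  obtain ⟨i, rfl⟩ := Fin.exists_succ_eq.2 hv
  exact padic_int_le (p i : ℕ) z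

theorem absv_nat_le (v : Fin (s + 1)) (hv : v ≠ 0) (m : ℕ) : absv p v (m : ℚ) ≤ 1 := by
  have h := absv_int_le p v hv (m : ℤ)
  simpa using h

theorem absv_self_zpow (i : Fin s) (k : ℤ) :
    absv p i.succ (((p i : ℕ) : ℚ) ^ k) = ((p i : ℕ) : ℝ) ^ (-k) := by
  rw [absv_succ_apply, map_zpow₀, padic_self, inv_zpow, zpow_neg]

theorem absv_self_pow (i : Fin s) (k : ℕ) :
    absv p i.succ (((p i : ℕ) : ℚ) ^ k) = (((p i : ℕ) : ℝ) ^ k)⁻¹ := by
  have h := absv_self_zpow p i (k : ℤ)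
  rw [zpow_natCast, zpow_neg, zpow_natCast] at h
  exact h

theorem primes_not_dvd {i j : Fin s} (hp : Function.Injective p) (hij : i ≠ j) :
    ¬ (p i : ℕ) ∣ (p j : ℕ) := by
  intro h
  have h1 := (Nat.prime_dvd_prime_iff_eq (p i).2 (p j).2).1 h
  exact hij (hp (Subtype.ext h1))

theorem absv_unit (i : Fin s) (m : ℤ) (h : ¬ ((p i : ℕ) : ℤ) ∣ m) : absv p i.succ (m : ℚ) = 1 :=
  padic_unit (p i : ℕ) m h

theorem absv_unit_nat (i : Fin s) (m : ℕ) (h : ¬ (p i : ℕ) ∣ m) : absv p i.succ (m : ℚ) = 1 := by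
  have h1 := absv_unit p i (m : ℤ) (by exact_mod_cast h)
  simpa using h1

theorem absv_other_zpow (hp : Function.Injective p) {i j : Fin s} (hij : i ≠ j) (k : ℤ) :
    absv p i.succ (((p j : ℕ) : ℚ) ^ k) = 1 := by
  rw [map_zpow₀, absv_unit_nat p i _ (primes_not_dvd p hp hij), one_zpow]

/-- a natural number all of whose prime factors are among the `p i` -/
theorem prod_of_dvd (hp : Function.Injective p) (d k : ℕ) (hd : d ∣ RR p ^ k) :
    d = ∏ i, (p i : ℕ) ^ padicValNat (p i : ℕ) d := by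
  have hR : RR p ^ k ≠ 0 := (pow_pos (RR_pos p) k).ne'
  have hd0 : d ≠ 0 := fun h => hR (Nat.eq_zero_of_zero_dvd (h ▸ hd))
  have hinj : Function.Injective (fun i : Fin s => (p i : ℕ)) := fun i j h => hp (Subtype.ext h)
  have h1 : d = ∏ q ∈ Finset.univ.image (fun i : Fin s => (p i : ℕ)), q ^ d.factorization q := by
    conv_lhs => rw [← Nat.prod_factorization_pow_eq_self hd0]
    rw [Finsupp.prod]
    refine Finset.prod_subset ?_ ?_
    · intro q hq
      rw [Nat.support_factorization, Nat.mem_primeFactors] at hq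
      have h2 : q ∣ RR p ^ k := hq.2.1.trans hd
      have h3 := hq.1.dvd_of_dvd_pow h2
      rw [RR, hq.1.prime.dvd_finsetProd_iff] at h3
      obtain ⟨i, -, hi⟩ := h3
      rw [Finset.mem_image]
      exact ⟨i, Finset.mem_univ _, ((Nat.prime_dvd_prime_iff_eq hq.1 (p i).2).1 hi).symm⟩
    · intro q _ hq
      rw [Finsupp.notMem_support_iff] at hq
      rw [hq, pow_zero]
  rw [Finset.prod_image (fun i _ j _ h => hinj h)] at h1
  conv_lhs => rw [h1]
  refine Finset.prod_congr rfl fun i _ => ?_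
  rw [Nat.factorization_def _ (p i).2]

theorem absv_natCast (i : Fin s) (d : ℕ) (hd : d ≠ 0) :
    absv p i.succ (d : ℚ) = (((p i : ℕ) : ℝ) ^ padicValNat (p i : ℕ) d)⁻¹ := by
  have h := padic_int_eq (p i : ℕ) (d : ℤ) (by exact_mod_cast hd)
  rw [padicValInt.of_nat] at h
  rw [absv_succ_apply]
  exact_mod_cast h

/-- the denominator of an element of `ZS` -/
theorem den_dvd (q : ℚ) (hq : q ∈ ZS p) : ∃ k : ℕ, q.den ∣ RR p ^ k := by
  obtain ⟨k, z, hz⟩ := hq
  have h6 : (RR p : ℚ) ^ k ≠ 0 := pow_ne_zero _ (RR_ne p)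
  have hqz : q = Rat.divInt z ((RR p : ℤ) ^ k) := by
    rw [Rat.divInt_eq_div, eq_div_iff (by exact_mod_cast h6)]
    push_cast
    exact hz
  have hd : (q.den : ℤ) ∣ (RR p : ℤ) ^ k := by
    rw [hqz]; exact Rat.den_dvd _ _
  exact ⟨k, by exact_mod_cast hd⟩

/-- the powers of the primes in the denominator -/
theorem den_le (q : ℚ) (i : Fin s) :
    ((p i : ℕ) : ℝ) ^ padicValNat (p i : ℕ) q.den ≤ max 1 (absv p i.succ q) := by
  rcases Nat.eq_zero_or_pos (padicValNat (p i : ℕ) q.den) with ha | ha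
  · rw [ha, pow_zero]; exact le_max_left _ _
  · refine le_trans (le_of_eq ?_) (le_max_right _ _)
    have hmul : q * (q.den : ℚ) = (q.num : ℚ) := Rat.mul_den_eq_num q
    have hcop : Nat.Coprime q.num.natAbs q.den := q.reduced
    have hdvd : (p i : ℕ) ∣ q.den := by
      by_contra hcon
      rw [padicValNat.eq_zero_of_not_dvd hcon] at ha
      exact absurd ha (lt_irrefl 0)
    have hodd : ¬ ((p i : ℕ) : ℤ) ∣ q.num := by
      intro h
      have h4 : (p i : ℕ) ∣ q.num.natAbs := by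
        have := Int.natAbs_dvd_natAbs.mpr h
        simpa using this
      have := Nat.dvd_gcd h4 hdvd
      rw [hcop] at this
      exact (p i).2.one_lt.ne' (Nat.dvd_one.1 this)
    have e := congrArg (absv p i.succ) hmul
    rw [map_mul, absv_unit p i _ hodd, absv_natCast p i q.den q.den_ne_zero] at e
    have hp0 : (0 : ℝ) < ((p i : ℕ) : ℝ) ^ padicValNat (p i : ℕ) q.den := by
      have : (0 : ℝ) < ((p i : ℕ) : ℝ) := by exact_mod_cast (p i).2.pos
      positivity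
    field_simp at e
    exact e.symm

/-- the product formula for a number dividing a power of the product of the primes -/
theorem prod_den (hp : Function.Injective p) (d k : ℕ) (hd : d ∣ RR p ^ k) :
    (d : ℝ) * ∏ i : Fin s, absv p i.succ (d : ℚ) = 1 := by
  have hR : RR p ^ k ≠ 0 := (pow_pos (RR_pos p) k).ne'
  have hd0 : d ≠ 0 := fun h => hR (Nat.eq_zero_of_zero_dvd (h ▸ hd))
  have h1 := prod_of_dvd p hp d k hd
  have h2 : (d : ℝ) = ∏ i, ((p i : ℕ) : ℝ) ^ padicValNat (p i : ℕ) d := by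
    exact_mod_cast congrArg (fun n : ℕ => (n : ℝ)) h1
  have h3 : ∏ i : Fin s, absv p i.succ (d : ℚ) =
      (∏ i, ((p i : ℕ) : ℝ) ^ padicValNat (p i : ℕ) d)⁻¹ := by
    rw [← Finset.prod_inv_distrib]
    exact Finset.prod_congr rfl fun i _ => absv_natCast p i d hd0
  rw [h3, ← h2]
  exact mul_inv_cancel₀ (by exact_mod_cast hd0)

/-- the product formula inequality for integers -/
theorem prod_int (hp : Function.Injective p) (z : ℤ) (hz : z ≠ 0) :
    1 ≤ |(z : ℝ)| * ∏ i : Fin s, absv p i.succ (z : ℚ) := by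
  set d : ℕ := z.natAbs with hd
  have hd0 : d ≠ 0 := Int.natAbs_ne_zero.2 hz
  have habs : ∀ i : Fin s, absv p i.succ (z : ℚ) = (((p i : ℕ) : ℝ) ^ padicValNat (p i : ℕ) d)⁻¹ := by
    intro i
    have h := padic_int_eq (p i : ℕ) z hz
    exact h
  have hdvd : ∏ i : Fin s, (p i : ℕ) ^ padicValNat (p i : ℕ) d ∣ d := by
    refine Finset.prod_dvd_of_isRelPrime (fun i _ j _ hij => ?_) (fun i _ => pow_padicValNat_dvd)
    exact Nat.coprime_iff_isRelPrime.1 (Nat.coprime_pow_primes _ _ (p i).2 (p j).2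
      (fun h => hij (hp (Subtype.ext h))))
  have hle : ∏ i : Fin s, (p i : ℕ) ^ padicValNat (p i : ℕ) d ≤ d :=
    Nat.le_of_dvd (Nat.pos_of_ne_zero hd0) hdvd
  have hle' : ∏ i : Fin s, ((p i : ℕ) : ℝ) ^ padicValNat (p i : ℕ) d ≤ |(z : ℝ)| := by
    have h1 : ((∏ i : Fin s, (p i : ℕ) ^ padicValNat (p i : ℕ) d : ℕ) : ℝ) ≤ (d : ℝ) := by
      exact_mod_cast hle
    push_cast at h1
    rw [hd, Nat.cast_natAbs, Int.cast_abs] at h1
    exact h1
  have hpos : 0 < ∏ i : Fin s, ((p i : ℕ) : ℝ) ^ padicValNat (p i : ℕ) d :=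
    Finset.prod_pos fun i _ => by
      have : (0 : ℝ) < ((p i : ℕ) : ℝ) := by exact_mod_cast (p i).2.pos
      positivity
  have h3 : ∏ i : Fin s, absv p i.succ (z : ℚ) =
      (∏ i, ((p i : ℕ) : ℝ) ^ padicValNat (p i : ℕ) d)⁻¹ := by
    rw [← Finset.prod_inv_distrib]
    exact Finset.prod_congr rfl fun i _ => habs i
  rw [h3, ← div_eq_mul_inv, le_div_iff₀ hpos, one_mul]
  exact hle'

/-- The product formula inequality. -/
theorem prod_absv (hp : Function.Injective p) (q : ℚ) (hq : q ∈ ZS p) (h0 : q ≠ 0) :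
    1 ≤ ∏ v, absv p v q := by
  obtain ⟨k, hk⟩ := den_dvd p q hq
  have h1 := prod_den p hp q.den k hk
  have h2 := prod_int p hp q.num (Rat.num_ne_zero.2 h0)
  have hmul : q * (q.den : ℚ) = (q.num : ℚ) := Rat.mul_den_eq_num q
  have h3 : |(q.num : ℝ)| = absv p 0 q * q.den := by
    rw [absv_zero_eq]
    have e : (q : ℝ) * (q.den : ℝ) = (q.num : ℝ) := by exact_mod_cast hmul
    rw [← e, abs_mul, abs_of_nonneg (Nat.cast_nonneg q.den : (0 : ℝ) ≤ q.den)]
  have h4 : ∏ i : Fin s, absv p i.succ (q.num : ℚ) =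
      (∏ i : Fin s, absv p i.succ q) * ∏ i : Fin s, absv p i.succ (q.den : ℚ) := by
    rw [← Finset.prod_mul_distrib]
    refine Finset.prod_congr rfl fun i _ => ?_
    rw [← map_mul, hmul]
  rw [h3, h4] at h2
  rw [Fin.prod_univ_succ]
  have h5 : absv p 0 q * (q.den : ℝ) * ((∏ i : Fin s, absv p i.succ q) *
      ∏ i : Fin s, absv p i.succ (q.den : ℚ)) = absv p 0 q * ∏ i : Fin s, absv p i.succ q := by
    have : absv p 0 q * (q.den : ℝ) * ((∏ i : Fin s, absv p i.succ q) *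
      ∏ i : Fin s, absv p i.succ (q.den : ℚ)) = absv p 0 q * (∏ i : Fin s, absv p i.succ q) *
        ((q.den : ℝ) * ∏ i : Fin s, absv p i.succ (q.den : ℚ)) := by ring
    rw [this, h1, mul_one]
  rw [h5] at h2
  exact h2

/-- the height of an element of `ZS` -/
theorem ht_le_of_ZS (hp : Function.Injective p) (q : ℚ) (hq : q ∈ ZS p) :
    (ht q : ℝ) ≤ ∏ v, max 1 (absv p v q) := by
  obtain ⟨k, hk⟩ := den_dvd p q hq
  have hd := prod_of_dvd p hp q.den k hk
  have hden : (q.den : ℝ) ≤ ∏ i : Fin s, max 1 (absv p i.succ q) := by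
    have h1 : (q.den : ℝ) = ∏ i, ((p i : ℕ) : ℝ) ^ padicValNat (p i : ℕ) q.den := by
      exact_mod_cast congrArg (fun n : ℕ => (n : ℝ)) hd
    rw [h1]
    refine Finset.prod_le_prod (fun i _ => by positivity) fun i _ => den_le p q i
  have hd0 : (0 : ℝ) ≤ q.den := Nat.cast_nonneg _
  have hnum : ((q.num.natAbs : ℕ) : ℝ) = absv p 0 q * q.den := by
    have e : (q : ℝ) * (q.den : ℝ) = (q.num : ℝ) := by
      have := Rat.mul_den_eq_num q
      exact_mod_cast this
    rw [absv_zero_eq, Nat.cast_natAbs, Int.cast_abs, ← e, abs_mul, abs_of_nonneg hd0]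
  have hm1 : (1 : ℝ) ≤ max 1 (absv p 0 q) := le_max_left _ _
  rw [ht, Fin.prod_univ_succ]
  push_cast
  refine max_le ?_ ?_
  · rw [hnum]
    exact mul_le_mul (le_max_right _ _) hden hd0 (by positivity)
  · calc (q.den : ℝ) = 1 * q.den := (one_mul _).symm
      _ ≤ _ := mul_le_mul hm1 hden hd0 (by positivity)

/-- bounded values give a bounded denominator -/
theorem int_of_absv_le (hp : Function.Injective p) (q : ℚ) (hq : q ∈ ZS p) (k : ℕ)
    (h : ∀ i : Fin s, absv p i.succ q ≤ ((p i : ℕ) : ℝ) ^ k) :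
    ∃ z : ℤ, q * (RR p : ℚ) ^ k = z := by
  obtain ⟨l, hl⟩ := den_dvd p q hq
  have hd := prod_of_dvd p hp q.den l hl
  have hle : ∀ i : Fin s, padicValNat (p i : ℕ) q.den ≤ k := by
    intro i
    have h1 : (1 : ℝ) < ((p i : ℕ) : ℝ) := by exact_mod_cast (p i).2.one_lt
    have h3 : ((p i : ℕ) : ℝ) ^ padicValNat (p i : ℕ) q.den ≤ ((p i : ℕ) : ℝ) ^ k :=
      (den_le p q i).trans (max_le (one_le_pow₀ h1.le) (h i))
    exact (pow_le_pow_iff_right₀ h1).mp h3
  have hdvd : q.den ∣ RR p ^ k := by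
    rw [hd, RR, ← Finset.prod_pow]
    exact Finset.prod_dvd_prod_of_dvd _ _ fun i _ => pow_dvd_pow _ (hle i)
  obtain ⟨m, hm⟩ := hdvd
  refine ⟨q.num * m, ?_⟩
  have hmul : q * (q.den : ℚ) = (q.num : ℚ) := Rat.mul_den_eq_num q
  have e : (RR p : ℚ) ^ k = (q.den : ℚ) * m := by exact_mod_cast congrArg (fun n : ℕ => (n : ℚ)) hm
  rw [e, ← mul_assoc, hmul]
  push_cast
  ring

end Pool.Agent.Lib.MP_9dc83d_nt.Sb

end
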