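import Pool.Agent.Lib.MP_9dc83d_nt.Sub.Germs
import Pool.Agent.Lib.MP_9dc83d_nt.Sub.Lattices
import Pool.Agent.Lib.MP_9dc83d_nt.Sub.OrthSystems
import Pool.Agent.Lib.MP_d0d59f_nt.Sub.SplitGerms

/-!
Orthogonal bases for germs, for the places infinity and `p i`
(adapted from `Pool.Agent.Lib.MP_d0d59f_nt.Sub.SplitGerms`).
-/

section

namespace Pool.Agent.Lib.MP_9dc83d_nt.Sb

open Filter Topology Pool.Agent.Lib.MP_d0d59f_nt.Auto Pool.Agent.Lib.MP_d0d59f_nt.Lin

attribute [local instance] sqAlg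

variable {s : ℕ} (p : Fin s → Nat.Primes) {L : ℕ → ℕ} {hL : Tendsto L atTop atTop}

/-- ultrametric sum -/
theorem splitGermA_sum_le {v : Fin (s + 1)} (hv : v ≠ 0) {ι : Type} (S : Finset ι) (f : ι → ℚ)
    {C : ℝ} (hC : 0 ≤ C) (h : ∀ i ∈ S, absv p v (f i) ≤ C) : absv p v (∑ i ∈ S, f i) ≤ C := by
  classical
  induction S using Finset.induction_on with
  | empty => simpa using hC
  | insert b S hb ih =>
    rw [Finset.sum_insert hb]
    refine (absv_add_le p v hv _ _).trans (max_le (h b (Finset.mem_insert_self _ _)) ?_)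
    exact ih fun i hi => h i (Finset.mem_insert_of_mem hi)

/-- archimedean sum -/
theorem splitGermA_sum_le' (v : Fin (s + 1)) {ι : Type} [Fintype ι] (f : ι → ℚ)
    {C : ℝ} (h : ∀ i, absv p v (f i) ≤ C) : absv p v (∑ i, f i) ≤ (Fintype.card ι : ℝ) * C := by
  calc absv p v (∑ i, f i) ≤ ∑ i, absv p v (f i) := (absv p v).sum_le _ _
    _ ≤ ∑ _i : ι, C := Finset.sum_le_sum fun i _ => h i
    _ = (Fintype.card ι : ℝ) * C := by rw [Finset.sum_const, nsmul_eq_mul]; rfl

theorem splitGermA_zpow_le {b E : ℝ} (hb : 1 ≤ b) (k : ℤ) (hk : b ^ |k| ≤ E) :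
    b ^ k ≤ E ∧ b ^ (-k) ≤ E :=
  ⟨(zpow_le_zpow_right₀ hb (le_abs_self k)).trans hk,
    (zpow_le_zpow_right₀ hb (neg_le_abs k)).trans hk⟩

theorem one_le_prime (t : Fin s) : (1 : ℝ) ≤ ((p t : ℕ) : ℝ) := by
  exact_mod_cast (p t).2.one_lt.le

/-- Bounds for the entries. `h` is a bound for the absolute values of the entries of `A v`, `(A v)⁻¹`,
`E ≥ 1` a bound for `α i`, `1 / α i`, `(p t) ^ |k t i|`, and `n = card ι`. -/
theorem std_split_bounds (hp : Function.Injective p) {ι : Type} [Fintype ι] [DecidableEq ι] {C h E : ℝ}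
    (hC : 1 ≤ C) (hh : 1 ≤ h) (hE : 1 ≤ E)
    {A : Fin (s + 1) → Matrix ι ι ℚ} (hA : ∀ v, (A v).det ≠ 0)
    (hAh : ∀ v i j, absv p v (A v i j) ≤ h) (hAh' : ∀ v i j, absv p v ((A v)⁻¹ i j) ≤ h)
    {α : ι → ℝ} (hα : ∀ i, 0 < α i) (hαE : ∀ i, α i ≤ E) (hαE' : ∀ i, 1 / α i ≤ E)
    {k : Fin s → ι → ℤ} (hk : ∀ t i, ((p t : ℕ) : ℝ) ^ |k t i| ≤ E)
    {G V : Matrix ι ι ℚ} {ρ : ι → ℝ} (hGV : G * V = 1) (hG : ∀ i j, G i j ∈ ZS p)
    (hV : ∀ i j, V i j ∈ ZS p) (hρ : ∀ j, 0 < ρ j)
    (h0 : ∀ i j, absv p 0 ((A 0 * G) i j) ≤ α i * ρ j)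
    (h0' : ∀ j i, absv p 0 ((V * (A 0)⁻¹) j i) ≤ C / (α i * ρ j))
    (h1 : ∀ t i j, absv p t.succ ((A t.succ * G) i j) ≤ ((p t : ℕ) : ℝ) ^ k t i)
    (h1' : ∀ t j i, absv p t.succ ((V * (A t.succ)⁻¹) j i) ≤ ((p t : ℕ) : ℝ) ^ (-k t i)) :
    (∀ j, ρ j ≤ (Fintype.card ι : ℝ) * C * (h * E) ^ (s + 1)) ∧
    (∀ j, 1 / ρ j ≤ (Fintype.card ι : ℝ) * C * (h * E) ^ (s + 1)) ∧
    (∀ v i j, absv p v (G i j) ≤ ((Fintype.card ι : ℝ) * C * (h * E) ^ (s + 1)) ^ 2) ∧
    (∀ v i j, absv p v (V i j) ≤ ((Fintype.card ι : ℝ) * C * (h * E) ^ (s + 1)) ^ 2) := by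
  classical
  have hunit : ∀ v, IsUnit (A v).det := fun v => isUnit_iff_ne_zero.mpr (hA v)
  have hVG : V * G = 1 := mul_eq_one_comm.mp hGV
  have hh0 : (0 : ℝ) ≤ h := zero_le_one.trans hh
  have hE0 : (0 : ℝ) ≤ E := zero_le_one.trans hE
  have hC0 : (0 : ℝ) ≤ C := zero_le_one.trans hC
  have hhE : 1 ≤ h * E := one_le_mul_of_one_le_of_one_le hh hE
  have hGe : ∀ v, G = (A v)⁻¹ * (A v * G) := by
    intro v
    rw [← Matrix.mul_assoc, Matrix.nonsing_inv_mul _ (hunit v), Matrix.one_mul]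
  have hVe : ∀ v, V = (V * (A v)⁻¹) * A v := by
    intro v
    rw [Matrix.mul_assoc, Matrix.nonsing_inv_mul _ (hunit v), Matrix.mul_one]
  have e1 : ∀ t i j, absv p (Fin.succ t) (G i j) ≤ h * E := by
    intro t i j
    rw [hGe t.succ, Matrix.mul_apply]
    refine splitGermA_sum_le p (Fin.succ_ne_zero t) _ _ (by positivity) fun l _ => ?_
    rw [map_mul]
    exact mul_le_mul (hAh' t.succ i l)
      ((h1 t l j).trans (splitGermA_zpow_le (one_le_prime p t) (k t l) (hk t l)).1)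
      ((absv p t.succ).nonneg _) hh0
  have f1 : ∀ t i j, absv p (Fin.succ t) (V i j) ≤ h * E := by
    intro t i j
    rw [hVe t.succ, Matrix.mul_apply]
    refine splitGermA_sum_le p (Fin.succ_ne_zero t) _ _ (by positivity) fun m _ => ?_
    rw [map_mul, mul_comm h E]
    exact mul_le_mul ((h1' t i m).trans (splitGermA_zpow_le (one_le_prime p t) (k t m) (hk t m)).2)
      (hAh t.succ m j) ((absv p t.succ).nonneg _) hE0
  set n : ℝ := (Fintype.card ι : ℝ) with hn
  have hn0 : 0 ≤ n := Nat.cast_nonneg _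
  have e0 : ∀ i j, absv p 0 (G i j) ≤ n * (h * E) * ρ j := by
    intro i j
    rw [hGe 0, Matrix.mul_apply]
    have : ∀ m, absv p 0 ((A 0)⁻¹ i m * (A 0 * G) m j) ≤ h * (E * ρ j) := by
      intro m
      rw [map_mul]
      exact mul_le_mul (hAh' 0 i m) ((h0 m j).trans
        (mul_le_mul_of_nonneg_right (hαE m) (hρ j).le)) ((absv p 0).nonneg _) hh0
    refine (splitGermA_sum_le' p 0 _ this).trans (le_of_eq ?_)
    rw [← hn]
    ring
  have f0 : ∀ j i, absv p 0 (V j i) ≤ n * C * (h * E) * (1 / ρ j) := by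
    intro j i
    rw [hVe 0, Matrix.mul_apply]
    have : ∀ m, absv p 0 ((V * (A 0)⁻¹) j m * A 0 m i) ≤ (C * (E * (1 / ρ j))) * h := by
      intro m
      rw [map_mul]
      refine mul_le_mul ((h0' j m).trans ?_) (hAh 0 m i) ((absv p 0).nonneg _) ?_
      · have : C / (α m * ρ j) = C * ((1 / α m) * (1 / ρ j)) := by
          have := (hα m).ne'
          have := (hρ j).ne'
          field_simp
        rw [this]
        exact mul_le_mul_of_nonneg_left (mul_le_mul_of_nonneg_right (hαE' m)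
          (one_div_nonneg.mpr (hρ j).le)) hC0
      · have := one_div_nonneg.mpr (hρ j).le
        positivity
    refine (splitGermA_sum_le' p 0 _ this).trans (le_of_eq ?_)
    rw [← hn]
    ring
  have hn1 : ∀ j : ι, 1 ≤ n := by
    intro j
    rw [hn]
    have : Nonempty ι := ⟨j⟩
    exact_mod_cast Fintype.card_pos
  have hprod : ∀ g : ℚ, (∀ t : Fin s, absv p t.succ g ≤ h * E) →
      ∏ t : Fin s, absv p t.succ g ≤ (h * E) ^ s := by
    intro g hg
    calc ∏ t : Fin s, absv p t.succ g ≤ ∏ _t : Fin s, (h * E) :=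
          Finset.prod_le_prod (fun t _ => (absv p t.succ).nonneg _) fun t _ => hg t
      _ = (h * E) ^ s := by rw [Finset.prod_const, Finset.card_univ, Fintype.card_fin]
  have hinv : ∀ j, 1 / ρ j ≤ n * (h * E) ^ (s + 1) := by
    intro j
    have hex : ∃ i, G i j ≠ 0 := by
      by_contra hcon
      push Not at hcon
      have := congrFun (congrFun hVG j) j
      rw [Matrix.mul_apply, Matrix.one_apply_eq] at this
      simp [hcon] at this
    obtain ⟨i, hi⟩ := hex
    have h3 := prod_absv p hp _ (hG i j) hi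
    rw [Fin.prod_univ_succ] at h3
    have h4 : absv p 0 (G i j) * ∏ t : Fin s, absv p t.succ (G i j) ≤
        (n * (h * E) * ρ j) * (h * E) ^ s := by
      have := (hρ j).le
      refine mul_le_mul (e0 i j) (hprod _ fun t => e1 t i j)
        (Finset.prod_nonneg fun t _ => (absv p t.succ).nonneg _) ?_
      positivity
    rw [div_le_iff₀ (hρ j)]
    calc (1 : ℝ) ≤ _ := h3
      _ ≤ _ := h4
      _ = n * (h * E) ^ (s + 1) * ρ j := by ring
  have hbd : ∀ j, ρ j ≤ n * C * (h * E) ^ (s + 1) := by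
    intro j
    have hex : ∃ i, V j i ≠ 0 := by
      by_contra hcon
      push Not at hcon
      have := congrFun (congrFun hVG j) j
      rw [Matrix.mul_apply, Matrix.one_apply_eq] at this
      simp [hcon] at this
    obtain ⟨i, hi⟩ := hex
    have h3 := prod_absv p hp _ (hV j i) hi
    rw [Fin.prod_univ_succ] at h3
    have h4 : absv p 0 (V j i) * ∏ t : Fin s, absv p t.succ (V j i) ≤
        (n * C * (h * E) * (1 / ρ j)) * (h * E) ^ s := by
      have := one_div_nonneg.mpr (hρ j).le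
      refine mul_le_mul (f0 j i) (hprod _ fun t => f1 t j i)
        (Finset.prod_nonneg fun t _ => (absv p t.succ).nonneg _) ?_
      positivity
    have h5 : (1 : ℝ) ≤ n * C * (h * E) ^ (s + 1) * (1 / ρ j) := by
      calc (1 : ℝ) ≤ _ := h3
        _ ≤ _ := h4
        _ = _ := by ring
    rw [mul_one_div, le_div_iff₀ (hρ j), one_mul] at h5
    exact h5
  have hinv' : ∀ j, 1 / ρ j ≤ n * C * (h * E) ^ (s + 1) := by
    intro j
    refine (hinv j).trans ?_
    have : n ≤ n * C := le_mul_of_one_le_right hn0 hC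
    exact mul_le_mul_of_nonneg_right this (by positivity)
  have hpow : h * E ≤ (h * E) ^ (s + 1) := le_self_pow₀ hhE (by omega)
  have hB1 : ∀ _ : ι, h * E ≤ n * C * (h * E) ^ (s + 1) := by
    intro j
    have : 1 ≤ n * C := one_le_mul_of_one_le_of_one_le (hn1 j) hC
    calc h * E ≤ (h * E) ^ (s + 1) := hpow
      _ ≤ n * C * (h * E) ^ (s + 1) := le_mul_of_one_le_left (by positivity) this
  have hB2 : ∀ _ : ι, h * E ≤ (n * C * (h * E) ^ (s + 1)) ^ 2 := by
    intro j
    refine (hB1 j).trans (le_self_pow₀ ?_ (by norm_num))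
    exact hhE.trans (hB1 j)
  refine ⟨hbd, hinv', ?_, ?_⟩
  · intro v i j
    have hB := hB2 i
    refine Fin.cases ?_ (fun t => ?_) v
    · refine (e0 i j).trans ?_
      rw [sq]
      refine mul_le_mul ?_ (hbd j) (hρ j).le (by positivity)
      exact mul_le_mul (le_mul_of_one_le_right hn0 hC) hpow (by positivity) (by positivity)
    · exact (e1 t i j).trans hB
  · intro v i j
    have hB := hB2 i
    refine Fin.cases ?_ (fun t => ?_) v
    · refine (f0 i j).trans ?_
      rw [sq]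
      refine mul_le_mul ?_ (hinv' i) (one_div_nonneg.mpr (hρ i).le) (by positivity)
      exact mul_le_mul_of_nonneg_left hpow (by positivity)
    · exact (f1 t i j).trans hB

theorem splitGerm_unique {f : ℕ → ℚ} {y z : bigField L hL} (h : Rep f y) (h' : Rep f z) :
    y = z := Subtype.ext (h.symm.trans h')

theorem splitGerm_one {ι : Type} [DecidableEq ι] (i j : ι) :
    Rep (fun _ => (1 : Matrix ι ι ℚ) i j) ((1 : Matrix ι ι (bigField L hL)) i j) := by
  by_cases h : i = j
  · subst h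
    simp only [Matrix.one_apply_eq]
    rfl
  · simp only [Matrix.one_apply_ne h]
    rfl

/-- the choice at level `m` -/
theorem splitGerm_level {ι : Type} [Fintype ι] [DecidableEq ι] {C : ℝ}
    (hstd : ∀ (A : Fin (s + 1) → Matrix ι ι ℚ), (∀ v, (A v).det ≠ 0) → ∀ α : ι → ℝ, (∀ i, 0 < α i) →
    ∀ k : Fin s → ι → ℤ, ∃ (G V : Matrix ι ι ℚ) (ρ : ι → ℝ), G * V = 1 ∧ (∀ i j, G i j ∈ ZS p) ∧
      (∀ i j, V i j ∈ ZS p) ∧ (∀ j, 0 < ρ j) ∧
      (∀ i j, absv p 0 ((A 0 * G) i j) ≤ α i * ρ j) ∧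
      (∀ j i, absv p 0 ((V * (A 0)⁻¹) j i) ≤ C / (α i * ρ j)) ∧
      (∀ t i j, absv p t.succ ((A t.succ * G) i j) ≤ ((p t : ℕ) : ℝ) ^ k t i) ∧
      (∀ t j i, absv p t.succ ((V * (A t.succ)⁻¹) j i) ≤ ((p t : ℕ) : ℝ) ^ (-k t i)))
    (A : Fin (s + 1) → Matrix ι ι ℚ) (α : ι → ℝ) (hα : ∀ i, 0 < α i) (k : Fin s → ι → ℤ) :
    ∃ (G V : Matrix ι ι ℚ) (ρ : ι → ℝ), G * V = 1 ∧ (∀ i j, G i j ∈ ZS p) ∧
      (∀ i j, V i j ∈ ZS p) ∧ ((∀ v, (A v).det ≠ 0) → (∀ j, 0 < ρ j) ∧
      (∀ i j, absv p 0 ((A 0 * G) i j) ≤ α i * ρ j) ∧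
      (∀ j i, absv p 0 ((V * (A 0)⁻¹) j i) ≤ C / (α i * ρ j)) ∧
      (∀ t i j, absv p t.succ ((A t.succ * G) i j) ≤ ((p t : ℕ) : ℝ) ^ k t i) ∧
      (∀ t j i, absv p t.succ ((V * (A t.succ)⁻¹) j i) ≤ ((p t : ℕ) : ℝ) ^ (-k t i))) := by
  by_cases h : ∀ v, (A v).det ≠ 0
  · obtain ⟨G, V, ρ, h1, h2, h3, h4⟩ := hstd A h α hα k
    exact ⟨G, V, ρ, h1, h2, h3, fun _ => h4⟩
  · have h1 : ∀ i j : ι, (1 : Matrix ι ι ℚ) i j ∈ ZS p := by
      intro i j
      by_cases hij : i = j
      · subst hij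
        rw [Matrix.one_apply_eq]
        exact (ZS p).one_mem
      · rw [Matrix.one_apply_ne hij]
        exact (ZS p).zero_mem
    exact ⟨1, 1, fun _ => 1, by simp, h1, h1, fun h' => absurd h' h⟩

open Pool.Agent.Lib.MP_d0d59f_nt.Sb in
/-- orthogonal bases for germs -/
theorem split_germ (hp : Function.Injective p) (ι : Type) [Fintype ι] [DecidableEq ι] :
    SplitProp (smallField L hL) (OS p L hL) (wv p L hL) ι := by
  intro A hA a
  obtain ⟨C, hC1, hstd⟩ := std_split p hp ι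
  choose F hF hF' hFdet hFht using fun v => exists_rep_matrix (A v) (hA v)
  choose G V ρ hGV hGZ hVZ hlev using fun m => splitGerm_level p hstd (fun v => F v m)
    (fun i => Real.exp (a 0 i * L m)) (fun i => Real.exp_pos _)
    (fun t i => ⌊a t.succ i * L m / Real.log ((p t : ℕ) : ℝ)⌋)
  have hLpos : ∀ᶠ m in (hyperfilter ℕ : Filter ℕ), (1 : ℝ) ≤ L m := by
    filter_upwards [ah_L L hL 1] with m hm
    exact_mod_cast hm
  have hdet : ∀ᶠ m in (hyperfilter ℕ : Filter ℕ), ∀ v, (F v m).det ≠ 0 :=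
    eventually_all.2 hFdet
  have hht : ∀ᶠ m in (hyperfilter ℕ : Filter ℕ), ∀ v, ∀ i j,
        (ht (F v m i j) : ℝ) ≤ (1 + 1) ^ L m ∧ (ht ((F v m)⁻¹ i j) : ℝ) ≤ (1 + 1) ^ L m :=
    eventually_all.2 fun v => hFht v 1 one_pos
  have hp1 : ∀ t : Fin s, (1 : ℝ) < ((p t : ℕ) : ℝ) := fun t => by exact_mod_cast (p t).2.one_lt
  have hlp : ∀ t : Fin s, 0 < Real.log ((p t : ℕ) : ℝ) := fun t => Real.log_pos (hp1 t)
  -- the constants
  set lg : ℝ := ∑ t : Fin s, Real.log ((p t : ℕ) : ℝ) with hlg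
  have hlg0 : 0 ≤ lg := Finset.sum_nonneg fun t _ => (hlp t).le
  have hlgt : ∀ t : Fin s, Real.log ((p t : ℕ) : ℝ) ≤ lg := fun t =>
    Finset.single_le_sum (f := fun t : Fin s => Real.log ((p t : ℕ) : ℝ)) (fun t _ => (hlp t).le)
      (Finset.mem_univ t)
  obtain ⟨c, hc⟩ : ∃ c : ℝ, ∀ v i, |a v i| + lg ≤ c := by
    refine ⟨∑ v, ∑ i, |a v i| + lg, fun v i => ?_⟩
    have h1 : |a v i| ≤ ∑ i, |a v i| :=
      Finset.single_le_sum (f := fun i => |a v i|) (fun _ _ => abs_nonneg _) (Finset.mem_univ i)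
    have h2 : ∑ i, |a v i| ≤ ∑ v, ∑ i, |a v i| :=
      Finset.single_le_sum (f := fun v => ∑ i, |a v i|)
        (fun _ _ => Finset.sum_nonneg fun _ _ => abs_nonneg _) (Finset.mem_univ v)
    linarith
  set C' : ℝ := 1 + (s + 1) * (1 + max c 0) with hC'
  have hbd : ∀ᶠ m in (hyperfilter ℕ : Filter ℕ),
      (∀ j, ρ m j ≤ Real.exp (C' * L m)) ∧ (∀ j, 1 / ρ m j ≤ Real.exp (C' * L m)) ∧
      (∀ v i j, absv p v (G m i j) ≤ Real.exp (2 * C' * L m)) ∧
      (∀ v i j, absv p v (V m i j) ≤ Real.exp (2 * C' * L m)) := by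
    filter_upwards [hLpos, hdet, hht, ah_L L hL ⌈(Fintype.card ι : ℝ) * C⌉₊] with m hm1 hmd hmh hmn
    obtain ⟨hρ, h0, h0', h1, h1'⟩ := hlev m hmd
    have hLm0 : (0 : ℝ) ≤ L m := by linarith
    have h2e : ((1 : ℝ) + 1) ^ L m ≤ Real.exp (L m) := by
      have h3 : (1 : ℝ) + 1 ≤ Real.exp 1 := Real.add_one_le_exp 1
      calc ((1 : ℝ) + 1) ^ L m ≤ (Real.exp 1) ^ L m := pow_le_pow_left₀ (by norm_num) h3 _
        _ = Real.exp (L m) := by rw [← Real.exp_nat_mul, mul_one]
    have hm0 : 0 ≤ max c 0 := le_max_right _ _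
    have hmc : c ≤ max c 0 := le_max_left _ _
    have hh1 : (1 : ℝ) ≤ Real.exp (L m) := Real.one_le_exp hLm0
    have hE1 : (1 : ℝ) ≤ Real.exp (max c 0 * L m) := Real.one_le_exp (by positivity)
    have habs : ∀ v i (t : ℝ), t ≤ lg → |a v i * L m| + t ≤ max c 0 * L m := by
      intro v i t ht2
      rw [abs_mul, abs_of_nonneg hLm0]
      have h3 := hc v i
      have h4 : (|a v i| + lg) * L m ≤ max c 0 * L m :=
        mul_le_mul_of_nonneg_right (by linarith) hLm0
      nlinarith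
    have hres := std_split_bounds p hp hC1 hh1 hE1 (A := fun v => F v m) hmd
      (fun v i j => ((htBound_absv p v).le _).trans ((hmh v i j).1.trans h2e))
      (fun v i j => ((htBound_absv p v).le _).trans ((hmh v i j).2.trans h2e))
      (α := fun i => Real.exp (a 0 i * L m)) (fun i => Real.exp_pos _)
      (fun i => Real.exp_le_exp.2 (by
        have h3 := habs 0 i 0 hlg0
        have h4 := le_abs_self (a 0 i * L m)
        linarith))
      (fun i => by
        rw [one_div, ← Real.exp_neg]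
        refine Real.exp_le_exp.2 ?_
        have h3 := habs 0 i 0 hlg0
        have h4 := neg_abs_le (a 0 i * L m)
        linarith)
      (k := fun t i => ⌊a t.succ i * L m / Real.log ((p t : ℕ) : ℝ)⌋)
      (fun t i => ((splitGerm_floor (hp1 t) _).2.2).trans
        (Real.exp_le_exp.2 (habs t.succ i _ (hlgt t))))
      (hGV m) (hGZ m) (hVZ m) hρ h0 h0' h1 h1'
    have hB : (Fintype.card ι : ℝ) * C * (Real.exp (L m) * Real.exp (max c 0 * L m)) ^ (s + 1) ≤
        Real.exp (C' * L m) := by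
      have h5 : (Fintype.card ι : ℝ) * C ≤ Real.exp (L m) := by
        have h6 : (Fintype.card ι : ℝ) * C ≤ L m :=
          (Nat.le_ceil _).trans (by exact_mod_cast hmn)
        have h7 := Real.add_one_le_exp (L m : ℝ)
        linarith
      have h8 : (Real.exp (L m) * Real.exp (max c 0 * L m)) ^ (s + 1) =
          Real.exp ((s + 1) * (1 + max c 0) * L m) := by
        rw [← Real.exp_add, ← Real.exp_nat_mul]
        congr 1
        push_cast
        ring
      rw [h8]
      calc (Fintype.card ι : ℝ) * C * Real.exp ((s + 1) * (1 + max c 0) * L m)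
          ≤ Real.exp (L m) * Real.exp ((s + 1) * (1 + max c 0) * L m) :=
            mul_le_mul_of_nonneg_right h5 (Real.exp_pos _).le
        _ = Real.exp (C' * L m) := by
          rw [← Real.exp_add]
          congr 1
          rw [hC']
          ring
    have hC0 : (0 : ℝ) ≤ C := by linarith
    have hB2 : ((Fintype.card ι : ℝ) * C *
        (Real.exp (L m) * Real.exp (max c 0 * L m)) ^ (s + 1)) ^ 2 ≤ Real.exp (2 * C' * L m) := by
      calc ((Fintype.card ι : ℝ) * C * (Real.exp (L m) * Real.exp (max c 0 * L m)) ^ (s + 1)) ^ 2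
          ≤ (Real.exp (C' * L m)) ^ 2 := pow_le_pow_left₀ (by positivity) hB 2
        _ = Real.exp (2 * C' * L m) := by
          rw [← Real.exp_nat_mul]
          congr 1
          push_cast
          ring
    exact ⟨fun j => (hres.1 j).trans hB, fun j => (hres.2.1 j).trans hB,
      fun v i j => (hres.2.2.1 v i j).trans hB2, fun v i j => (hres.2.2.2 v i j).trans hB2⟩
  -- the germs
  choose Gg hGgO hGgR using fun i j => exists_germ_ZS p (hL := hL) hp (f := fun m => G m i j)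
    (fun m => hGZ m i j) (C := 2 * C') (hbd.mono fun m h v => h.2.2.1 v i j)
  choose Vg hVgO hVgR using fun i j => exists_germ_ZS p (hL := hL) hp (f := fun m => V m i j)
    (fun m => hVZ m i j) (C := 2 * C') (hbd.mono fun m h v => h.2.2.2 v i j)
  -- the limits
  have hlim : ∀ j, ∃ x : ℝ, Tendsto (fun m => Real.log (ρ m j) / L m) (hyperfilter ℕ) (𝓝 x) := by
    intro j
    refine exists_lim_of_bdd (C := C') ?_
    filter_upwards [hLpos, hdet, hbd] with m hm1 hmd hmb
    have hρ := (hlev m hmd).1 j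
    have hLm : (0 : ℝ) < L m := by linarith
    rw [abs_div, abs_of_pos hLm, div_le_iff₀ hLm, abs_le]
    have h1 : Real.log (ρ m j) ≤ C' * L m := (Real.log_le_iff_le_exp hρ).2 (hmb.1 j)
    have h2 : Real.log (1 / ρ m j) ≤ C' * L m :=
      (Real.log_le_iff_le_exp (by positivity)).2 (hmb.2.1 j)
    rw [one_div, Real.log_inv] at h2
    constructor <;> linarith
  choose r hr using hlim
  refine ⟨Matrix.of Gg, Matrix.of Vg, Fin.cons r (fun _ _ => 0), hGgO, hVgO, ?_, ?_⟩
  · ext1 i j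
    have h1 : Rep (fun m => ∑ x, G m i x * V m x j) ((Matrix.of Gg * Matrix.of Vg) i j) := by
      rw [Matrix.mul_apply]
      exact Rep.sum _ fun x _ => (hGgR i x).mul (hVgR x j)
    have h2 : (fun m => ∑ x, G m i x * V m x j) = fun _ => (1 : Matrix ι ι ℚ) i j := by
      funext m
      rw [← Matrix.mul_apply, hGV m]
    rw [h2] at h1
    exact splitGerm_unique h1 (splitGerm_one i j)
  · have hcolR : ∀ v i j, Rep (fun m => (F v m * G m) i j)
        ((up (bigField L hL) (A v) * Matrix.of Gg) i j) := by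
      intro v i j
      rw [Matrix.mul_apply]
      have h2 : (fun m => (F v m * G m) i j) = fun m => ∑ x, F v m i x * G m x j := by
        funext m
        rw [Matrix.mul_apply]
      rw [h2]
      exact Rep.sum _ fun x _ => (hF v i x).mul (hGgR x j)
    have hrowR : ∀ v j i, Rep (fun m => (V m * (F v m)⁻¹) j i)
        ((Matrix.of Vg * up (bigField L hL) (A v)⁻¹) j i) := by
      intro v j i
      rw [Matrix.mul_apply]
      have h2 : (fun m => (V m * (F v m)⁻¹) j i) = fun m => ∑ x, V m j x * (F v m)⁻¹ x i := by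
        funext m
        rw [Matrix.mul_apply]
      rw [h2]
      exact Rep.sum _ fun x _ => (hVgR j x).mul (hF' v x i)
    intro v
    refine Fin.cases ?_ (fun t => ?_) v
    · constructor
      · intro i j
        refine (hcolR 0 i j).wv_le p 0 (r := fun m => a 0 i + Real.log (ρ m j) / L m)
          (tendsto_const_nhds.add (hr j)) ?_
        filter_upwards [hLpos, hdet] with m hm1 hmd
        have hL0 : (L m : ℝ) ≠ 0 := by positivity
        have hρ := (hlev m hmd).1 j
        refine ((hlev m hmd).2.1 i j).trans (le_of_eq ?_)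
        rw [add_mul, Real.exp_add, div_mul_cancel₀ _ hL0, Real.exp_log hρ]
      · intro j i
        have hlim : Tendsto (fun m => Real.log C / L m - (a 0 i + Real.log (ρ m j) / L m))
            (hyperfilter ℕ) (𝓝 (-(a 0 i + r j))) := by
          have h3 := (splitGerm_div hL (Real.log C)).sub
            ((tendsto_const_nhds (x := a 0 i)).add (hr j))
          rwa [zero_sub] at h3
        refine (hrowR 0 j i).wv_le p 0 hlim ?_
        filter_upwards [hLpos, hdet] with m hm1 hmd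
        have hL0 : (L m : ℝ) ≠ 0 := by positivity
        have hρ := (hlev m hmd).1 j
        refine ((hlev m hmd).2.2.1 j i).trans (le_of_eq ?_)
        rw [sub_mul, add_mul, div_mul_cancel₀ _ hL0, div_mul_cancel₀ _ hL0, Real.exp_sub,
          Real.exp_add, Real.exp_log hρ, Real.exp_log (by linarith)]
    · constructor
      · intro i j
        refine (hcolR t.succ i j).wv_le p t.succ (r := fun _ => a t.succ i + 0)
          tendsto_const_nhds ?_
        filter_upwards [hdet] with m hmd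
        rw [add_zero]
        exact ((hlev m hmd).2.2.2.1 t i j).trans (splitGerm_floor (hp1 t) _).1
      · intro j i
        have hlim : Tendsto (fun m => Real.log ((p t : ℕ) : ℝ) / L m - (a t.succ i + 0))
            (hyperfilter ℕ) (𝓝 (-(a t.succ i + 0))) := by
          have h3 := (splitGerm_div hL (Real.log ((p t : ℕ) : ℝ))).sub
            (tendsto_const_nhds (x := a t.succ i + 0))
          rwa [zero_sub] at h3
        refine (hrowR t.succ j i).wv_le p t.succ hlim ?_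
        filter_upwards [hLpos, hdet] with m hm1 hmd
        have hL0 : (L m : ℝ) ≠ 0 := by positivity
        refine ((hlev m hmd).2.2.2.2 t j i).trans
          (((splitGerm_floor (hp1 t) _).2.1).trans (le_of_eq ?_))
        rw [sub_mul, div_mul_cancel₀ _ hL0, add_zero]


end Pool.Agent.Lib.MP_9dc83d_nt.Sb

end
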