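import Pool.Agent.Lib.MP_9dc83d_nt.Sub.Core

/-!
Units: no cancellation in linear combinations of units (with coefficients of small height), the unit
equation over the rational numbers, and the lower bound for all absolute values of sums of units.
-/

set_option autoImplicit false

section

namespace Pool.Agent.Lib.MP_9dc83d_nt.Sb

open Filter Topology Pool.Agent.Lib.MP_d0d59f_nt.Auto Pool.Agent.Lib.MP_d0d59f_nt.Lin

variable {pl : ℕ} {κ 𝕂 : Type} [Field κ] [Field 𝕂] [Algebra κ 𝕂] {O : Subring 𝕂}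
  {w : Fin (pl + 1) → AbsoluteValue 𝕂 ℝ}

/-- `u` is a unit of the ring `O` -/
structure IsU (O : Subring 𝕂) (u : 𝕂) : Prop where
  ne : u ≠ 0
  mem : u ∈ O
  inv_mem : u⁻¹ ∈ O

theorem IsU.prod_eq (h : Setting κ O w) {u : 𝕂} (hu : IsU O u) : ∏ v, w v u = 1 := by
  have h1 := h.prod u hu.mem hu.ne
  have h2 := h.prod u⁻¹ hu.inv_mem (inv_ne_zero hu.ne)
  simp only [map_inv₀, Finset.prod_inv_distrib] at h2
  have h3 : 0 < ∏ v, w v u := Finset.prod_pos fun v _ => (w v).pos hu.ne
  exact le_antisymm (by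
    have := (one_le_inv₀ h3).1 h2
    exact this) h1

theorem IsU.sum_log (h : Setting κ O w) {u : 𝕂} (hu : IsU O u) : ∑ v, Real.log (w v u) = 0 := by
  rw [← Real.log_prod fun v _ => ((w v).pos hu.ne).ne', hu.prod_eq h, Real.log_one]

/-- No cancellation: for linearly independent units and nonzero constants the value of the linear
combination is the maximum of the values of the units, for all places. -/
theorem units_orth (h : Setting κ O w) (hN : NssProp κ O w) {ι : Type} [Fintype ι] (u : ι → 𝕂)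
    (hu : ∀ i, IsU O (u i)) (hind : LinearIndependent κ u) (c : ι → κ) (hc : ∀ i, c i ≠ 0)
    (v0 : Fin (pl + 1)) (i0 : ι) : w v0 (u i0) ≤ w v0 (∑ i, algebraMap κ 𝕂 (c i) * u i) := by
  classical
  set X : 𝕂 := ∑ i, algebraMap κ 𝕂 (c i) * u i with hX
  have hXne : X ≠ 0 := by
    intro h0
    have h1 := Fintype.linearIndependent_iff.1 hind c (by
      rw [← h0, hX]
      exact Finset.sum_congr rfl fun i _ => Algebra.smul_def _ _) i0
    exact hc i0 h1
  have hne : Nonempty ι := ⟨i0⟩
  have hmax : ∀ v, ∃ j : ι, ∀ i, w v (u i) ≤ w v (u j) := fun v => by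
    obtain ⟨j, -, hj⟩ := Finset.exists_max_image Finset.univ (fun i => w v (u i))
      Finset.univ_nonempty
    exact ⟨j, fun i => hj i (Finset.mem_univ i)⟩
  choose j hj using hmax
  have hXle : ∀ v, w v X ≤ w v (u (j v)) := by
    intro v
    refine val_sum_le (h.nonarch v) _ _ ((w v).nonneg _) fun i _ => ?_
    rw [map_mul, h.const v _ (hc i), one_mul]
    exact hj v i
  set M : Fin (pl + 1) → Matrix ι ι κ := fun v => (1 : Matrix ι ι κ).updateRow (j v) c with hM
  have hMdet : ∀ v, (M v).det ≠ 0 := by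
    intro v
    have h1 : (M v).det = c (j v) := by
      have h2 := Matrix.cramer_transpose_apply (1 : Matrix ι ι κ) c (j v)
      rw [Matrix.transpose_one, Matrix.cramer_one] at h2
      exact h2.symm
    rw [h1]
    exact hc _
  have key := hN ι u (fun i => (hu i).mem) hind M hMdet
  have hMz : ∀ v i, ∑ k, algebraMap κ 𝕂 (M v i k) * u k = if i = j v then X else u i := by
    intro v i
    by_cases hi : i = j v
    · rw [if_pos hi, hX, hM]
      simp only [hi]
      refine Finset.sum_congr rfl fun k _ => ?_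
      rw [Matrix.updateRow_self]
    · rw [if_neg hi, hM]
      simp only
      rw [Finset.sum_eq_single i]
      · rw [Matrix.updateRow_ne hi, Matrix.one_apply_eq, map_one, one_mul]
      · intro k _ hk
        rw [Matrix.updateRow_ne hi, Matrix.one_apply_ne hk.symm, map_zero, zero_mul]
      · intro h
        exact absurd (Finset.mem_univ i) h
  have e1 : ∀ v, ∑ i, Real.log (w v (∑ k, algebraMap κ 𝕂 (M v i k) * u k)) =
      ∑ i, Real.log (w v (u i)) + (Real.log (w v X) - Real.log (w v (u (j v)))) := by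
    intro v
    rw [← Finset.sum_erase_add _ _ (Finset.mem_univ (j v)),
      ← Finset.sum_erase_add (s := Finset.univ) (f := fun i => Real.log (w v (u i)))
        (Finset.mem_univ (j v)), hMz, if_pos rfl]
    have : ∑ i ∈ Finset.univ.erase (j v), Real.log (w v (∑ k, algebraMap κ 𝕂 (M v i k) * u k)) =
        ∑ i ∈ Finset.univ.erase (j v), Real.log (w v (u i)) := by
      refine Finset.sum_congr rfl fun i hi => ?_
      rw [hMz, if_neg (Finset.ne_of_mem_erase hi)]
    rw [this]
    ring
  rw [Finset.sum_congr rfl fun v _ => e1 v, Finset.sum_add_distrib, Finset.sum_comm,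
    Finset.sum_eq_zero fun i _ => (hu i).sum_log h, zero_add] at key
  -- all the terms are at most 0
  have hterm : ∀ v, Real.log (w v X) - Real.log (w v (u (j v))) ≤ 0 := fun v => by
    have := Real.log_le_log ((w v).pos hXne) (hXle v)
    linarith
  have hz : Real.log (w v0 X) - Real.log (w v0 (u (j v0))) = 0 := by
    refine le_antisymm (hterm v0) ?_
    by_contra hcon
    push Not at hcon
    have : ∑ v, (Real.log (w v X) - Real.log (w v (u (j v)))) < 0 :=
      Finset.sum_neg' (fun v _ => hterm v) ⟨v0, Finset.mem_univ v0, hcon⟩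
    linarith
  have h5 : w v0 X = w v0 (u (j v0)) :=
    Real.log_injOn_pos ((w v0).pos hXne) ((w v0).pos (hu _).ne) (by linarith)
  rw [h5]
  exact hj v0 i0

/-- the version with zero coefficients -/
theorem units_orth' (h : Setting κ O w) (hN : NssProp κ O w) {ι : Type} [Fintype ι] (u : ι → 𝕂)
    (hu : ∀ i, IsU O (u i)) (hind : LinearIndependent κ u) (c : ι → κ)
    (v0 : Fin (pl + 1)) (i0 : ι) (hc : c i0 ≠ 0) :
    w v0 (u i0) ≤ w v0 (∑ i, algebraMap κ 𝕂 (c i) * u i) := by
  classical
  have h1 := units_orth h hN (fun i : {i // c i ≠ 0} => u i) (fun i => hu i)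
    (hind.comp _ Subtype.val_injective) (fun i => c i) (fun i => i.2) v0 ⟨i0, hc⟩
  have h2 : ∑ i : {i // c i ≠ 0}, algebraMap κ 𝕂 (c i) * u i =
      ∑ i, algebraMap κ 𝕂 (c i) * u i := by
    rw [← Finset.sum_subtype (Finset.univ.filter fun i => c i ≠ 0) (fun i => by simp)
      (fun i => algebraMap κ 𝕂 (c i) * u i)]
    refine Finset.sum_filter_of_ne fun i _ hi h0 => hi ?_
    rw [h0, map_zero, zero_mul]
  rw [h2] at h1
  exact h1

/-- units with pairwise different values are linearly independent -/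
theorem units_indepOn (h : Setting κ O w) (hN : NssProp κ O w) {ι : Type} [DecidableEq ι]
    (u : ι → 𝕂) (T : Finset ι) (hu : ∀ i ∈ T, IsU O (u i))
    (hne : ∀ i ∈ T, ∀ j ∈ T, i ≠ j → ∃ v, w v (u i) ≠ w v (u j)) :
    LinearIndepOn κ u (T : Set ι) := by
  classical
  induction T using Finset.induction_on with
  | empty =>
    rw [Finset.coe_empty]
    exact linearIndepOn_empty κ u
  | insert a T ha ih =>
    have hT := ih (fun i hi => hu i (Finset.mem_insert_of_mem hi))
      (fun i hi j hj => hne i (Finset.mem_insert_of_mem hi) j (Finset.mem_insert_of_mem hj))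
    rw [Finset.coe_insert, linearIndepOn_insert (by exact_mod_cast ha)]
    refine ⟨hT, fun hmem => ?_⟩
    rw [Set.image_eq_range] at hmem
    obtain ⟨c, hc⟩ := (Submodule.mem_span_range_iff_exists_fun κ).1 hmem
    have hua := hu a (Finset.mem_insert_self a T)
    have hsum : ∑ i : (T : Set ι), algebraMap κ 𝕂 (c i) * u i = u a := by
      rw [← hc]
      exact Finset.sum_congr rfl fun i _ => (Algebra.smul_def _ _).symm
    obtain ⟨i, hi⟩ : ∃ i, c i ≠ 0 := by
      by_contra hcon
      push Not at hcon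
      apply hua.ne
      rw [← hsum]
      exact Finset.sum_eq_zero fun i _ => by rw [hcon i, map_zero, zero_mul]
    have hiT : (i : ι) ∈ T := by exact_mod_cast i.2
    have hui := hu i (Finset.mem_insert_of_mem hiT)
    have hle : ∀ v, w v (u i) ≤ w v (u a) := by
      intro v
      rw [← hsum]
      exact units_orth' h hN (fun i : (T : Set ι) => u i)
        (fun i => hu i (Finset.mem_insert_of_mem (by exact_mod_cast i.2))) hT c v i hi
    have hlog : ∀ v, Real.log (w v (u i)) ≤ Real.log (w v (u a)) := fun v =>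
      Real.log_le_log ((w v).pos hui.ne) (hle v)
    have hia : (i : ι) ≠ a := fun h0 => ha (h0 ▸ hiT)
    obtain ⟨v, hv⟩ := hne i (Finset.mem_insert_of_mem hiT) a (Finset.mem_insert_self a T) hia
    have hlt : Real.log (w v (u i)) < Real.log (w v (u a)) :=
      Real.log_lt_log ((w v).pos hui.ne) (lt_of_le_of_ne (hle v) hv)
    have := Finset.sum_lt_sum (fun v _ => hlog v) ⟨v, Finset.mem_univ v, hlt⟩
    rw [hui.sum_log h, hua.sum_log h] at this
    exact lt_irrefl _ this

theorem units_indep (h : Setting κ O w) (hN : NssProp κ O w) {ι : Type} [Fintype ι]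
    (u : ι → 𝕂) (hu : ∀ i, IsU O (u i)) (hne : ∀ i j, i ≠ j → ∃ v, w v (u i) ≠ w v (u j)) :
    LinearIndependent κ u := by
  classical
  have h1 := units_indepOn h hN u Finset.univ (fun i _ => hu i) (fun i _ j _ => hne i j)
  rw [Finset.coe_univ, linearIndepOn_univ_iff] at h1
  exact h1

/-- the units with the value 1 for all places are constants -/
def UnitConst (κ : Type) {𝕂 : Type} [Field κ] [Field 𝕂] [Algebra κ 𝕂] (O : Subring 𝕂)
    (w : Fin (pl + 1) → AbsoluteValue 𝕂 ℝ) : Prop :=
  ∀ u : 𝕂, IsU O u → (∀ v, w v u = 1) → ∃ c : κ, algebraMap κ 𝕂 c = u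

/-- grouping the units with the same values -/
theorem class_repr (h : Setting κ O w) (hN : NssProp κ O w) (hC : UnitConst κ O w) {ι : Type}
    [Fintype ι] [DecidableEq ι] (u : ι → 𝕂) (hu : ∀ i, IsU O (u i)) (c : ι → κ) :
    ∃ (E : Finset (Fin (pl + 1) → ℝ)) (r : E → ι) (T : E → Finset ι) (A : E → κ),
      (∀ i, (fun v => w v (u i)) ∈ E) ∧ (∀ e, (fun v => w v (u (r e))) = e) ∧
      (∀ e i, i ∈ T e ↔ (fun v => w v (u i)) = e) ∧
      (∀ e, ∑ i ∈ T e, algebraMap κ 𝕂 (c i) * u i = algebraMap κ 𝕂 (A e) * u (r e)) ∧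
      ∑ i, algebraMap κ 𝕂 (c i) * u i = ∑ e, algebraMap κ 𝕂 (A e) * u (r e) ∧
      LinearIndependent κ (fun e => u (r e)) := by
  classical
  set val : ι → Fin (pl + 1) → ℝ := fun i v => w v (u i) with hval
  set E : Finset (Fin (pl + 1) → ℝ) := Finset.univ.image val with hE
  have hrep : ∀ e : E, ∃ i, val i = e := fun e => by
    obtain ⟨i, -, hi⟩ := Finset.mem_image.1 e.2
    exact ⟨i, hi⟩
  choose r hr using hrep
  have hmemE : ∀ i, val i ∈ E := fun i => Finset.mem_image_of_mem _ (Finset.mem_univ i)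
  -- the quotients
  have hq : ∀ i, ∃ a : κ, algebraMap κ 𝕂 a = u i * (u (r ⟨val i, hmemE i⟩))⁻¹ := by
    intro i
    have hur := hu (r ⟨val i, hmemE i⟩)
    refine hC _ ⟨mul_ne_zero (hu i).ne (inv_ne_zero hur.ne), O.mul_mem (hu i).mem hur.inv_mem, ?_⟩
      fun v => ?_
    · rw [mul_inv, inv_inv]
      exact O.mul_mem (hu i).inv_mem hur.mem
    · have h1 : w v (u (r ⟨val i, hmemE i⟩)) = w v (u i) := congrFun (hr ⟨val i, hmemE i⟩) v
      rw [map_mul, map_inv₀, h1]
      exact mul_inv_cancel₀ ((w v).pos (hu i).ne).ne'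
  choose a ha using hq
  have hind : LinearIndependent κ (fun e : E => u (r e)) := by
    refine units_indep h hN _ (fun e => hu _) fun e e' hne => ?_
    by_contra hcon
    push Not at hcon
    apply hne
    apply Subtype.ext
    rw [← hr e, ← hr e']
    exact funext hcon
  have hui : ∀ i, u i = algebraMap κ 𝕂 (a i) * u (r ⟨val i, hmemE i⟩) := by
    intro i
    rw [ha, mul_assoc, inv_mul_cancel₀ (hu _).ne, mul_one]
  -- the sum over a class
  have hcl : ∀ e : E, ∑ i with val i = e, algebraMap κ 𝕂 (c i) * u i =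
      algebraMap κ 𝕂 (∑ i with val i = e, c i * a i) * u (r e) := by
    intro e
    rw [map_sum, Finset.sum_mul]
    refine Finset.sum_congr rfl fun i hi => ?_
    have h1 : val i = e := (Finset.mem_filter.1 hi).2
    have h2 : (⟨val i, hmemE i⟩ : E) = e := Subtype.ext h1
    rw [map_mul, mul_assoc, ← h2]
    rw [← hui i]
  refine ⟨E, r, fun e => Finset.univ.filter fun i => val i = e,
    fun e => ∑ i with val i = e, c i * a i, hmemE, hr, fun e i => by
      rw [Finset.mem_filter]
      exact ⟨fun h => h.2, fun h => ⟨Finset.mem_univ _, h⟩⟩, hcl, ?_, hind⟩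
  rw [Finset.sum_congr rfl fun e _ => (hcl e).symm]
  rw [Finset.sum_coe_sort E (fun e => ∑ i with val i = e, algebraMap κ 𝕂 (c i) * u i)]
  exact (Finset.sum_fiberwise_of_maps_to (fun i _ => hmemE i) _).symm

/-- If a linear combination of units vanishes, then the sum over each class of units with the same
values vanishes. -/
theorem class_sum (h : Setting κ O w) (hN : NssProp κ O w) (hC : UnitConst κ O w) {ι : Type}
    [Fintype ι] (u : ι → 𝕂) (hu : ∀ i, IsU O (u i)) (c : ι → κ)
    (h0 : ∑ i, algebraMap κ 𝕂 (c i) * u i = 0) (i0 : ι) :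
    ∃ T : Finset ι, (∀ i, i ∈ T ↔ ∀ v, w v (u i) = w v (u i0)) ∧
      ∑ i ∈ T, algebraMap κ 𝕂 (c i) * u i = 0 := by
  classical
  obtain ⟨E, r, T, A, hE, hr, hT, hA, hs, hind⟩ := class_repr h hN hC u hu c
  refine ⟨T ⟨_, hE i0⟩, fun i => ?_, ?_⟩
  · rw [hT]
    exact ⟨fun h => congrFun h, fun h => funext h⟩
  · have hz := Fintype.linearIndependent_iff.1 hind A (by
      rw [← h0, hs]
      exact Finset.sum_congr rfl fun i _ => Algebra.smul_def _ _)
    rw [hA, hz, map_zero, zero_mul]

/-- No cancellation in linear combinations of units all of whose sub-sums are different from 0. -/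
theorem units_sum_ge (h : Setting κ O w) (hN : NssProp κ O w) (hC : UnitConst κ O w) {ι : Type}
    [Fintype ι] (u : ι → 𝕂) (hu : ∀ i, IsU O (u i)) (c : ι → κ)
    (hne : ∀ T : Finset ι, T.Nonempty → ∑ i ∈ T, algebraMap κ 𝕂 (c i) * u i ≠ 0)
    (v : Fin (pl + 1)) (i0 : ι) : w v (u i0) ≤ w v (∑ i, algebraMap κ 𝕂 (c i) * u i) := by
  classical
  obtain ⟨E, r, T, A, hE, hr, hT, hA, hs, hind⟩ := class_repr h hN hC u hu c
  have hA0 : ∀ e, A e ≠ 0 := by
    intro e h0
    apply hne (T e) ⟨r e, (hT e (r e)).2 (hr e)⟩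
    rw [hA, h0, map_zero, zero_mul]
  have h1 := units_orth h hN (fun e => u (r e)) (fun e => hu _) hind A hA0 v ⟨_, hE i0⟩
  rw [hs]
  have h2 : w v (u (r ⟨_, hE i0⟩)) = w v (u i0) := congrFun (hr ⟨_, hE i0⟩) v
  rw [← h2]
  exact h1

end Pool.Agent.Lib.MP_9dc83d_nt.Sb

end

section

namespace Pool.Agent.Lib.MP_9dc83d_nt.Sb

open Filter Topology Pool.Agent.Lib.MP_d0d59f_nt.Auto Pool.Agent.Lib.MP_d0d59f_nt.Lin

attribute [local instance] sqAlg

variable {s : ℕ} (p : Fin s → Nat.Primes) {L : ℕ → ℕ} {hL : Tendsto L atTop atTop}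

theorem unitConst_germ (hp : Function.Injective p) :
    UnitConst (smallField L hL) (OS p L hL) (wv p L hL) := by
  intro u hu hv
  obtain ⟨f, hf, hfR⟩ := exists_rep_OS p u hu.mem
  have hmem : (f : QU) ∈ smallField L hL := by
    refine ⟨f, rfl, fun ε hε => ?_⟩
    have hs : (0 : ℝ) < (s : ℝ) + 1 := by positivity
    have hl : 0 < Real.log (1 + ε) := Real.log_pos (by linarith)
    have h1 : ∀ᶠ m in (hyperfilter ℕ : Filter ℕ), ∀ v,
        absv p v (f m) ≤ Real.exp ((0 + Real.log (1 + ε) / (s + 1)) * L m) := by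
      refine Filter.eventually_all.2 fun v => ?_
      have h0 : wv p L hL v u ≤ Real.exp 0 := by rw [hv v, Real.exp_zero]
      exact hfR.absv_le p v h0 (div_pos hl hs)
    filter_upwards [h1] with m hm
    have h2 : ∀ v, max 1 (absv p v (f m)) ≤
        Real.exp (Real.log (1 + ε) / (s + 1) * L m) := by
      intro v
      have h3 := hm v
      rw [zero_add] at h3
      exact max_le (Real.one_le_exp (by positivity)) h3
    calc (ht (f m) : ℝ) ≤ ∏ v, max 1 (absv p v (f m)) := ht_le_of_ZS p hp (f m) (hf m)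
      _ ≤ ∏ _v : Fin (s + 1), Real.exp (Real.log (1 + ε) / (s + 1) * L m) :=
          Finset.prod_le_prod (fun v _ => le_trans zero_le_one (le_max_left _ _)) fun v _ => h2 v
      _ = (1 + ε) ^ L m := by
          rw [Finset.prod_const, Finset.card_univ, Fintype.card_fin, ← Real.exp_nat_mul]
          push_cast
          have e : ((s : ℝ) + 1) * (Real.log (1 + ε) / (s + 1) * L m) = Real.log (1 + ε) * L m := by
            field_simp
          rw [e, mul_comm, Real.exp_nat_mul, Real.exp_log (by linarith)]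
  exact ⟨⟨(f : QU), hmem⟩, Subtype.ext hfR⟩

/-- `q` is an S-unit, S the set of the primes `p i` -/
structure SU (q : ℚ) : Prop where
  ne : q ≠ 0
  mem : q ∈ ZS p
  inv_mem : q⁻¹ ∈ ZS p

theorem exists_germ_unit {f : ℕ → ℚ} (hf : ∀ m, SU p (f m)) {C : ℝ}
    (hC : ∀ᶠ m in (hyperfilter ℕ : Filter ℕ), (ht (f m) : ℝ) ≤ C ^ L m) :
    ∃ z : bigField L hL, IsU (OS p L hL) z ∧ Rep f z := by
  have hmem : (f : QU) ∈ bigField L hL := ⟨f, rfl, C, hC⟩
  refine ⟨⟨(f : QU), hmem⟩, ⟨?_, ⟨f, fun m => (hf m).mem, rfl⟩,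
    ⟨fun m => (f m)⁻¹, fun m => (hf m).inv_mem, ?_⟩⟩, rfl⟩
  · intro h0
    have h1 := sq_germ_zero (congrArg Subtype.val h0)
    obtain ⟨m, hm⟩ := h1.exists
    exact (hf m).ne hm
  · rw [Subfield.coe_inv]
    change _ = ((f : QU))⁻¹
    rw [← Germ.coe_inv]
    rfl

/-- No cancellation in sums of S-units, with coefficients of small height: for sequences of
S-units of height at most `C ^ L` and coefficients of height `exp (o (L))` such that no sub-sum
vanishes, all the absolute values of the sum are at least `exp (- ε L)` times those of the terms. -/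
theorem seq_sum_ge (hp : Function.Injective p) (hL : Tendsto L atTop atTop) {ι : Type} [Fintype ι]
    (f c : ι → ℕ → ℚ) (hf : ∀ i m, SU p (f i m))
    (hC : ∀ i, ∃ C : ℝ, ∀ᶠ m in (hyperfilter ℕ : Filter ℕ), (ht (f i m) : ℝ) ≤ C ^ L m)
    (hc : ∀ i, ((c i : ℕ → ℚ) : QU) ∈ smallField L hL)
    (hne : ∀ T : Finset ι, T.Nonempty → ∀ᶠ m in (hyperfilter ℕ : Filter ℕ),
      ∑ i ∈ T, c i m * f i m ≠ 0)
    (v : Fin (s + 1)) (i0 : ι) {ε : ℝ} (hε : 0 < ε) :
    ∀ᶠ m in (hyperfilter ℕ : Filter ℕ),
      absv p v (f i0 m) * Real.exp (-ε * L m) ≤ absv p v (∑ i, c i m * f i m) := by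
  classical
  choose C hC using hC
  choose u hu huR using fun i => exists_germ_unit p (hL := hL) (hf i) (hC i)
  set cc : ι → smallField L hL := fun i => ⟨((c i : ℕ → ℚ) : QU), hc i⟩ with hcc
  have hccR : ∀ i, Rep (c i) (algebraMap (smallField L hL) (bigField L hL) (cc i)) := fun i => rfl
  have hR : ∀ T : Finset ι, Rep (fun m => ∑ i ∈ T, c i m * f i m)
      (∑ i ∈ T, algebraMap (smallField L hL) (bigField L hL) (cc i) * u i) := fun T =>
    Rep.sum T fun i _ => (hccR i).mul (huR i)
  have h1 := units_sum_ge (setting_germ p hp) (nss_germ p hp) (unitConst_germ p hp) u hu cc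
    (fun T hT h0 => by
      have h2 := hR T
      rw [h0] at h2
      obtain ⟨m, hm1, hm2⟩ := ((hne T hT).and h2.eventually_zero).exists
      exact hm1 hm2) v i0
  have hpos : 0 < wv p L hL v (u i0) := (wv p L hL v).pos (hu i0).ne
  have l1 := wv_lim p (hL := hL) v _ _ (huR i0)
  have l2 := wv_lim p (hL := hL) v _ _ (hR Finset.univ)
  have b1 : wv p L hL v (u i0) < wv p L hL v (u i0) * Real.exp (ε / 2) :=
    lt_mul_of_one_lt_right hpos (Real.one_lt_exp_iff.2 (by positivity))
  have b2 : wv p L hL v (u i0) * Real.exp (-(ε / 2)) <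
      wv p L hL v (∑ i, algebraMap (smallField L hL) (bigField L hL) (cc i) * u i) := by
    refine lt_of_lt_of_le ?_ h1
    exact mul_lt_of_lt_one_right hpos (by rw [← Real.exp_zero]; exact Real.exp_lt_exp.2 (by linarith))
  filter_upwards [l1.eventually_lt_const b1, l2.eventually_const_lt b2, sq_L_pos hL] with m h3 h4 h5
  have h5' : (L m : ℝ) ≠ 0 := by exact_mod_cast h5.ne'
  have key : absv p v (f i0 m) ^ ((1 : ℝ) / L m) * Real.exp (-ε) ≤
      absv p v (∑ i, c i m * f i m) ^ ((1 : ℝ) / L m) := by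
    refine le_trans ?_ h4.le
    have e : Real.exp (-ε) = Real.exp (-(ε / 2)) * Real.exp (-(ε / 2)) := by
      rw [← Real.exp_add]
      congr 1
      ring
    rw [e, ← mul_assoc]
    refine mul_le_mul_of_nonneg_right ?_ (Real.exp_pos _).le
    calc absv p v (f i0 m) ^ ((1 : ℝ) / L m) * Real.exp (-(ε / 2)) ≤
        wv p L hL v (u i0) * Real.exp (ε / 2) * Real.exp (-(ε / 2)) :=
          mul_le_mul_of_nonneg_right h3.le (Real.exp_pos _).le
      _ = wv p L hL v (u i0) := by
          rw [mul_assoc, ← Real.exp_add, add_neg_cancel, Real.exp_zero, mul_one]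
  have h6 := pow_le_pow_left₀ (mul_nonneg (Real.rpow_nonneg ((absv p v).nonneg _) _)
    (Real.exp_pos _).le) key (L m)
  rw [mul_pow, ← Real.rpow_natCast, ← Real.rpow_mul ((absv p v).nonneg _), one_div,
    inv_mul_cancel₀ h5', Real.rpow_one, ← Real.exp_nat_mul, ← Real.rpow_natCast,
    ← Real.rpow_mul ((absv p v).nonneg _), inv_mul_cancel₀ h5', Real.rpow_one] at h6
  calc absv p v (f i0 m) * Real.exp (-ε * L m) = absv p v (f i0 m) * Real.exp (L m * -ε) := by
        rw [mul_comm (-ε)]
    _ ≤ _ := h6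

end Pool.Agent.Lib.MP_9dc83d_nt.Sb

end
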