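import Pool.Agent.Lib.MP_9dc83d_nt.Sub.UnitEq
import Pool.Agent.Lib.MP_9dc83d_nt.Sub.NoSeq

/-!
The unit equation over the rational numbers (finiteness), lower bounds for sums of S-units.
-/

set_option autoImplicit false

section

namespace Pool.Agent.Lib.MP_9dc83d_nt.Sb

open Filter Topology Pool.Agent.Lib.MP_d0d59f_nt.Auto Pool.Agent.Lib.MP_d0d59f_nt.Lin

variable {s : ℕ} (p : Fin s → Nat.Primes)

theorem finite_ht (B : ℕ) : {q : ℚ | ht q ≤ B}.Finite := by
  have h1 : ((Finset.Icc (-(B : ℤ)) B ×ˢ Finset.range (B + 1)).image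
      (fun a : ℤ × ℕ => (a.1 : ℚ) / a.2) : Set ℚ).Finite := Finset.finite_toSet _
  refine h1.subset fun q hq => ?_
  have hq' : max q.num.natAbs q.den ≤ B := hq
  rw [Finset.mem_coe, Finset.mem_image]
  refine ⟨(q.num, q.den), ?_, Rat.num_div_den q⟩
  rw [Finset.mem_product, Finset.mem_Icc, Finset.mem_range]
  have h2 := (le_max_left _ _).trans hq'
  have h3 := (le_max_right _ _).trans hq'
  refine ⟨⟨?_, ?_⟩, by omega⟩ <;> simp only <;> omega

theorem finite_ht_fun {ι : Type} [Fintype ι] (B : ℕ) : {x : ι → ℚ | ∀ i, ht (x i) ≤ B}.Finite := by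
  have h1 := Set.Finite.pi' (ι := ι) (t := fun _ => {q : ℚ | ht q ≤ B}) (fun _ => finite_ht B)
  exact h1

/-- Lower bounds for the absolute values of sums of S-units (with fixed coefficients) without
vanishing sub-sums. -/
theorem sum_units_ge (hp : Function.Injective p) {ι : Type} [Fintype ι] (a : ι → ℚ) {ε : ℝ}
    (hε : 0 < ε) : ∃ C : ℝ, 0 < C ∧ ∀ x : ι → ℚ, (∀ i, SU p (x i)) →
      (∀ T : Finset ι, T.Nonempty → ∑ i ∈ T, a i * x i ≠ 0) →
      ∀ (v : Fin (s + 1)) (i : ι),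
        absv p v (x i) ≤ C * ((∑ i, ht (x i) : ℕ) : ℝ) ^ ε * absv p v (∑ i, a i * x i) := by
  classical
  by_contra hcon
  push Not at hcon
  have hcon' : ∀ m : ℕ, ∃ (x : ι → ℚ) (vi : Fin (s + 1) × ι), (∀ i, SU p (x i)) ∧
      (∀ T : Finset ι, T.Nonempty → ∑ i ∈ T, a i * x i ≠ 0) ∧
      ((m : ℝ) + 1) * ((∑ i, ht (x i) : ℕ) : ℝ) ^ ε * absv p vi.1 (∑ i, a i * x i) <
        absv p vi.1 (x vi.2) := by
    intro m
    obtain ⟨x, h1, h2, v, i, h3⟩ := hcon (m + 1) (by positivity)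
    exact ⟨x, (v, i), h1, h2, h3⟩
  choose x vi hx hne hlt using hcon'
  set H : ℕ → ℕ := fun m => ∑ i, ht (x m i) with hH
  have hHi : ∀ m i, ht (x m i) ≤ H m := fun m i =>
    Finset.single_le_sum (f := fun i => ht (x m i)) (fun _ _ => Nat.zero_le _) (Finset.mem_univ i)
  have hH1 : ∀ m, 1 ≤ H m := fun m => (ht_pos _).trans_le (hHi m (vi m).2)
  have hS0 : ∀ m, ∑ i, a i * x m i ≠ 0 := fun m => hne m Finset.univ ⟨(vi m).2, Finset.mem_univ _⟩
  -- the heights tend to infinity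
  have hHtop : Tendsto H atTop atTop := by
    rw [tendsto_atTop]
    intro B
    have hfin := finite_ht_fun (ι := ι) B
    have hfin2 : ((fun y : (ι → ℚ) × Fin (s + 1) × ι =>
        absv p y.2.1 (y.1 y.2.2) / absv p y.2.1 (∑ i, a i * y.1 i)) ''
          ({x : ι → ℚ | ∀ i, ht (x i) ≤ B} ×ˢ Set.univ)).Finite :=
      (hfin.prod Set.finite_univ).image _
    obtain ⟨R, hR⟩ := hfin2.bddAbove
    obtain ⟨N, hN⟩ := exists_nat_gt R
    filter_upwards [eventually_ge_atTop N] with m hm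
    by_contra hlt'
    push Not at hlt'
    have h1 := hR ⟨(x m, vi m), ⟨fun i => (hHi m i).trans hlt'.le, Set.mem_univ _⟩, rfl⟩
    simp only at h1
    rw [div_le_iff₀ ((absv p _).pos (hS0 m))] at h1
    have h2 := hlt m
    have h3 : (1 : ℝ) ≤ ((H m : ℕ) : ℝ) ^ ε := Real.one_le_rpow (by exact_mod_cast hH1 m) hε.le
    have h4 : R ≤ ((m : ℝ) + 1) * ((H m : ℕ) : ℝ) ^ ε := by
      have h5 : (N : ℝ) ≤ m := by exact_mod_cast hm
      have h6 : (m : ℝ) + 1 ≤ ((m : ℝ) + 1) * ((H m : ℕ) : ℝ) ^ ε :=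
        le_mul_of_one_le_right (by positivity) h3
      linarith
    have h5 := mul_le_mul_of_nonneg_right h4 ((absv p (vi m).1).nonneg (∑ i, a i * x m i))
    linarith
  -- the exponents
  set L : ℕ → ℕ := fun m => Nat.log 2 (H m) + 1 with hLdef
  have hL : Tendsto L atTop atTop := by
    rw [tendsto_atTop]
    intro B
    filter_upwards [hHtop.eventually_ge_atTop (2 ^ B)] with m hm
    have : B ≤ Nat.log 2 (H m) := Nat.le_log_of_pow_le (by norm_num) hm
    simp only [hLdef]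
    omega
  have hHL : ∀ m, H m ≤ 2 ^ L m := fun m => (Nat.lt_pow_succ_log_self (by norm_num) _).le
  have hLH : ∀ m, 2 ^ L m ≤ 2 * H m := fun m => by
    have := Nat.pow_log_le_self 2 (x := H m) (by have := hH1 m; omega)
    simp only [hLdef]
    rw [pow_succ]
    omega
  -- the pair of the place and the index is constant along the ultrafilter
  obtain ⟨vi0, hvi0⟩ : ∃ vi0, ∀ᶠ m in (hyperfilter ℕ : Filter ℕ), vi m = vi0 := by
    have h1 : ∀ᶠ m in (hyperfilter ℕ : Filter ℕ), ∃ y, vi m = y := Eventually.of_forall fun m => ⟨_, rfl⟩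
    by_contra hcon2
    have hcon3 : ∀ y, ¬ ∀ᶠ m in (hyperfilter ℕ : Filter ℕ), vi m = y := fun y hy => hcon2 ⟨y, hy⟩
    have h2 : ∀ᶠ m in (hyperfilter ℕ : Filter ℕ), ∀ y, ¬ vi m = y := by
      refine Filter.eventually_all.2 fun y => ?_
      exact Ultrafilter.eventually_not.2 (hcon3 y)
    obtain ⟨m, hm⟩ := h2.exists
    exact hm _ rfl
  have key := seq_sum_ge p hp hL (fun i m => x m i) (fun i _ => a i) (fun i m => hx m i)
    (fun i => ⟨2, Eventually.of_forall fun m => by exact_mod_cast (hHi m i).trans (hHL m)⟩)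
    (fun i => by
      refine ⟨fun _ => a i, rfl, fun δ hδ => ?_⟩
      obtain ⟨N, hN⟩ := pow_unbounded_of_one_lt (ht (a i) : ℝ) (by linarith : (1 : ℝ) < 1 + δ)
      filter_upwards [ah_L L hL N] with m hm
      exact hN.le.trans (pow_le_pow_right₀ (by linarith) hm))
    (fun T hT => Eventually.of_forall fun m => hne m T hT) vi0.1 vi0.2
    (ε := ε * Real.log 2) (mul_pos hε (Real.log_pos (by norm_num)))
  obtain ⟨N, hN⟩ := exists_nat_gt ((2 : ℝ) ^ ε)
  have hbig : ∀ᶠ m in (hyperfilter ℕ : Filter ℕ), N ≤ m :=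
    Nat.hyperfilter_le_atTop (eventually_ge_atTop N)
  obtain ⟨m, h1, h2, h3⟩ := (key.and (hvi0.and hbig)).exists
  have h4 := hlt m
  rw [h2] at h4
  have h5 : Real.exp (-(ε * Real.log 2) * L m) = (((2 : ℝ) ^ L m) ^ ε)⁻¹ := by
    rw [← Real.rpow_natCast, ← Real.rpow_mul (by norm_num), Real.rpow_def_of_pos (by norm_num),
      ← Real.exp_neg]
    congr 1
    ring
  rw [h5, ← div_eq_mul_inv, div_le_iff₀ (by positivity)] at h1
  have h6 : ((2 : ℝ) ^ L m) ^ ε ≤ (2 : ℝ) ^ ε * ((H m : ℕ) : ℝ) ^ ε := by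
    rw [← Real.mul_rpow (by norm_num) (by positivity)]
    refine Real.rpow_le_rpow (by positivity) ?_ hε.le
    exact_mod_cast hLH m
  have h7 : (2 : ℝ) ^ ε * ((H m : ℕ) : ℝ) ^ ε ≤ ((m : ℝ) + 1) * ((H m : ℕ) : ℝ) ^ ε := by
    refine mul_le_mul_of_nonneg_right ?_ (by positivity)
    have h8 : (N : ℝ) ≤ m := by exact_mod_cast h3
    linarith
  have h8 := mul_le_mul_of_nonneg_left (h6.trans h7)
    ((absv p vi0.1).nonneg (∑ i, a i * x m i))
  have h9 : ((m : ℝ) + 1) * ((H m : ℕ) : ℝ) ^ ε * absv p vi0.1 (∑ i, a i * x m i) <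
      absv p vi0.1 (x m vi0.2) := h4
  linarith

/-- The unit equation over `ℚ`: for fixed coefficients `a i` the equation `∑ a i x i = 1` has only
finitely many solutions in S-units without vanishing sub-sums. -/
theorem unit_equation (hp : Function.Injective p) {ι : Type} [Fintype ι] (a : ι → ℚ) :
    {x : ι → ℚ | (∀ i, SU p (x i)) ∧ ∑ i, a i * x i = 1 ∧
      ∀ T : Finset ι, T.Nonempty → ∑ i ∈ T, a i * x i ≠ 0}.Finite := by
  classical
  rcases isEmpty_or_nonempty ι with hι | hι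
  · exact Set.toFinite _
  have hs : (0 : ℝ) < 2 * ((s : ℝ) + 1) := by positivity
  obtain ⟨C, hC, hx⟩ := sum_units_ge p hp a (ε := 1 / (2 * ((s : ℝ) + 1))) (by positivity)
  set C1 : ℝ := max 1 C with hC1
  set N : ℝ := (Fintype.card ι : ℝ) with hN
  have hN1 : 1 ≤ N := by
    rw [hN]
    exact_mod_cast Fintype.card_pos
  obtain ⟨B, hB⟩ := exists_nat_gt ((N * C1 ^ (s + 1)) ^ 2)
  refine (finite_ht_fun (ι := ι) B).subset ?_
  rintro x ⟨h1, h2, h3⟩ i0
  set H : ℕ := ∑ i, ht (x i) with hH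
  have hHi : ∀ i, ht (x i) ≤ H := fun i =>
    Finset.single_le_sum (f := fun i => ht (x i)) (fun _ _ => Nat.zero_le _) (Finset.mem_univ i)
  have hH1 : 1 ≤ H := (ht_pos _).trans_le (hHi i0)
  have hHR : (1 : ℝ) ≤ H := by exact_mod_cast hH1
  have hHp : (1 : ℝ) ≤ (H : ℝ) ^ (1 / (2 * ((s : ℝ) + 1))) := Real.one_le_rpow hHR (by positivity)
  have h4 : ∀ v i, absv p v (x i) ≤ C1 * (H : ℝ) ^ (1 / (2 * ((s : ℝ) + 1))) := by
    intro v i
    have h5 := hx x h1 h3 v i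
    rw [h2, map_one, mul_one] at h5
    exact h5.trans (mul_le_mul_of_nonneg_right (le_max_right _ _) (by positivity))
  have h5 : ∀ i, (ht (x i) : ℝ) ≤ C1 ^ (s + 1) * (H : ℝ) ^ ((1 : ℝ) / 2) := by
    intro i
    have hC11 : (1 : ℝ) ≤ C1 := le_max_left _ _
    calc (ht (x i) : ℝ) ≤ ∏ v, max 1 (absv p v (x i)) := ht_le_of_ZS p hp _ (h1 i).mem
      _ ≤ ∏ _v : Fin (s + 1), C1 * (H : ℝ) ^ (1 / (2 * ((s : ℝ) + 1))) := by
          refine Finset.prod_le_prod (fun v _ => le_trans zero_le_one (le_max_left _ _)) fun v _ =>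
            max_le ?_ (h4 v i)
          calc (1 : ℝ) = 1 * 1 := (one_mul 1).symm
            _ ≤ _ := mul_le_mul hC11 hHp zero_le_one (by positivity)
      _ = C1 ^ (s + 1) * (H : ℝ) ^ ((1 : ℝ) / 2) := by
          rw [Finset.prod_const, Finset.card_univ, Fintype.card_fin, mul_pow]
          congr 1
          rw [← Real.rpow_natCast, ← Real.rpow_mul (by positivity)]
          congr 1
          push_cast
          field_simp
  have h6 : (H : ℝ) ≤ N * (C1 ^ (s + 1) * (H : ℝ) ^ ((1 : ℝ) / 2)) := by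
    rw [hH]
    push_cast
    calc ∑ i, (ht (x i) : ℝ) ≤ ∑ _i : ι, C1 ^ (s + 1) * (H : ℝ) ^ ((1 : ℝ) / 2) :=
          Finset.sum_le_sum fun i _ => h5 i
      _ = _ := by
          rw [Finset.sum_const, Finset.card_univ, nsmul_eq_mul, hH]
          push_cast
          rfl
  have h7 : (H : ℝ) ^ ((1 : ℝ) / 2) ≤ N * C1 ^ (s + 1) := by
    have h8 : (H : ℝ) = (H : ℝ) ^ ((1 : ℝ) / 2) * (H : ℝ) ^ ((1 : ℝ) / 2) := by
      rw [← Real.rpow_add (by linarith)]
      norm_num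
    have h9 : 0 < (H : ℝ) ^ ((1 : ℝ) / 2) := by positivity
    have h10 : (H : ℝ) ^ ((1 : ℝ) / 2) * (H : ℝ) ^ ((1 : ℝ) / 2) ≤
        (N * C1 ^ (s + 1)) * (H : ℝ) ^ ((1 : ℝ) / 2) := by
      rw [← h8]
      linarith
    exact le_of_mul_le_mul_right h10 h9
  have h8 : (H : ℝ) ≤ (N * C1 ^ (s + 1)) ^ 2 := by
    have h9 : (H : ℝ) = ((H : ℝ) ^ ((1 : ℝ) / 2)) ^ 2 := by
      rw [← Real.rpow_natCast, ← Real.rpow_mul (by linarith)]
      norm_num
    rw [h9]
    exact pow_le_pow_left₀ (by positivity) h7 2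
  have h9 : H ≤ B := by
    have : (H : ℝ) < B := h8.trans_lt hB
    exact_mod_cast this.le
  exact (hHi i0).trans h9

end Pool.Agent.Lib.MP_9dc83d_nt.Sb

end

section

namespace Pool.Agent.Lib.MP_9dc83d_nt.Sb

open Pool.Agent.Lib.MP_d0d59f_nt.Auto Pool.Agent.Lib.MP_d0d59f_nt.Lin

variable {s : ℕ} (p : Fin s → Nat.Primes)

theorem SU.mul {a b : ℚ} (ha : SU p a) (hb : SU p b) : SU p (a * b) :=
  ⟨mul_ne_zero ha.ne hb.ne, (ZS p).mul_mem ha.mem hb.mem, by
    rw [mul_inv]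
    exact (ZS p).mul_mem ha.inv_mem hb.inv_mem⟩

theorem SU.inv {a : ℚ} (ha : SU p a) : SU p a⁻¹ :=
  ⟨inv_ne_zero ha.ne, ha.inv_mem, by
    rw [inv_inv]
    exact ha.mem⟩

theorem SU.one : SU p 1 := ⟨one_ne_zero, (ZS p).one_mem, by rw [inv_one]; exact (ZS p).one_mem⟩

theorem SU.neg {a : ℚ} (ha : SU p a) : SU p (-a) :=
  ⟨neg_ne_zero.2 ha.ne, (ZS p).neg_mem ha.mem, by
    rw [inv_neg]
    exact (ZS p).neg_mem ha.inv_mem⟩

theorem SU.pow {a : ℚ} (ha : SU p a) (n : ℕ) : SU p (a ^ n) := by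
  induction n with
  | zero => rw [pow_zero]; exact SU.one p
  | succ n ih => rw [pow_succ]; exact ih.mul p ha

/-- the integers dividing a power of the product of the primes are S-units -/
theorem SU.of_dvd {d k : ℕ} (hd : d ∣ RR p ^ k) : SU p (d : ℚ) := by
  have hR : RR p ^ k ≠ 0 := (pow_pos (RR_pos p) k).ne'
  have hd0 : d ≠ 0 := fun h => hR (Nat.eq_zero_of_zero_dvd (h ▸ hd))
  refine ⟨by exact_mod_cast hd0, ?_, ?_⟩
  · have := int_mem_ZS p (d : ℤ)
    exact_mod_cast this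
  · obtain ⟨m, hm⟩ := hd
    refine ⟨k, m, ?_⟩
    have e : (RR p : ℚ) ^ k = (d : ℚ) * m := by exact_mod_cast congrArg (fun n : ℕ => (n : ℚ)) hm
    have hd1 : (d : ℚ) ≠ 0 := by exact_mod_cast hd0
    rw [e, ← mul_assoc, inv_mul_cancel₀ hd1, one_mul]
    push_cast
    rfl

/-- finitely many nonzero rational numbers are S-units for a suitable set of primes -/
theorem exists_SU (T : Finset ℚ) (hT : ∀ q ∈ T, q ≠ 0) : ∃ (s : ℕ) (p : Fin s → Nat.Primes),
    Function.Injective p ∧ ∀ q ∈ T, SU p q := by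
  set b : ℕ := ∏ q ∈ T, q.num.natAbs * q.den with hb
  have hb0 : b ≠ 0 := Finset.prod_ne_zero_iff.2 fun q hq =>
    mul_ne_zero (Int.natAbs_ne_zero.2 (Rat.num_ne_zero.2 (hT q hq))) q.den_ne_zero
  obtain ⟨s, p, t0, K, hp, -, hbR⟩ := exists_primes hb0 Nat.prime_two
  refine ⟨s, p, hp, fun q hq => ?_⟩
  have h1 : q.num.natAbs * q.den ∣ RR p ^ K := (Finset.dvd_prod_of_mem _ hq).trans hbR
  have h2 : SU p ((q.num.natAbs : ℕ) : ℚ) := SU.of_dvd p ((dvd_mul_right _ _).trans h1)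
  have h3 : SU p (q.den : ℚ) := SU.of_dvd p ((dvd_mul_left _ _).trans h1)
  have h4 : SU p (q.num : ℚ) := by
    have e : (q.num : ℚ) = ((q.num.natAbs : ℕ) : ℚ) ∨ (q.num : ℚ) = -((q.num.natAbs : ℕ) : ℚ) := by
      rcases Int.natAbs_eq q.num with h | h
      · left
        have := congrArg (Int.cast : ℤ → ℚ) h
        rw [Int.cast_natCast] at this
        exact this
      · right
        have := congrArg (Int.cast : ℤ → ℚ) h
        rw [Int.cast_neg, Int.cast_natCast] at this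
        exact this
    rcases e with e | e
    · rw [e]
      exact h2
    · rw [e]
      exact h2.neg p
  have h5 := h4.mul p (h3.inv p)
  rw [← div_eq_mul_inv, Rat.num_div_den] at h5
  exact h5

/-- The unit equation in a finitely generated group of rational numbers. -/
theorem unit_equation_fg (Γ : Subgroup ℚˣ) (hΓ : Γ.FG) {ι : Type} [Fintype ι] (a : ι → ℚ) :
    {x : ι → ℚˣ | (∀ i, x i ∈ Γ) ∧ ∑ i, a i * (x i : ℚ) = 1 ∧
      ∀ T : Finset ι, T.Nonempty → ∑ i ∈ T, a i * (x i : ℚ) ≠ 0}.Finite := by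
  classical
  obtain ⟨G, hG⟩ := hΓ
  obtain ⟨s, p, hp, hS⟩ := exists_SU (G.image fun g : ℚˣ => (g : ℚ)) (fun q hq => by
    obtain ⟨g, -, rfl⟩ := Finset.mem_image.1 hq
    exact g.ne_zero)
  have hmem : ∀ x ∈ Γ, SU p ((x : ℚˣ) : ℚ) := by
    intro x hx
    rw [← hG] at hx
    refine Subgroup.closure_induction (p := fun x _ => SU p ((x : ℚˣ) : ℚ)) ?_ ?_ ?_ ?_ hx
    · intro x hx
      exact hS _ (Finset.mem_image_of_mem _ hx)
    · rw [Units.val_one]
      exact SU.one p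
    · intro x y _ _ h1 h2
      rw [Units.val_mul]
      exact h1.mul p h2
    · intro x _ h1
      rw [Units.val_inv_eq_inv_val]
      exact h1.inv p
  refine Set.Finite.of_finite_image (f := fun (x : ι → ℚˣ) i => ((x i : ℚˣ) : ℚ)) ?_ ?_
  · refine (unit_equation p hp a).subset ?_
    rintro _ ⟨x, ⟨h1, h2, h3⟩, rfl⟩
    exact ⟨fun i => hmem _ (h1 i), h2, h3⟩
  · intro x _ y _ hxy
    funext i
    exact Units.ext (congrFun hxy i)

end Pool.Agent.Lib.MP_9dc83d_nt.Sb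

end
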